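import Pool.Graph.R_pool_sql_team_seeded_3997aac3.Q69.FM.J
import Pool.Graph.R_pool_sql_team_seeded_3997aac3.Q70.FpR

/-!
# Extending a fast pair: geometry
-/

set_option autoImplicit false

open MeasureTheory ProbabilityTheory Finset Filter
open scoped Topology

namespace Pool.Agent.H69.FP

open Q70.Fp Q69.FL

variable {μ : ℝ × ℝ → ℝ}

/-- the larger coordinate of a vector -/
def mc (z : ℤ × ℤ) : ℕ := max z.1.natAbs z.2.natAbs

/-- the unit vector of the other coordinate -/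
def ev (z : ℤ × ℤ) : ℤ × ℤ := if z.2.natAbs ≤ z.1.natAbs then (0, 1) else (1, 0)

lemma dd_ev (z : ℤ × ℤ) : dd 0 (ev z) = 1 := by
  unfold ev
  split_ifs <;> simp [dd]

lemma mc_pos {z : ℤ × ℤ} (hz : z ≠ 0) : 1 ≤ mc z := by
  have h1 : dd 0 z = z.1.natAbs + z.2.natAbs := by simp [dd]
  have h2 := dd_pos hz
  unfold mc
  omega

lemma dd_le_mc (z : ℤ × ℤ) : dd 0 z ≤ 2 * mc z := by
  have h1 : dd 0 z = z.1.natAbs + z.2.natAbs := by simp [dd]
  unfold mc
  omega

lemma mc_le_dd (z : ℤ × ℤ) : mc z ≤ dd 0 z := by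
  have h1 : dd 0 z = z.1.natAbs + z.2.natAbs := by simp [dd]
  unfold mc
  omega

lemma dd_add_le (a b c d : ℤ × ℤ) : dd (a + b) (c + d) ≤ dd a c + dd b d := by
  simp only [dd, Prod.fst_add, Prod.snd_add]
  omega

lemma dd_smul_ev (z : ℤ × ℤ) (l : ℤ) : dd 0 (l • ev z) = l.natAbs := by
  unfold ev
  split_ifs <;> simp [dd]

/-- the points on the segment are close to it -/
lemma pt_near (z : ℤ × ℤ) {N : ℕ} (hN : 1 ≤ N) (k : ℕ) :
    dd ((N:ℤ) • pt z N k) ((k:ℤ) • z) ≤ 2 * N := by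
  have hN' : (0:ℤ) < N := by positivity
  simp only [dd, pt, Prod.smul_fst, Prod.smul_snd, smul_eq_mul]
  have e1 := Int.mul_ediv_add_emod ((k:ℤ) * z.1) N
  have e2 := Int.mul_ediv_add_emod ((k:ℤ) * z.2) N
  have g1 := Int.emod_nonneg ((k:ℤ) * z.1) hN'.ne'
  have g2 := Int.emod_nonneg ((k:ℤ) * z.2) hN'.ne'
  have g3 := Int.emod_lt_of_pos ((k:ℤ) * z.1) hN'
  have g4 := Int.emod_lt_of_pos ((k:ℤ) * z.2) hN'
  generalize (N:ℤ) * (((k:ℤ) * z.1) / N) = A1 at *
  generalize (N:ℤ) * (((k:ℤ) * z.2) / N) = A2 at *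
  generalize ((k:ℤ) * z.1) % N = B1 at *
  generalize ((k:ℤ) * z.2) % N = B2 at *
  generalize ((k:ℤ) * z.1) = C1 at *
  generalize ((k:ℤ) * z.2) = C2 at *
  omega

/-- comparison of the time constant with a multiple -/
lemma mz_near (h : Shape μ) {p z : ℤ × ℤ} {N K D : ℕ} (hd : dd ((N:ℤ) • p) ((K:ℤ) • z) ≤ D) :
    (N:ℝ) * mz μ p ≤ K * mz μ z + 3 * D ∧ (K:ℝ) * mz μ z ≤ N * mz μ p + 3 * D := by
  have h1 := mz_lip h ((N:ℤ) • p) ((K:ℤ) • z)
  have h2 := mz_lip h ((K:ℤ) • z) ((N:ℤ) • p)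
  rw [mz_smul h, mz_smul h] at h1 h2
  rw [dd_comm] at h2
  have h3 : (dd ((N:ℤ) • p) ((K:ℤ) • z) : ℝ) ≤ D := by exact_mod_cast hd
  constructor <;> linarith

/-- the extended points -/
def xp (u z : ℤ × ℤ) (k l : ℕ) : ℤ × ℤ := u - pt z (mc z) k + (l:ℤ) • ev z

/-- the extended points -/
def yp (v z : ℤ × ℤ) (j l : ℕ) : ℤ × ℤ := v + pt z (mc z) j + (l:ℤ) • ev z

lemma xp_near (h : Shape μ) {z : ℤ × ℤ} (hz : z ≠ 0) (u : ℤ × ℤ) (k l : ℕ) :
    mz μ (u - xp u z k l) ≤ (k:ℝ) / mc z * mz μ z + 6 + 3 * l := by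
  have hN := mc_pos hz
  have hN' : (0:ℝ) < mc z := by positivity
  have h1 : dd (((mc z : ℕ):ℤ) • pt z (mc z) k) ((k:ℤ) • z) ≤ 2 * mc z := pt_near z hN k
  have h2 := (mz_near h h1).1
  have e1 : u - xp u z k l = pt z (mc z) k - (l:ℤ) • ev z := by unfold xp; abel
  have h3 := mz_lip h (pt z (mc z) k) (u - xp u z k l)
  have h4 : dd (pt z (mc z) k) (u - xp u z k l) ≤ l := by
    rw [e1]
    have := dd_sub (pt z (mc z) k) 0 (pt z (mc z) k) ((l:ℤ) • ev z)
    rw [sub_zero, dd_self, dd_smul_ev] at this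
    simpa using this
  have h5 : (dd (pt z (mc z) k) (u - xp u z k l) : ℝ) ≤ l := by exact_mod_cast h4
  have h6 : mz μ (pt z (mc z) k) ≤ (k:ℝ) / mc z * mz μ z + 6 := by
    have e2 : (mc z : ℝ) * ((k:ℝ) / mc z * mz μ z + 6) = k * mz μ z + 3 * ((2 * mc z : ℕ) : ℝ) := by
      push_cast
      field_simp
      ring
    refine le_of_mul_le_mul_left ?_ hN'
    rw [e2]
    exact h2
  linarith

lemma yp_near (h : Shape μ) {z : ℤ × ℤ} (hz : z ≠ 0) (v : ℤ × ℤ) (k l : ℕ) :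
    mz μ (yp v z k l - v) ≤ (k:ℝ) / mc z * mz μ z + 6 + 3 * l := by
  have hN := mc_pos hz
  have hN' : (0:ℝ) < mc z := by positivity
  have h1 : dd (((mc z : ℕ):ℤ) • pt z (mc z) k) ((k:ℤ) • z) ≤ 2 * mc z := pt_near z hN k
  have h2 := (mz_near h h1).1
  have e1 : yp v z k l - v = pt z (mc z) k + (l:ℤ) • ev z := by unfold yp; abel
  have h3 := mz_lip h (pt z (mc z) k) (yp v z k l - v)
  have h4 : dd (pt z (mc z) k) (yp v z k l - v) ≤ l := by
    rw [e1]
    have := dd_add_le (pt z (mc z) k) 0 (pt z (mc z) k) ((l:ℤ) • ev z)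
    rw [add_zero, dd_self, dd_smul_ev] at this
    simpa using this
  have h5 : (dd (pt z (mc z) k) (yp v z k l - v) : ℝ) ≤ l := by exact_mod_cast h4
  have h6 : mz μ (pt z (mc z) k) ≤ (k:ℝ) / mc z * mz μ z + 6 := by
    have e2 : (mc z : ℝ) * ((k:ℝ) / mc z * mz μ z + 6) = k * mz μ z + 3 * ((2 * mc z : ℕ) : ℝ) := by
      push_cast
      field_simp
      ring
    refine le_of_mul_le_mul_left ?_ hN'
    rw [e2]
    exact h2
  linarith

lemma xy_near (h : Shape μ) {z : ℤ × ℤ} (hz : z ≠ 0) {u v : ℤ × ℤ} (hv : v - u = z) (k l j l' : ℕ) :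
    (1 + ((k:ℝ) + j) / mc z) * mz μ z ≤ mz μ (yp v z j l' - xp u z k l) + 12 + 3 * l + 3 * l' := by
  have hN := mc_pos hz
  have hN' : (0:ℝ) < mc z := by positivity
  have e1 : yp v z j l' - xp u z k l = (z + (pt z (mc z) j + pt z (mc z) k)) +
      ((l':ℤ) • ev z - (l:ℤ) • ev z) := by rw [← hv]; unfold xp yp; abel
  have h1 : dd (((mc z : ℕ):ℤ) • (z + (pt z (mc z) j + pt z (mc z) k))) (((mc z + j + k : ℕ):ℤ) • z) ≤
      4 * mc z := by
    have e2 : ((mc z : ℕ):ℤ) • (z + (pt z (mc z) j + pt z (mc z) k)) =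
        ((mc z : ℕ):ℤ) • z + (((mc z : ℕ):ℤ) • pt z (mc z) j + ((mc z : ℕ):ℤ) • pt z (mc z) k) := by
      rw [smul_add, smul_add]
    have e3 : ((mc z + j + k : ℕ):ℤ) • z = ((mc z : ℕ):ℤ) • z + ((j:ℤ) • z + (k:ℤ) • z) := by
      push_cast
      rw [add_smul, add_smul, add_assoc]
    rw [e2, e3]
    refine (dd_add_le _ _ _ _).trans ?_
    have f1 := dd_add_le (((mc z : ℕ):ℤ) • pt z (mc z) j) (((mc z : ℕ):ℤ) • pt z (mc z) k)
      ((j:ℤ) • z) ((k:ℤ) • z)
    have f2 := pt_near z hN j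
    have f3 := pt_near z hN k
    rw [dd_self]
    omega
  have h2 := (mz_near h h1).2
  have h3 := mz_lip h (yp v z j l' - xp u z k l) (z + (pt z (mc z) j + pt z (mc z) k))
  have h4 : dd (yp v z j l' - xp u z k l) (z + (pt z (mc z) j + pt z (mc z) k)) ≤ l' + l := by
    rw [e1]
    have f1 := dd_add_le (z + (pt z (mc z) j + pt z (mc z) k)) ((l':ℤ) • ev z - (l:ℤ) • ev z)
      (z + (pt z (mc z) j + pt z (mc z) k)) 0
    rw [add_zero, dd_self] at f1
    have f2 := dd_sub 0 0 ((l':ℤ) • ev z) ((l:ℤ) • ev z)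
    rw [sub_zero, dd_smul_ev, dd_smul_ev] at f2
    rw [dd_comm _ (0:ℤ×ℤ)] at f1
    simp only [Int.natAbs_natCast] at f2
    omega
  have h5 : (dd (yp v z j l' - xp u z k l) (z + (pt z (mc z) j + pt z (mc z) k)) : ℝ) ≤ l' + l := by
    exact_mod_cast h4
  have h6 : (1 + ((k:ℝ) + j) / mc z) * mz μ z ≤ mz μ (z + (pt z (mc z) j + pt z (mc z) k)) + 12 := by
    refine le_of_mul_le_mul_left ?_ hN'
    have e2 : (mc z : ℝ) * ((1 + ((k:ℝ) + j) / mc z) * mz μ z) = ((mc z + j + k : ℕ) : ℝ) * mz μ z := by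
      push_cast
      field_simp
      ring
    rw [e2]
    push_cast at h2 ⊢
    linarith
  linarith

/-- the extended pair is fast -/
lemma geo (h : Shape μ) {w : Ed → ℝ} (hw : ∀ e, 0 ≤ w e) {u v z : ℤ × ℤ} (hz : z ≠ 0)
    (hv : v - u = z) {k l j l' : ℕ} {E A : ℝ} (hT : TT w u v < mz μ z - A)
    (g1 : TT w (xp u z k l) u ≤ mz μ (u - xp u z k l) + E)
    (g2 : TT w v (yp v z j l') ≤ mz μ (yp v z j l' - v) + E) :
    TT w (xp u z k l) (yp v z j l') ≤
      mz μ (yp v z j l' - xp u z k l) + 24 + 6 * (l + l') + 2 * E - A := by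
  have h1 := TT_tri hw (xp u z k l) u (yp v z j l')
  have h2 := TT_tri hw u v (yp v z j l')
  have h3 := xp_near h hz u k l
  have h4 := yp_near h hz v j l'
  have h5 := xy_near h hz hv k l j l'
  have e1 : (1 + ((k:ℝ) + j) / mc z) * mz μ z =
      mz μ z + (k:ℝ) / mc z * mz μ z + (j:ℝ) / mc z * mz μ z := by ring
  linarith

/-- the main coordinate of the points on the segment -/
lemma mc_pt {z : ℤ × ℤ} (hz : z ≠ 0) (k : ℕ) :
    (z.2.natAbs ≤ z.1.natAbs → (pt z (mc z) k).1 = k * z.1.sign) ∧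
    (¬ z.2.natAbs ≤ z.1.natAbs → (pt z (mc z) k).2 = k * z.2.sign) := by
  have hN := mc_pos hz
  constructor
  · intro h1
    have e1 : mc z = z.1.natAbs := by unfold mc; omega
    rw [e1] at hN ⊢
    have e2 : (z.1.natAbs : ℤ) ≠ 0 := by omega
    have e3 : (k:ℤ) * z.1 = (z.1.natAbs : ℤ) * (k * z.1.sign) := by
      conv_lhs => rw [← Int.sign_mul_natAbs z.1]
      ring
    simp only [pt]
    rw [e3, Int.mul_ediv_cancel_left _ e2]
  · intro h1
    have e1 : mc z = z.2.natAbs := by unfold mc; omega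
    rw [e1] at hN ⊢
    have e2 : (z.2.natAbs : ℤ) ≠ 0 := by omega
    have e3 : (k:ℤ) * z.2 = (z.2.natAbs : ℤ) * (k * z.2.sign) := by
      conv_lhs => rw [← Int.sign_mul_natAbs z.2]
      ring
    simp only [pt]
    rw [e3, Int.mul_ediv_cancel_left _ e2]

lemma xp_inj {z : ℤ × ℤ} (hz : z ≠ 0) (u : ℤ × ℤ) {k l k' l' : ℕ}
    (h : xp u z k l = xp u z k' l') : k = k' ∧ l = l' := by
  have h1 := mc_pt hz k
  have h2 := mc_pt hz k'
  have h3 : (xp u z k l).1 = (xp u z k' l').1 := by rw [h]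
  have h4 : (xp u z k l).2 = (xp u z k' l').2 := by rw [h]
  simp only [xp, ev, Prod.fst_add, Prod.snd_add, Prod.fst_sub, Prod.snd_sub, Prod.smul_fst,
    Prod.smul_snd, smul_eq_mul] at h3 h4
  have hd := dd_pos hz
  have hd' : dd 0 z = z.1.natAbs + z.2.natAbs := by simp [dd]
  by_cases hc : z.2.natAbs ≤ z.1.natAbs
  · have g1 := h1.1 hc
    have g2 := h2.1 hc
    simp only [hc, if_true, mul_zero, add_zero, mul_one] at h3 h4
    have hs : z.1.sign = 1 ∨ z.1.sign = -1 := by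
      rcases lt_trichotomy z.1 0 with h0 | h0 | h0
      · right; exact Int.sign_eq_neg_one_of_neg h0
      · omega
      · left; exact Int.sign_eq_one_of_pos h0
    rw [g1, g2] at h3
    have hk : k = k' := by
      rcases hs with hs | hs <;> rw [hs] at h3 <;> omega
    subst hk
    refine ⟨rfl, ?_⟩
    omega
  · have g1 := h1.2 hc
    have g2 := h2.2 hc
    simp only [hc, if_false, mul_zero, add_zero, mul_one] at h3 h4
    have hs : z.2.sign = 1 ∨ z.2.sign = -1 := by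
      rcases lt_trichotomy z.2 0 with h0 | h0 | h0
      · right; exact Int.sign_eq_neg_one_of_neg h0
      · omega
      · left; exact Int.sign_eq_one_of_pos h0
    rw [g1, g2] at h4
    have hk : k = k' := by
      rcases hs with hs | hs <;> rw [hs] at h4 <;> omega
    subst hk
    refine ⟨rfl, ?_⟩
    omega

lemma yp_inj {z : ℤ × ℤ} (hz : z ≠ 0) (u : ℤ × ℤ) {k l k' l' : ℕ}
    (h : yp u z k l = yp u z k' l') : k = k' ∧ l = l' := by
  have h1 := mc_pt hz k
  have h2 := mc_pt hz k'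
  have h3 : (yp u z k l).1 = (yp u z k' l').1 := by rw [h]
  have h4 : (yp u z k l).2 = (yp u z k' l').2 := by rw [h]
  simp only [yp, ev, Prod.fst_add, Prod.snd_add, Prod.smul_fst,
    Prod.smul_snd, smul_eq_mul] at h3 h4
  have hd := dd_pos hz
  have hd' : dd 0 z = z.1.natAbs + z.2.natAbs := by simp [dd]
  by_cases hc : z.2.natAbs ≤ z.1.natAbs
  · have g1 := h1.1 hc
    have g2 := h2.1 hc
    simp only [hc, if_true, mul_zero, add_zero, mul_one] at h3 h4
    have hs : z.1.sign = 1 ∨ z.1.sign = -1 := by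
      rcases lt_trichotomy z.1 0 with h0 | h0 | h0
      · right; exact Int.sign_eq_neg_one_of_neg h0
      · omega
      · left; exact Int.sign_eq_one_of_pos h0
    rw [g1, g2] at h3
    have hk : k = k' := by
      rcases hs with hs | hs <;> rw [hs] at h3 <;> omega
    subst hk
    refine ⟨rfl, ?_⟩
    omega
  · have g1 := h1.2 hc
    have g2 := h2.2 hc
    simp only [hc, if_false, mul_zero, add_zero, mul_one] at h3 h4
    have hs : z.2.sign = 1 ∨ z.2.sign = -1 := by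
      rcases lt_trichotomy z.2 0 with h0 | h0 | h0
      · right; exact Int.sign_eq_neg_one_of_neg h0
      · omega
      · left; exact Int.sign_eq_one_of_pos h0
    rw [g1, g2] at h4
    have hk : k = k' := by
      rcases hs with hs | hs <;> rw [hs] at h4 <;> omega
    subst hk
    refine ⟨rfl, ?_⟩
    omega

/-- the distance of the extended points from the origin -/
lemma dd_xp {z : ℤ × ℤ} (hz : z ≠ 0) (u : ℤ × ℤ) (k l : ℕ) :
    dd 0 (xp u z k l) ≤ dd 0 u + (2 * k + 2) + l := by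
  have hN := mc_pos hz
  have h1 := (pt_dd z hN (Nat.zero_le k)).1
  rw [pt_zero, Nat.sub_zero] at h1
  have h2 : dd 0 (pt z (mc z) k) ≤ 2 * k + 2 := by
    have h3 := dd_le_mc z
    have h4 : k * dd 0 z ≤ k * (2 * mc z) := Nat.mul_le_mul_left _ h3
    refine le_of_mul_le_mul_left (a := mc z) ?_ hN
    calc mc z * dd 0 (pt z (mc z) k) ≤ k * (2 * mc z) + 2 * mc z := by omega
      _ = mc z * (2 * k + 2) := by ring
  have h3 : xp u z k l = (u - pt z (mc z) k) + (l:ℤ) • ev z := rfl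
  have h4 := dd_add_le 0 0 (u - pt z (mc z) k) ((l:ℤ) • ev z)
  have h5 := dd_sub 0 0 u (pt z (mc z) k)
  rw [dd_smul_ev, add_zero] at h4
  rw [sub_zero] at h5
  simp only [Int.natAbs_natCast] at h4
  rw [h3]
  omega

lemma dd_yp {z : ℤ × ℤ} (hz : z ≠ 0) (u : ℤ × ℤ) (k l : ℕ) :
    dd 0 (yp u z k l) ≤ dd 0 u + (2 * k + 2) + l := by
  have hN := mc_pos hz
  have h1 := (pt_dd z hN (Nat.zero_le k)).1
  rw [pt_zero, Nat.sub_zero] at h1
  have h2 : dd 0 (pt z (mc z) k) ≤ 2 * k + 2 := by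
    have h3 := dd_le_mc z
    have h4 : k * dd 0 z ≤ k * (2 * mc z) := Nat.mul_le_mul_left _ h3
    refine le_of_mul_le_mul_left (a := mc z) ?_ hN
    calc mc z * dd 0 (pt z (mc z) k) ≤ k * (2 * mc z) + 2 * mc z := by omega
      _ = mc z * (2 * k + 2) := by ring
  have h3 : yp u z k l = (u + pt z (mc z) k) + (l:ℤ) • ev z := rfl
  have h4 := dd_add_le 0 0 (u + pt z (mc z) k) ((l:ℤ) • ev z)
  have h5 := dd_add_le 0 0 u (pt z (mc z) k)
  rw [dd_smul_ev, add_zero] at h4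
  rw [add_zero] at h5
  simp only [Int.natAbs_natCast] at h4
  rw [h3]
  omega

/-- the extended points are far from each other -/
lemma far_xy {z : ℤ × ℤ} (hz : z ≠ 0) {u v : ℤ × ℤ} (hv : v - u = z) (k l j l' : ℕ) :
    k + j ≤ dd 0 (yp v z j l' - xp u z k l) := by
  have h1 := mc_pt hz k
  have h2 := mc_pt hz j
  have hd := dd_pos hz
  have hd' : dd 0 z = z.1.natAbs + z.2.natAbs := by simp [dd]
  have e0 : dd 0 (yp v z j l' - xp u z k l) = (yp v z j l' - xp u z k l).1.natAbs +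
      (yp v z j l' - xp u z k l).2.natAbs := by simp [dd]
  rw [e0]
  by_cases hc : z.2.natAbs ≤ z.1.natAbs
  · have g1 := h1.1 hc
    have g2 := h2.1 hc
    have e1 : (yp v z j l' - xp u z k l).1 = z.1 + j * z.1.sign + k * z.1.sign := by
      have e2 : z.1 = v.1 - u.1 := by rw [← hv]; rfl
      simp only [yp, xp, ev, hc, if_true, Prod.fst_add, Prod.fst_sub, Prod.smul_fst, smul_eq_mul,
        mul_zero, add_zero]
      rw [g1, g2]
      linarith
    have hs : (0 < z.1 ∧ z.1.sign = 1) ∨ (z.1 < 0 ∧ z.1.sign = -1) := by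
      rcases lt_trichotomy z.1 0 with h0 | h0 | h0
      · right; exact ⟨h0, Int.sign_eq_neg_one_of_neg h0⟩
      · omega
      · left; exact ⟨h0, Int.sign_eq_one_of_pos h0⟩
    rcases hs with ⟨h0, hs⟩ | ⟨h0, hs⟩ <;> rw [hs] at e1 <;> omega
  · have g1 := h1.2 hc
    have g2 := h2.2 hc
    have e1 : (yp v z j l' - xp u z k l).2 = z.2 + j * z.2.sign + k * z.2.sign := by
      have e2 : z.2 = v.2 - u.2 := by rw [← hv]; rfl
      simp only [yp, xp, ev, hc, if_false, Prod.snd_add, Prod.snd_sub, Prod.smul_snd, smul_eq_mul,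
        mul_zero, add_zero]
      rw [g1, g2]
      linarith
    have hs : (0 < z.2 ∧ z.2.sign = 1) ∨ (z.2 < 0 ∧ z.2.sign = -1) := by
      rcases lt_trichotomy z.2 0 with h0 | h0 | h0
      · right; exact ⟨h0, Int.sign_eq_neg_one_of_neg h0⟩
      · omega
      · left; exact ⟨h0, Int.sign_eq_one_of_pos h0⟩
    rcases hs with ⟨h0, hs⟩ | ⟨h0, hs⟩ <;> rw [hs] at e1 <;> omega

end Pool.Agent.H69.FP
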