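import Pool.Agent.H69.FP.A

/-!
# Counting extended pairs
-/

set_option autoImplicit false

open MeasureTheory ProbabilityTheory Finset Filter
open scoped Topology

namespace Pool.Agent.H69.FP

open Q70.Fp Q69.FL

variable {μ : ℝ × ℝ → ℝ}

open Classical in
/-- Markov's inequality for the number of events -/
lemma count_markov {ι : Type*} (Q : Finset ι) (S : ι → Set (Ed → ℝ))
    (hS : ∀ i, MeasurableSet (S i)) (K : ℝ) :
    K * nu.real {w | K ≤ ((Q.filter (fun i => w ∈ S i)).card : ℝ)} ≤ ∑ i ∈ Q, nu.real (S i) := by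
  have e1 : ∀ w, ((Q.filter (fun i => w ∈ S i)).card : ℝ) =
      ∑ i ∈ Q, (S i).indicator (fun _ => (1:ℝ)) w := by
    intro w
    rw [Finset.card_filter]
    push_cast
    refine Finset.sum_congr rfl fun i _ => ?_
    by_cases hw : w ∈ S i
    · simp [hw]
    · simp [hw]
  have hi : ∀ i, Integrable ((S i).indicator (fun _ => (1:ℝ))) nu := fun i =>
    (integrable_const _).indicator (hS i)
  have e2 := mul_meas_ge_le_integral_of_nonneg (μ := nu)
    (f := fun w => ∑ i ∈ Q, (S i).indicator (fun _ => (1:ℝ)) w)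
    (Eventually.of_forall fun w => Finset.sum_nonneg fun i _ =>
      Set.indicator_nonneg (fun _ _ => zero_le_one) w)
    (integrable_finsetSum _ fun i _ => hi i) K
  rw [integral_finsetSum _ fun i _ => hi i] at e2
  simp only [e1]
  refine e2.trans (le_of_eq ?_)
  refine Finset.sum_congr rfl fun i _ => ?_
  rw [integral_indicator (hS i)]
  simp

open Classical in
/-- a fast pair produces many fast pairs at a large distance -/
lemma pairs_many (h : Shape μ) {w : Ed → ℝ} (hw : ∀ e, 0 ≤ w e) {n L : ℕ}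
    (hL : L ≤ n) {E A : ℝ} (hA0 : 0 < A) (hA : 12 * (L:ℝ) + 24 + 2 * E ≤ A / 2)
    (G : ∀ x ∈ ball (8 * n) 0, ∀ y ∈ ball (8 * n) 0, TT w x y ≤ mz μ (y - x) + E)
    {u v : ℤ × ℤ} (hu : u ∈ ball n 0) (hv : v ∈ ball n 0)
    (hT : TT w u v < mz μ (v - u) - A) :
    (n * L) * (n * L) ≤ ((ball (8 * n) 0 ×ˢ ball (8 * n) 0).filter
      (fun p => TT w p.1 p.2 ≤ mz μ (p.2 - p.1) - A / 2 ∧ 2 * n ≤ dd 0 (p.2 - p.1))).card := by
  set z := v - u with hz
  have hz0 : z ≠ 0 := by
    intro h0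
    rw [h0, mz_zero h] at hT
    have := TT_nonneg hw u v
    linarith
  rw [mem_ball] at hu hv
  have e1 : (n * L) * (n * L) = ((Finset.range n ×ˢ Finset.range L) ×ˢ
      (Finset.range n ×ˢ Finset.range L)).card := by
    simp only [Finset.card_product, Finset.card_range]
  rw [e1]
  refine Finset.card_le_card_of_injOn
    (fun q => (xp u z (n + q.1.1) q.1.2, yp v z (n + q.2.1) q.2.2)) ?_ ?_
  · rintro ⟨⟨i, l⟩, ⟨j, l'⟩⟩ hq
    simp only [Finset.coe_product, Set.mem_prod, Finset.mem_coe, Finset.mem_range] at hq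
    obtain ⟨⟨hi, hl⟩, ⟨hj, hl'⟩⟩ := hq
    have hx : xp u z (n + i) l ∈ ball (8 * n) 0 := by
      rw [mem_ball]
      have := dd_xp hz0 u (n + i) l
      omega
    have hy : yp v z (n + j) l' ∈ ball (8 * n) 0 := by
      rw [mem_ball]
      have := dd_yp hz0 v (n + j) l'
      omega
    have hu' : u ∈ ball (8 * n) 0 := by rw [mem_ball]; omega
    have hv' : v ∈ ball (8 * n) 0 := by rw [mem_ball]; omega
    simp only [Finset.coe_filter, Set.mem_ofPred_eq, Finset.mem_product]
    refine ⟨⟨hx, hy⟩, ?_, ?_⟩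
    · have g := geo h hw hz0 hz.symm hT (G _ hx _ hu') (G _ hv' _ hy)
      have hl1 : (l:ℝ) ≤ L := by exact_mod_cast hl.le
      have hl2 : (l':ℝ) ≤ L := by exact_mod_cast hl'.le
      linarith
    · have := far_xy hz0 hz.symm (n + i) l (n + j) l'
      omega
  · rintro ⟨⟨i, l⟩, ⟨j, l'⟩⟩ _ ⟨⟨i2, l2⟩, ⟨j2, l2'⟩⟩ _ heq
    simp only [Prod.mk.injEq] at heq
    have h1 := xp_inj hz0 u heq.1
    have h2 := yp_inj hz0 v heq.2
    simp only [Prod.mk.injEq]
    omega

/-- the cluster of `x` at time `t` contains a point `y` with `μ (y - x) > s` -/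
def Dx (μ : ℝ × ℝ → ℝ) (w : Ed → ℝ) (x : ℤ × ℤ) (t s : ℝ) : Prop :=
  ∃ y : ℤ × ℤ, s < mz μ (y - x) ∧ TT w x y ≤ t

open Classical in
/-- a fast pair produces many fast clusters -/
lemma leaves_many (h : Shape μ) {w : Ed → ℝ} (hw : ∀ e, 0 ≤ w e) {n L : ℕ} (hn : 1 ≤ n)
    (hL : L ≤ n) {E A s : ℝ} (hA0 : 0 < A) (hA : 36 + 6 * (L:ℝ) + 2 * E + (s - 24 * n) ≤ A)
    (hs : 24 * (n:ℝ) ≤ s) (hs' : s ≤ 48 * n)
    (G : ∀ x ∈ ball (3100 * n) 0, ∀ y ∈ ball (3100 * n) 0, TT w x y ≤ mz μ (y - x) + E)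
    {u v : ℤ × ℤ} (hu : u ∈ ball n 0) (hv : v ∈ ball n 0)
    (hT : TT w u v < mz μ (v - u) - A) :
    n * L ≤ ((ball (8 * n) 0).filter (fun x => Dx μ w x (24 * n) s)).card := by
  set z := v - u with hz
  have hz0 : z ≠ 0 := by
    intro h0
    rw [h0, mz_zero h] at hT
    have := TT_nonneg hw u v
    linarith
  rw [mem_ball] at hu hv
  have e1 : n * L = (Finset.range n ×ˢ Finset.range L).card := by
    simp only [Finset.card_product, Finset.card_range]
  rw [e1]
  refine Finset.card_le_card_of_injOn (fun q => xp u z (n + q.1) q.2) ?_ ?_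
  · rintro ⟨i, l⟩ hq
    simp only [Finset.coe_product, Set.mem_prod, Finset.mem_coe, Finset.mem_range] at hq
    obtain ⟨hi, hl⟩ := hq
    have hdx := dd_xp hz0 u (n + i) l
    have hx : xp u z (n + i) l ∈ ball (8 * n) 0 := by
      rw [mem_ball]
      omega
    simp only [Finset.coe_filter, Set.mem_ofPred_eq]
    refine ⟨hx, ?_⟩
    have hl1 : (l:ℝ) ≤ L := by exact_mod_cast hl.le
    have hl2 : (l:ℝ) ≤ n := by exact_mod_cast (hl.le.trans hL)
    have hn1 : (1:ℝ) ≤ n := by exact_mod_cast hn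
    -- existence of a far point
    have hlow : ∀ j : ℕ, (j:ℝ) / 22 ≤ mz μ (yp v z j 0 - xp u z (n + i) l) + 12 + 3 * n := by
      intro j
      have g1 := xy_near h hz0 hz.symm (n + i) l j 0
      have g2 := mz_low h z
      have g3 : (mc z : ℝ) ≤ dd 0 z := by exact_mod_cast mc_le_dd z
      have hN := mc_pos hz0
      have hN' : (0:ℝ) < mc z := by positivity
      have g4 : (mc z : ℝ) / 22 ≤ mz μ z := by linarith
      have g5 : (j:ℝ) / 22 ≤ (1 + (((n + i : ℕ):ℝ) + j) / mc z) * mz μ z := by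
        calc (j:ℝ) / 22 = ((j:ℝ) / mc z) * ((mc z : ℝ) / 22) := by field_simp
          _ ≤ (1 + (((n + i : ℕ):ℝ) + j) / mc z) * mz μ z := by
            refine mul_le_mul ?_ g4 (by positivity) (by positivity)
            rw [add_div]
            have : (0:ℝ) ≤ ((n + i : ℕ):ℝ) / mc z := by positivity
            linarith
      have g6 : ((0:ℕ):ℝ) = 0 := by norm_num
      rw [g6] at g1
      linarith
    set j0 : ℕ := 1500 * n with hj0
    have hex : ∃ j : ℕ, s < mz μ (yp v z j 0 - xp u z (n + i) l) := by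
      refine ⟨j0, ?_⟩
      have g1 := hlow j0
      have g2 : (j0:ℝ) = 1500 * n := by rw [hj0]; push_cast; ring
      rw [g2] at g1
      linarith
    set j := Nat.find hex with hj
    have hj1 : s < mz μ (yp v z j 0 - xp u z (n + i) l) := Nat.find_spec hex
    have hj2 : j ≤ j0 := by
      refine Nat.find_min' hex ?_
      have g1 := hlow j0
      have g2 : (j0:ℝ) = 1500 * n := by rw [hj0]; push_cast; ring
      rw [g2] at g1
      linarith
    have hy0 : yp v z 0 0 = v := by simp [yp, pt_zero]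
    have hjpos : j ≠ 0 := by
      intro h0
      rw [h0, hy0] at hj1
      have g1 := mz_up h (v - xp u z (n + i) l)
      have g2 : dd 0 (v - xp u z (n + i) l) ≤ 7 * n := by
        have := dd_sub 0 0 v (xp u z (n + i) l)
        rw [sub_zero] at this
        omega
      have g3 : (dd 0 (v - xp u z (n + i) l) : ℝ) ≤ 7 * n := by exact_mod_cast g2
      linarith
    obtain ⟨j', hj'⟩ : ∃ j', j = j' + 1 := ⟨j - 1, by omega⟩
    have hj3 : mz μ (yp v z j' 0 - xp u z (n + i) l) ≤ s := by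
      by_contra hc
      have := Nat.find_min' hex (not_le.1 hc)
      omega
    have hj4 : mz μ (yp v z j 0 - xp u z (n + i) l) ≤ s + 12 := by
      have g1 := mz_lip h (yp v z j' 0 - xp u z (n + i) l) (yp v z j 0 - xp u z (n + i) l)
      have g2 : dd (yp v z j' 0 - xp u z (n + i) l) (yp v z j 0 - xp u z (n + i) l) ≤ 4 := by
        have f1 := dd_sub (yp v z j' 0) (xp u z (n + i) l) (yp v z j 0) (xp u z (n + i) l)
        rw [dd_self] at f1
        have f2 : dd (yp v z j' 0) (yp v z j 0) ≤ dd (pt z (mc z) j') (pt z (mc z) j) := by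
          simp only [dd, yp, Prod.fst_add, Prod.snd_add]
          omega
        have f3 := (pt_dd z (mc_pos hz0) (show j' ≤ j by omega)).1
        have f4 : j - j' = 1 := by omega
        rw [f4, one_mul] at f3
        have f5 := dd_le_mc z
        have f6 : dd (pt z (mc z) j') (pt z (mc z) j) ≤ 4 := by
          refine le_of_mul_le_mul_left (a := mc z) ?_ (mc_pos hz0)
          omega
        omega
      have g3 : (dd (yp v z j' 0 - xp u z (n + i) l) (yp v z j 0 - xp u z (n + i) l) : ℝ) ≤ 4 := by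
        exact_mod_cast g2
      linarith
    refine ⟨yp v z j 0, hj1, ?_⟩
    have hy : yp v z j 0 ∈ ball (3100 * n) 0 := by
      rw [mem_ball]
      have := dd_yp hz0 v j 0
      omega
    have hx' : xp u z (n + i) l ∈ ball (3100 * n) 0 := by rw [mem_ball]; omega
    have hu' : u ∈ ball (3100 * n) 0 := by rw [mem_ball]; omega
    have hv' : v ∈ ball (3100 * n) 0 := by rw [mem_ball]; omega
    have g := geo h hw hz0 hz.symm hT (G _ hx' _ hu') (G _ hv' _ hy)
    have g6 : ((0:ℕ):ℝ) = 0 := by norm_num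
    rw [g6] at g
    linarith
  · rintro ⟨i, l⟩ _ ⟨i2, l2⟩ _ heq
    have h1 := xp_inj hz0 u heq
    simp only [Prod.mk.injEq]
    omega

lemma Dx_set (x : ℤ × ℤ) (t s : ℝ) : {w : Ed → ℝ | Dx μ (pw w) x t s} =
    ⋃ y : ℤ × ℤ, {w | s < mz μ (y - x) ∧ TT (pw w) x y ≤ t} := by
  ext w
  simp only [Dx, Set.mem_ofPred_eq, Set.mem_iUnion]

lemma measurable_Dx (x : ℤ × ℤ) (t s : ℝ) : MeasurableSet {w : Ed → ℝ | Dx μ (pw w) x t s} := by
  rw [Dx_set]
  refine MeasurableSet.iUnion fun y => ?_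
  by_cases hy : s < mz μ (y - x)
  · simp only [hy, true_and]
    exact measurableSet_le (measurable_TT _ _) measurable_const
  · simp only [hy, false_and]
    exact MeasurableSet.empty

/-- translation invariance -/
lemma Dx_sh (x : ℤ × ℤ) (t s : ℝ) :
    nu.real {w | Dx μ (pw w) x t s} = nu.real {w | Dx μ (pw w) 0 t s} := by
  have hm : Measurable (sh x) := measurable_pi_lambda _ fun e => measurable_pi_apply _
  have e1 := map_measureReal_apply (μ := nu) hm (measurable_Dx (μ := μ) 0 t s)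
  rw [map_sh] at e1
  rw [e1]
  congr 1
  ext w
  simp only [Set.mem_ofPred_eq, Set.mem_preimage, Dx, TT_sh, zero_add, sub_zero]
  constructor
  · rintro ⟨y, h1, h2⟩
    exact ⟨y - x, h1, by rwa [sub_add_cancel]⟩
  · rintro ⟨y, h1, h2⟩
    exact ⟨y + x, by rwa [add_sub_cancel_right], h2⟩

end Pool.Agent.H69.FP
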