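import Pool.Agent.H69.FP.B

/-!
# Union bounds over boxes and the two counting arguments
-/

set_option autoImplicit false

open MeasureTheory ProbabilityTheory Finset Filter
open scoped Topology

namespace Pool.Agent.H69.FP

open Q70.Fp Q69.FL

variable {μ : ℝ × ℝ → ℝ}

lemma nat_ev {p : ℝ → Prop} (h : ∀ᶠ t : ℝ in atTop, p t) : ∀ᶠ n : ℕ in atTop, p (n:ℝ) :=
  tendsto_natCast_atTop_atTop.eventually h

/-- a stretched exponential beats the number of pairs -/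
lemma tail_union {κ c C : ℝ} (hκ : 0 < κ) (hc : 0 < c) (hC : 0 < C) {M : ℕ} (hM : 1 ≤ M) :
    ∀ᶠ n : ℕ in atTop, (((2 * (M * n) + 1) ^ 2 : ℕ) : ℝ) * ((((2 * (M * n) + 1) ^ 2 : ℕ) : ℝ) *
      (C * Real.exp (-(c * ((2 * (M * n) : ℕ) : ℝ) ^ κ)))) ≤ (n:ℝ) ^ (-2:ℝ) := by
  obtain ⟨C1, hC1, hE⟩ := exp_poly (7 / κ) (by positivity) hc
  have h1 := nat_ev (rpow_small (K := 16 * C * C1) (show (-3:ℝ) < -2 by norm_num))
  filter_upwards [h1, eventually_ge_atTop 1] with n hn hn1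
  refine le_trans ?_ hn
  have hn' : (1:ℝ) ≤ n := by exact_mod_cast hn1
  have hR : n ≤ 2 * (M * n) := by nlinarith
  have hR1 : (n:ℝ) ≤ ((2 * (M * n) : ℕ) : ℝ) := by exact_mod_cast hR
  set R : ℝ := ((2 * (M * n) : ℕ) : ℝ) with hRd
  have hR0 : (0:ℝ) < R := by linarith
  have e1 : (((2 * (M * n) + 1) ^ 2 : ℕ) : ℝ) = (R + 1) ^ 2 := by rw [hRd]; push_cast; ring
  rw [e1]
  have e2 := hE (R ^ κ) (Real.one_le_rpow (by linarith) hκ.le)
  rw [← Real.rpow_mul hR0.le, show κ * -(7 / κ) = -7 by field_simp] at e2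
  have e3 : (R + 1) ^ 2 ≤ 4 * R ^ 2 := by nlinarith
  have e4 : R ^ (4:ℕ) * R ^ (-7:ℝ) = R ^ (-3:ℝ) := by
    rw [← Real.rpow_natCast, ← Real.rpow_add hR0]
    norm_num
  have e5 : R ^ (-3:ℝ) ≤ (n:ℝ) ^ (-3:ℝ) :=
    Real.rpow_le_rpow_of_nonpos (by linarith) hR1 (by norm_num)
  calc (R + 1) ^ 2 * ((R + 1) ^ 2 * (C * Real.exp (-(c * R ^ κ))))
      ≤ (4 * R ^ 2) * ((4 * R ^ 2) * (C * (C1 * R ^ (-7:ℝ)))) := by gcongr
    _ = 16 * C * C1 * (R ^ (4:ℕ) * R ^ (-7:ℝ)) := by ring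
    _ = 16 * C * C1 * R ^ (-3:ℝ) := by rw [e4]
    _ ≤ _ := by gcongr

/-- union over the pairs of a ball -/
lemma union_ball (R : ℕ) (T : (ℤ × ℤ) → (ℤ × ℤ) → Set (Ed → ℝ)) {p : ℝ} (hp0 : 0 ≤ p)
    (hp : ∀ x ∈ ball R 0, ∀ y ∈ ball R 0, nu.real (T x y) ≤ p) :
    nu.real {w | ∃ x ∈ ball R 0, ∃ y ∈ ball R 0, w ∈ T x y} ≤
      (((2 * R + 1) ^ 2 : ℕ) : ℝ) * ((((2 * R + 1) ^ 2 : ℕ) : ℝ) * p) := by
  have e1 : {w | ∃ x ∈ ball R 0, ∃ y ∈ ball R 0, w ∈ T x y} =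
      ⋃ x ∈ ball R 0, ⋃ y ∈ ball R 0, T x y := by
    ext w
    simp only [Set.mem_ofPred_eq, Set.mem_iUnion, exists_prop]
  rw [e1]
  refine (union_pairs (ball R 0) (fun _ => ball R 0) T hp0 (fun x _ => card_ball R) hp).trans ?_
  refine mul_le_mul_of_nonneg_right ?_ (by positivity)
  exact_mod_cast card_ball R

lemma dd_diff {R : ℕ} {x y : ℤ × ℤ} (hx : x ∈ ball R 0) (hy : y ∈ ball R 0) :
    dd 0 (y - x) ≤ 2 * R := by
  rw [mem_ball] at hx hy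
  have := dd_sub 0 0 y x
  rw [sub_zero] at this
  omega

/-- all pairs of a ball, upper tail -/
lemma up_union (h : Shape μ) {a : ℝ} (ha : 0 < a) (hS : SeU μ a) {M : ℕ} (hM : 1 ≤ M) :
    ∀ᶠ n : ℕ in atTop, nu.real {w | ∃ x ∈ ball (M * n) 0, ∃ y ∈ ball (M * n) 0,
      mz μ (y - x) + ((2 * (M * n) : ℕ) : ℝ) ^ a < TT (pw w) x y} ≤ (n:ℝ) ^ (-2:ℝ) := by
  obtain ⟨κ, c, C, hκ, hc, hC, hU⟩ := unifU h ha hS
  filter_upwards [tail_union hκ hc hC hM, eventually_ge_atTop 1] with n hn hn1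
  refine le_trans (union_ball (M * n) (fun x y => {w | mz μ (y - x) +
    ((2 * (M * n) : ℕ) : ℝ) ^ a < TT (pw w) x y}) (by positivity) ?_) hn
  intro x hx y hy
  have e1 := nu_TT_sh x y (measurableSet_Ioi (a := mz μ (y - x) + ((2 * (M * n) : ℕ) : ℝ) ^ a))
  have e2 := hU (2 * (M * n)) (by nlinarith) (y - x) (dd_diff hx hy)
  exact (le_of_eq e1).trans e2

/-- all pairs of a ball, lower tail -/
lemma low_union (h : Shape μ) {a : ℝ} (ha : 0 < a) (hS : Se μ a) {M : ℕ} (hM : 1 ≤ M) :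
    ∀ᶠ n : ℕ in atTop, nu.real {w | ∃ x ∈ ball (M * n) 0, ∃ y ∈ ball (M * n) 0,
      TT (pw w) x y < mz μ (y - x) - ((2 * (M * n) : ℕ) : ℝ) ^ a} ≤ (n:ℝ) ^ (-2:ℝ) := by
  obtain ⟨κ, c, C, hκ, hc, hC, hU⟩ := unifL h ha hS
  filter_upwards [tail_union hκ hc hC hM, eventually_ge_atTop 1] with n hn hn1
  refine le_trans (union_ball (M * n) (fun x y => {w | TT (pw w) x y < mz μ (y - x) -
    ((2 * (M * n) : ℕ) : ℝ) ^ a}) (by positivity) ?_) hn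
  intro x hx y hy
  have e1 := nu_TT_sh x y (measurableSet_Iio (a := mz μ (y - x) - ((2 * (M * n) : ℕ) : ℝ) ^ a))
  have e2 := hU (2 * (M * n)) (by nlinarith) (y - x) (dd_diff hx hy)
  exact (le_of_eq e1).trans e2

/-- the event that the box contains a fast pair -/
def BadBox (μ : ℝ × ℝ → ℝ) (n : ℕ) (A : ℝ) : Set (Ed → ℝ) :=
  {w | ∃ u ∈ ball n 0, ∃ v ∈ ball n 0, TT (pw w) u v < mz μ (v - u) - A}

lemma measurable_BadBox (n : ℕ) (A : ℝ) : MeasurableSet (BadBox μ n A) := by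
  have e1 : BadBox μ n A = ⋃ u ∈ ball n 0, ⋃ v ∈ ball n 0,
      {w | TT (pw w) u v < mz μ (v - u) - A} := by
    ext w
    simp only [BadBox, Set.mem_ofPred_eq, Set.mem_iUnion, exists_prop]
  rw [e1]
  exact Finset.measurableSet_biUnion _ fun _ _ => Finset.measurableSet_biUnion _ fun _ _ =>
    measurableSet_lt (measurable_TT _ _) measurable_const

/-- if fast pairs are not likely then the hypothesis of the library on boxes holds -/
lemma Bx_of_half {b ζ : ℝ} (hζ : 0 < ζ)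
    (H : ∀ᶠ n : ℕ in atTop, nu.real (BadBox μ n ((n:ℝ) ^ (b + ζ))) ≤ 1 / 2) :
    Q69.FM.Bx (mz μ) b ζ := by
  have tζ : Tendsto (fun s : ℕ => (s:ℝ) ^ ζ) atTop atTop :=
    (tendsto_rpow_atTop hζ).comp tendsto_natCast_atTop_atTop
  filter_upwards [H, tζ.eventually_ge_atTop (Real.log 2)] with n h1 h2
  have e1 : Real.exp (-((n:ℝ) ^ ζ)) ≤ 1 / 2 := by
    calc Real.exp (-((n:ℝ) ^ ζ)) ≤ Real.exp (-Real.log 2) := Real.exp_le_exp.2 (by linarith)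
      _ = 1 / 2 := by rw [Real.exp_neg, Real.exp_log two_pos]; norm_num
  have e2 := measureReal_compl (μ := nu) (measurable_BadBox (μ := μ) n ((n:ℝ) ^ (b + ζ)))
  rw [probReal_univ] at e2
  have e3 : (BadBox μ n ((n:ℝ) ^ (b + ζ)))ᶜ = {w | ∀ u ∈ ball n 0, ∀ v ∈ ball n 0,
      mz μ (v - u) - (n:ℝ) ^ (b + ζ) ≤ TT (pw w) u v} := by
    ext w
    simp only [BadBox, Set.mem_compl_iff, Set.mem_ofPred_eq, not_exists, not_and, not_lt]
  rw [e3] at e2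
  linarith

lemma Bx_mono {b ζ ζ' : ℝ} (hζζ : ζ ≤ ζ') (hB : Q69.FM.Bx (mz μ) b ζ) :
    Q69.FM.Bx (mz μ) b ζ' := by
  filter_upwards [hB, eventually_ge_atTop 1] with n h1 h2
  have hn : (1:ℝ) ≤ n := by exact_mod_cast h2
  have e1 : (n:ℝ) ^ ζ ≤ (n:ℝ) ^ ζ' := Real.rpow_le_rpow_of_exponent_le hn hζζ
  have e2 : (n:ℝ) ^ (b + ζ) ≤ (n:ℝ) ^ (b + ζ') :=
    Real.rpow_le_rpow_of_exponent_le hn (by linarith)
  refine (Real.exp_le_exp.2 (by linarith)).trans (h1.trans (measureReal_mono ?_ (measure_ne_top _ _)))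
  intro w hw u hu v hv
  have := hw u hu v hv
  linarith

/-- numerical facts for the counting arguments -/
lemma numerics {a a' : ℝ} (ha1 : a ≤ 1) (ha' : a' < a) (ha0 : 0 < a) :
    ∀ᶠ n : ℕ in atTop, 1 ≤ n ∧ ⌊(n:ℝ) ^ a / 96⌋₊ ≤ n ∧ (n:ℝ) ^ a / 192 ≤ (⌊(n:ℝ) ^ a / 96⌋₊ : ℝ) ∧
      (⌊(n:ℝ) ^ a / 96⌋₊ : ℝ) ≤ (n:ℝ) ^ a / 96 ∧ 192 ≤ (n:ℝ) ^ a ∧
      (6200 * (n:ℝ)) ^ a' ≤ (n:ℝ) ^ a / 32 := by
  have t1 : Tendsto (fun s : ℕ => (s:ℝ) ^ a) atTop atTop :=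
    (tendsto_rpow_atTop ha0).comp tendsto_natCast_atTop_atTop
  filter_upwards [eventually_ge_atTop 1, t1.eventually_ge_atTop 192,
    nat_ev (rpow_small (K := 32 * 6200 ^ a') ha')] with n h1 h2 h3
  have hn : (1:ℝ) ≤ n := by exact_mod_cast h1
  have e1 : (⌊(n:ℝ) ^ a / 96⌋₊ : ℝ) ≤ (n:ℝ) ^ a / 96 := Nat.floor_le (by positivity)
  have e2 : (n:ℝ) ^ a ≤ n := by
    calc (n:ℝ) ^ a ≤ (n:ℝ) ^ (1:ℝ) := Real.rpow_le_rpow_of_exponent_le hn ha1
      _ = n := Real.rpow_one _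
  refine ⟨h1, ?_, ?_, e1, h2, ?_⟩
  · have : (⌊(n:ℝ) ^ a / 96⌋₊ : ℝ) ≤ n := by linarith
    exact_mod_cast this
  · have := Nat.lt_floor_add_one ((n:ℝ) ^ a / 96)
    linarith
  · rw [Real.mul_rpow (by norm_num) (by linarith)]
    linarith

open Classical in
/-- the pair version -/
lemma half_of_pairs (h : Shape μ) {b ζ : ℝ} (hb : 0 < b) (hζ : 0 < ζ) (hζb : ζ ≤ (1 - b) / 2)
    (hL : Ll μ (b + ζ / 2) (2 * (1 - b) - ζ / 2)) (hU : SeU μ (b + ζ / 2)) :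
    ∀ᶠ n : ℕ in atTop, nu.real (BadBox μ n ((n:ℝ) ^ (b + ζ))) ≤ 1 / 2 := by
  obtain ⟨C, hC, hL⟩ := hL
  set q : ℝ := 2 * (1 - b) - ζ / 2 with hq
  have hq0 : 0 < q := by rw [hq]; linarith
  set a : ℝ := b + ζ with ha
  set K1 : ℝ := 192 ^ 2 * 17 ^ 4 * C with hK1
  filter_upwards [numerics (a := a) (a' := b + ζ / 2) (by linarith) (by linarith) (by linarith), up_union h (show 0 < b + ζ / 2 by positivity) hU (M := 8) (by norm_num),
    nat_ev (rpow_small (K := 4 * K1) (show -(3 * ζ / 2) < 0 by linarith)),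
    nat_ev (rpow_small (K := 4) (show (-2:ℝ) < 0 by norm_num))] with n hn hG h3 h4
  obtain ⟨hn1, hLn, hL1, hL2, hA, hE⟩ := hn
  rw [Real.rpow_zero] at h3 h4
  have hn' : (1:ℝ) ≤ n := by exact_mod_cast hn1
  have hn0 : (0:ℝ) < n := by linarith
  set L := ⌊(n:ℝ) ^ a / 96⌋₊ with hLd
  set A := (n:ℝ) ^ a with hAd
  set E := ((2 * (8 * n) : ℕ) : ℝ) ^ (b + ζ / 2) with hEd
  have hE1 : E ≤ A / 32 := by
    refine le_trans ?_ hE
    refine Real.rpow_le_rpow (by positivity) ?_ (by linarith)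
    push_cast
    linarith
  have hE0 : 0 ≤ E := by positivity
  set Gc : Set (Ed → ℝ) := {w | ∃ x ∈ ball (8 * n) 0, ∃ y ∈ ball (8 * n) 0,
      mz μ (y - x) + E < TT (pw w) x y} with hGc
  let S : (ℤ × ℤ) × (ℤ × ℤ) → Set (Ed → ℝ) := fun p =>
    {w | TT (pw w) p.1 p.2 ≤ mz μ (p.2 - p.1) - A / 2 ∧ 2 * n ≤ dd 0 (p.2 - p.1)}
  set Q := ball (8 * n) 0 ×ˢ ball (8 * n) 0 with hQ
  set K : ℝ := (((n * L) * (n * L) : ℕ) : ℝ) with hK
  set F : Set (Ed → ℝ) := {w | K ≤ ((Q.filter (fun i => w ∈ S i)).card : ℝ)} with hF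
  have hsub : BadBox μ n A ⊆ Gc ∪ F := by
    intro w hw
    obtain ⟨u, hu, v, hv, hT⟩ := hw
    by_cases hg : w ∈ Gc
    · exact Or.inl hg
    · right
      simp only [hGc, Set.mem_ofPred_eq, not_exists, not_and, not_lt] at hg
      have := pairs_many h (pw_nonneg w) hLn (by linarith) (by linarith) hg hu hv hT
      show K ≤ _
      rw [hK]
      refine Nat.cast_le.2 ?_
      convert this
      exact Iff.rfl
  have hSm : ∀ p, MeasurableSet (S p) := by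
    intro p
    by_cases hd : 2 * n ≤ dd 0 (p.2 - p.1)
    · simp only [S, hd, and_true]
      exact measurableSet_le (measurable_TT _ _) measurable_const
    · simp only [S, hd, and_false]
      exact MeasurableSet.empty
  have hSp : ∀ p ∈ Q, nu.real (S p) ≤ C * (n:ℝ) ^ (-q) := by
    intro p hp
    rw [hQ, Finset.mem_product] at hp
    by_cases hd : 2 * n ≤ dd 0 (p.2 - p.1)
    · have e0 : S p = {w | TT (pw w) p.1 p.2 ∈ Set.Iic (mz μ (p.2 - p.1) - A / 2)} := by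
        simp only [S, hd, and_true]
        rfl
      rw [e0, nu_TT_sh _ _ measurableSet_Iic]
      have hne : p.2 - p.1 ≠ 0 := by
        intro h0
        rw [h0, dd_self] at hd
        omega
      have hd2 := dd_diff hp.1 hp.2
      have hd3 : (dd 0 (p.2 - p.1) : ℝ) ≤ 6200 * n := by
        have : dd 0 (p.2 - p.1) ≤ 6200 * n := by omega
        exact_mod_cast this
      have hd4 : (dd 0 (p.2 - p.1) : ℝ) ^ (b + ζ / 2) ≤ A / 32 :=
        (Real.rpow_le_rpow (by positivity) hd3 (by linarith)).trans hE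
      have hd5 : (n:ℝ) ≤ dd 0 (p.2 - p.1) := by
        have : n ≤ dd 0 (p.2 - p.1) := by omega
        exact_mod_cast this
      refine le_trans (measureReal_mono ?_ (measure_ne_top _ _)) ((hL _ hne).trans ?_)
      · intro w hw
        have hw' : TT (pw w) 0 (p.2 - p.1) ≤ mz μ (p.2 - p.1) - A / 2 := hw
        show TT (pw w) 0 (p.2 - p.1) < mz μ (p.2 - p.1) - (dd 0 (p.2 - p.1) : ℝ) ^ (b + ζ / 2)
        linarith
      · refine mul_le_mul_of_nonneg_left ?_ hC.le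
        exact Real.rpow_le_rpow_of_nonpos hn0 hd5 (by linarith)
    · have e0 : S p = ∅ := by
        ext w
        simp only [S, hd, and_false, Set.mem_ofPred_eq, Set.mem_empty_iff_false]
      rw [e0, measureReal_empty]
      positivity
  have hcard : ((Q.card : ℕ) : ℝ) ≤ (17 * n) ^ 4 := by
    have e1 : Q.card ≤ (17 * n) ^ 4 := by
      rw [hQ, Finset.card_product]
      have e2 : (ball (8 * n) 0).card ≤ (17 * n) ^ 2 :=
        (card_ball (8 * n)).trans (Nat.pow_le_pow_left (by omega) 2)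
      calc (ball (8 * n) 0).card * (ball (8 * n) 0).card ≤ (17 * n) ^ 2 * (17 * n) ^ 2 :=
            Nat.mul_le_mul e2 e2
        _ = (17 * n) ^ 4 := by ring
    exact_mod_cast e1
  have hmark : K * nu.real F ≤ ∑ p ∈ Q, nu.real (S p) := by convert count_markov Q S hSm K
  have hsum : ∑ p ∈ Q, nu.real (S p) ≤ (17 * n) ^ 4 * (C * (n:ℝ) ^ (-q)) := by
    calc ∑ p ∈ Q, nu.real (S p) ≤ ∑ _p ∈ Q, C * (n:ℝ) ^ (-q) := Finset.sum_le_sum hSp
      _ = Q.card * (C * (n:ℝ) ^ (-q)) := by rw [Finset.sum_const, nsmul_eq_mul]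
      _ ≤ _ := by gcongr
  have hKlow : (n * (A / 192)) ^ 2 ≤ K := by
    rw [hK]
    push_cast
    have e1 : (n:ℝ) * (A / 192) ≤ n * L := by gcongr
    have e2 : (0:ℝ) ≤ n * (A / 192) := by positivity
    nlinarith
  have hF0 : 0 ≤ nu.real F := measureReal_nonneg
  have hFle : nu.real F ≤ K1 * (n:ℝ) ^ (-(3 * ζ / 2)) := by
    have hX : 0 < (n:ℝ) ^ 2 * A ^ 2 := by positivity
    refine le_of_mul_le_mul_right ?_ hX
    have e1 : (n:ℝ) ^ (4:ℕ) * (n:ℝ) ^ (-q) = (n:ℝ) ^ (-(3 * ζ / 2)) * ((n:ℝ) ^ 2 * A ^ 2) := by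
      rw [hAd, ← Real.rpow_natCast (n:ℝ) 4, ← Real.rpow_natCast (n:ℝ) 2,
        ← Real.rpow_natCast ((n:ℝ) ^ a) 2, ← Real.rpow_mul hn0.le, ← Real.rpow_add hn0,
        ← Real.rpow_add hn0, ← Real.rpow_add hn0]
      congr 1
      push_cast
      rw [hq, ha]
      ring
    have e2 : (n * (A / 192)) ^ 2 * nu.real F ≤ (17 * n) ^ 4 * (C * (n:ℝ) ^ (-q)) := by
      calc (n * (A / 192)) ^ 2 * nu.real F ≤ K * nu.real F := by gcongr
        _ ≤ _ := hmark.trans hsum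
    calc nu.real F * ((n:ℝ) ^ 2 * A ^ 2) = 192 ^ 2 * ((n * (A / 192)) ^ 2 * nu.real F) := by ring
      _ ≤ 192 ^ 2 * ((17 * n) ^ 4 * (C * (n:ℝ) ^ (-q))) := by gcongr
      _ = K1 * ((n:ℝ) ^ (4:ℕ) * (n:ℝ) ^ (-q)) := by rw [hK1]; ring
      _ = K1 * (n:ℝ) ^ (-(3 * ζ / 2)) * ((n:ℝ) ^ 2 * A ^ 2) := by rw [e1]; ring
  have hfin := (measureReal_mono (μ := nu) hsub (measure_ne_top _ _)).trans (measureReal_union_le _ _)
  linarith

open Classical in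
/-- the cluster version -/
lemma half_of_leave (h : Shape μ) {b ζ C : ℝ} (hb : 0 < b) (hζ : 0 < ζ) (hζb : ζ ≤ (1 - b) / 2)
    (hC : 0 < C) (hL : ∀ᶠ t : ℝ in atTop, nu.real {w | Dx μ (pw w) 0 t (t + t ^ (b + ζ / 2))} ≤
      C * t ^ (b - 1 + ζ / 2)) (hU : SeU μ (b + ζ / 2)) :
    ∀ᶠ n : ℕ in atTop, nu.real (BadBox μ n ((n:ℝ) ^ (b + ζ))) ≤ 1 / 2 := by
  set a : ℝ := b + ζ with ha
  set K1 : ℝ := 192 * 17 ^ 2 * C with hK1
  have t24 : Tendsto (fun n : ℕ => 24 * (n:ℝ)) atTop atTop :=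
    tendsto_natCast_atTop_atTop.const_mul_atTop (by norm_num)
  filter_upwards [numerics (a := a) (a' := b + ζ / 2) (by linarith) (by linarith) (by linarith), up_union h (show 0 < b + ζ / 2 by positivity) hU (M := 3100) (by norm_num),
    nat_ev (rpow_small (K := 4 * K1) (show -(ζ / 2) < 0 by linarith)),
    nat_ev (rpow_small (K := 4) (show (-2:ℝ) < 0 by norm_num)), t24.eventually hL]
    with n hn hG h3 h4 hD
  obtain ⟨hn1, hLn, hL1, hL2, hA, hE⟩ := hn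
  rw [Real.rpow_zero] at h3 h4
  have hn' : (1:ℝ) ≤ n := by exact_mod_cast hn1
  have hn0 : (0:ℝ) < n := by linarith
  set L := ⌊(n:ℝ) ^ a / 96⌋₊ with hLd
  set A := (n:ℝ) ^ a with hAd
  set E := ((2 * (3100 * n) : ℕ) : ℝ) ^ (b + ζ / 2) with hEd
  have hE1 : E ≤ A / 32 := by
    refine le_trans (le_of_eq ?_) hE
    rw [hEd]
    congr 1
    push_cast
    ring
  have hE0 : 0 ≤ E := by positivity
  set s : ℝ := 24 * (n:ℝ) + (24 * (n:ℝ)) ^ (b + ζ / 2) with hs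
  have hs1 : (24 * (n:ℝ)) ^ (b + ζ / 2) ≤ A / 32 :=
    (Real.rpow_le_rpow (by positivity) (by linarith) (by linarith)).trans hE
  have hs2 : (24 * (n:ℝ)) ^ (b + ζ / 2) ≤ 24 * n := by
    calc (24 * (n:ℝ)) ^ (b + ζ / 2) ≤ (24 * (n:ℝ)) ^ (1:ℝ) :=
          Real.rpow_le_rpow_of_exponent_le (by linarith) (by linarith)
      _ = 24 * n := Real.rpow_one _
  have hs3 : (0:ℝ) ≤ (24 * (n:ℝ)) ^ (b + ζ / 2) := by positivity
  set Gc : Set (Ed → ℝ) := {w | ∃ x ∈ ball (3100 * n) 0, ∃ y ∈ ball (3100 * n) 0,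
      mz μ (y - x) + E < TT (pw w) x y} with hGc
  let S : (ℤ × ℤ) → Set (Ed → ℝ) := fun x => {w | Dx μ (pw w) x (24 * n) s}
  set Q := ball (8 * n) 0 with hQ
  set K : ℝ := ((n * L : ℕ) : ℝ) with hK
  set F : Set (Ed → ℝ) := {w | K ≤ ((Q.filter (fun i => w ∈ S i)).card : ℝ)} with hF
  have hsub : BadBox μ n A ⊆ Gc ∪ F := by
    intro w hw
    obtain ⟨u, hu, v, hv, hT⟩ := hw
    by_cases hg : w ∈ Gc
    · exact Or.inl hg
    · right
      simp only [hGc, Set.mem_ofPred_eq, not_exists, not_and, not_lt] at hg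
      have := leaves_many h (pw_nonneg w) hn1 hLn (by linarith) (by linarith)
        (show 24 * (n:ℝ) ≤ s by linarith) (by linarith) hg hu hv hT
      show K ≤ _
      rw [hK]
      refine Nat.cast_le.2 ?_
      convert this
      exact Iff.rfl
  have hSm : ∀ p, MeasurableSet (S p) := fun p => measurable_Dx _ _ _
  have hexp : (24 * (n:ℝ)) ^ (b - 1 + ζ / 2) ≤ (n:ℝ) ^ (b - 1 + ζ / 2) :=
    Real.rpow_le_rpow_of_nonpos hn0 (by linarith) (by linarith)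
  have hSp : ∀ p ∈ Q, nu.real (S p) ≤ C * (n:ℝ) ^ (b - 1 + ζ / 2) := by
    intro p _
    have e1 : nu.real (S p) = nu.real {w | Dx μ (pw w) 0 (24 * n) s} := Dx_sh p (24 * n) s
    rw [e1]
    refine hD.trans ?_
    gcongr
  have hcard : ((Q.card : ℕ) : ℝ) ≤ (17 * n) ^ 2 := by
    have e2 : (ball (8 * n) 0).card ≤ (17 * n) ^ 2 :=
      (card_ball (8 * n)).trans (Nat.pow_le_pow_left (by omega) 2)
    exact_mod_cast e2
  have hmark : K * nu.real F ≤ ∑ p ∈ Q, nu.real (S p) := by convert count_markov Q S hSm K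
  have hsum : ∑ p ∈ Q, nu.real (S p) ≤ (17 * n) ^ 2 * (C * (n:ℝ) ^ (b - 1 + ζ / 2)) := by
    calc ∑ p ∈ Q, nu.real (S p) ≤ ∑ _p ∈ Q, C * (n:ℝ) ^ (b - 1 + ζ / 2) := Finset.sum_le_sum hSp
      _ = Q.card * (C * (n:ℝ) ^ (b - 1 + ζ / 2)) := by rw [Finset.sum_const, nsmul_eq_mul]
      _ ≤ _ := by gcongr
  have hKlow : n * (A / 192) ≤ K := by
    rw [hK]
    push_cast
    gcongr
  have hF0 : 0 ≤ nu.real F := measureReal_nonneg
  have hFle : nu.real F ≤ K1 * (n:ℝ) ^ (-(ζ / 2)) := by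
    have hX : 0 < (n:ℝ) * A := by positivity
    refine le_of_mul_le_mul_right ?_ hX
    have e1 : (n:ℝ) ^ (2:ℕ) * (n:ℝ) ^ (b - 1 + ζ / 2) = (n:ℝ) ^ (-(ζ / 2)) * ((n:ℝ) * A) := by
      have e0 : (n:ℝ) * A = (n:ℝ) ^ (1 + a) := by
        rw [Real.rpow_add hn0, Real.rpow_one]
      rw [e0, ← Real.rpow_natCast (n:ℝ) 2, ← Real.rpow_add hn0, ← Real.rpow_add hn0]
      congr 1
      push_cast
      rw [ha]
      ring
    have e2 : (n * (A / 192)) * nu.real F ≤ (17 * n) ^ 2 * (C * (n:ℝ) ^ (b - 1 + ζ / 2)) := by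
      calc (n * (A / 192)) * nu.real F ≤ K * nu.real F := by gcongr
        _ ≤ _ := hmark.trans hsum
    calc nu.real F * ((n:ℝ) * A) = 192 * ((n * (A / 192)) * nu.real F) := by ring
      _ ≤ 192 * ((17 * n) ^ 2 * (C * (n:ℝ) ^ (b - 1 + ζ / 2))) := by gcongr
      _ = K1 * ((n:ℝ) ^ (2:ℕ) * (n:ℝ) ^ (b - 1 + ζ / 2)) := by rw [hK1]; ring
      _ = K1 * (n:ℝ) ^ (-(ζ / 2)) * ((n:ℝ) * A) := by rw [e1]; ring
  have hfin := (measureReal_mono (μ := nu) hsub (measure_ne_top _ _)).trans (measureReal_union_le _ _)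
  linarith

end Pool.Agent.H69.FP
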