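import Pool.Agent.H69.FP.C

/-!
# Almost sure statements and events of positive probability
-/

set_option autoImplicit false

open MeasureTheory ProbabilityTheory Finset Filter
open scoped Topology

namespace Pool.Agent.H69.FP

open Q70.Fp Q69.FL

variable {μ : ℝ × ℝ → ℝ}

/-- no fast pairs in large boxes -/
def LGood (μ : ℝ × ℝ → ℝ) (b : ℝ) : Set (Ed → ℝ) :=
  {w | ∀ ζ : ℝ, 0 < ζ → ∀ᶠ n : ℕ in atTop, ∀ u ∈ ball n 0, ∀ v ∈ ball n 0,
    mz μ (v - u) - (n:ℝ) ^ (b + ζ) ≤ TT (pw w) u v}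

/-- no slow pairs in large boxes -/
def UGood (μ : ℝ × ℝ → ℝ) (b : ℝ) : Set (Ed → ℝ) :=
  {w | ∀ ζ : ℝ, 0 < ζ → ∀ᶠ n : ℕ in atTop, ∀ u ∈ ball n 0, ∀ v ∈ ball n 0,
    TT (pw w) u v ≤ mz μ (v - u) + (n:ℝ) ^ (b + ζ)}

/-- Borel-Cantelli -/
lemma ae_ev {s : ℕ → Set (Ed → ℝ)} (hs : ∀ᶠ n : ℕ in atTop, nu.real (s n) ≤ (n:ℝ) ^ (-2:ℝ)) :
    ∀ᵐ w ∂nu, ∀ᶠ n : ℕ in atTop, w ∉ s n := by
  refine ae_eventually_notMem ?_
  have h1 : Summable (fun n : ℕ => nu.real (s n)) := by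
    refine Summable.of_norm_bounded_eventually_nat
      (g := fun n : ℕ => (n:ℝ) ^ (-2:ℝ)) (Real.summable_nat_rpow.2 (by norm_num)) ?_
    filter_upwards [hs] with n hn
    rwa [Real.norm_eq_abs, abs_of_nonneg measureReal_nonneg]
  have h2 := h1.tsum_ofReal_ne_top
  have h3 : (fun n : ℕ => nu (s n)) = fun n : ℕ => ENNReal.ofReal (nu.real (s n)) := by
    ext n
    rw [ofReal_measureReal]
  rw [h3]
  exact h2

/-- numerical comparison -/
lemma two_pow_le {b ζ : ℝ} (hζ : 0 < ζ) : ∀ᶠ n : ℕ in atTop,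
    ((2 * (1 * n) : ℕ) : ℝ) ^ (b + ζ / 2) ≤ (n:ℝ) ^ (b + ζ) := by
  filter_upwards [nat_ev (rpow_small (K := 2 ^ (b + ζ / 2)) (show b + ζ / 2 < b + ζ by linarith))]
    with n hn
  have e1 : ((2 * (1 * n) : ℕ) : ℝ) = 2 * (n:ℝ) := by push_cast; ring
  rw [e1, Real.mul_rpow (by norm_num) (by positivity)]
  exact hn

lemma ae_low (h : Shape μ) {b : ℝ} (hb : 0 < b) (hS : ∀ a, b < a → Se μ a) :
    ∀ᵐ w ∂nu, w ∈ LGood μ b := by
  have h1 : ∀ k : ℕ, ∀ᵐ w ∂nu, ∀ᶠ n : ℕ in atTop, ∀ u ∈ ball n 0, ∀ v ∈ ball n 0,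
      mz μ (v - u) - (n:ℝ) ^ (b + 1 / ((k:ℝ) + 1)) ≤ TT (pw w) u v := by
    intro k
    have hk : (0:ℝ) < 1 / ((k:ℝ) + 1) := by positivity
    have h2 := ae_ev (low_union h (show 0 < b + 1 / ((k:ℝ) + 1) / 2 by positivity)
      (hS _ (by linarith)) (M := 1) le_rfl)
    filter_upwards [h2] with w hw
    filter_upwards [hw, two_pow_le (b := b) hk] with n hn hn2 u hu v hv
    simp only [not_exists, not_and, not_lt] at hn
    have := hn u (by rwa [one_mul]) v (by rwa [one_mul])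
    linarith
  filter_upwards [ae_all_iff.2 h1] with w hw ζ hζ
  obtain ⟨k, hk⟩ := exists_nat_one_div_lt hζ
  filter_upwards [hw k, eventually_ge_atTop 1] with n hn hn1 u hu v hv
  have hn' : (1:ℝ) ≤ n := by exact_mod_cast hn1
  have e1 : (n:ℝ) ^ (b + 1 / ((k:ℝ) + 1)) ≤ (n:ℝ) ^ (b + ζ) :=
    Real.rpow_le_rpow_of_exponent_le hn' (by linarith)
  have := hn u hu v hv
  linarith

lemma ae_up (h : Shape μ) {b : ℝ} (hb : 0 < b) (hS : ∀ a, b < a → SeU μ a) :
    ∀ᵐ w ∂nu, w ∈ UGood μ b := by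
  have h1 : ∀ k : ℕ, ∀ᵐ w ∂nu, ∀ᶠ n : ℕ in atTop, ∀ u ∈ ball n 0, ∀ v ∈ ball n 0,
      TT (pw w) u v ≤ mz μ (v - u) + (n:ℝ) ^ (b + 1 / ((k:ℝ) + 1)) := by
    intro k
    have hk : (0:ℝ) < 1 / ((k:ℝ) + 1) := by positivity
    have h2 := ae_ev (up_union h (show 0 < b + 1 / ((k:ℝ) + 1) / 2 by positivity)
      (hS _ (by linarith)) (M := 1) le_rfl)
    filter_upwards [h2] with w hw
    filter_upwards [hw, two_pow_le (b := b) hk] with n hn hn2 u hu v hv
    simp only [not_exists, not_and, not_lt] at hn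
    have := hn u (by rwa [one_mul]) v (by rwa [one_mul])
    linarith
  filter_upwards [ae_all_iff.2 h1] with w hw ζ hζ
  obtain ⟨k, hk⟩ := exists_nat_one_div_lt hζ
  filter_upwards [hw k, eventually_ge_atTop 1] with n hn hn1 u hu v hv
  have hn' : (1:ℝ) ≤ n := by exact_mod_cast hn1
  have e1 : (n:ℝ) ^ (b + 1 / ((k:ℝ) + 1)) ≤ (n:ℝ) ^ (b + ζ) :=
    Real.rpow_le_rpow_of_exponent_le hn' (by linarith)
  have := hn u hu v hv
  linarith

/-- an event of positive probability which eventually implies events gives a lower bound for their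
probabilities -/
lemma pos_ev {Ω : Type} [MeasurableSpace Ω] {P : Measure Ω} [IsProbabilityMeasure P] {G : Set Ω}
    {H : ℕ → Set Ω} (hG : P G ≠ 0) (hsub : ∀ ω ∈ G, ∀ᶠ n : ℕ in atTop, ω ∈ H n) :
    ∃ c : ℝ, 0 < c ∧ ∀ᶠ n : ℕ in atTop, c ≤ P.real (H n) := by
  by_contra hcon
  apply hG
  have h1 : ∀ N : ℕ, P (⋂ n ∈ Set.Ici N, H n) = 0 := by
    intro N
    by_contra h0
    refine hcon ⟨P.real (⋂ n ∈ Set.Ici N, H n), ?_, ?_⟩
    · exact ENNReal.toReal_pos h0 (measure_ne_top _ _)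
    · filter_upwards [eventually_ge_atTop N] with n hn
      refine measureReal_mono ?_ (measure_ne_top _ _)
      exact Set.biInter_subset_of_mem hn
  have h2 : G ⊆ ⋃ N : ℕ, ⋂ n ∈ Set.Ici N, H n := by
    intro ω hω
    obtain ⟨N, hN⟩ := eventually_atTop.1 (hsub ω hω)
    simp only [Set.mem_iUnion, Set.mem_iInter, Set.mem_Ici]
    exact ⟨N, fun n hn => hN n hn⟩
  refine measure_mono_null h2 ?_
  exact measure_iUnion_null h1

/-- a constant lower bound is enough for the boxes without fast pairs -/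
lemma Bx_of_pos {b : ℝ} (H : ∀ ζ : ℝ, 0 < ζ → ∃ c : ℝ, 0 < c ∧ ∀ᶠ n : ℕ in atTop, c ≤
      nu.real {w | ∀ u ∈ ball n 0, ∀ v ∈ ball n 0, mz μ (v - u) - (n:ℝ) ^ (b + ζ) ≤ TT (pw w) u v}) :
    ∀ ζ : ℝ, 0 < ζ → Q69.FM.Bx (mz μ) b ζ := by
  intro ζ hζ
  obtain ⟨c, hc, h1⟩ := H ζ hζ
  have tζ : Tendsto (fun s : ℕ => (s:ℝ) ^ ζ) atTop atTop :=
    (tendsto_rpow_atTop hζ).comp tendsto_natCast_atTop_atTop
  filter_upwards [h1, tζ.eventually_ge_atTop (-Real.log c)] with n h1 h2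
  refine le_trans ?_ h1
  calc Real.exp (-((n:ℝ) ^ ζ)) ≤ Real.exp (Real.log c) := Real.exp_le_exp.2 (by linarith)
    _ = c := Real.exp_log hc

lemma TB_real_sh (R : ℕ) (c v : ℤ × ℤ) (g : ℝ) :
    nu.real {w | TB (pw w) R c (c + v) ≤ g} = nu.real {w | TB (pw w) R 0 v ≤ g} := by
  have hm : Measurable (sh c) := measurable_pi_lambda _ fun e => measurable_pi_apply _
  have e1 := map_measureReal_apply (μ := nu) hm
    (measurableSet_le (measurable_TB R 0 v) (measurable_const (a := g)))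
  rw [map_sh] at e1
  rw [e1]
  congr 1
  ext w
  simp only [Set.mem_ofPred_eq, Set.mem_preimage, Q69.FM.TB_sh, zero_add]
  rw [add_comm c v]

/-- independence of distant blocks -/
lemma indep_TB (J s : ℕ) (v : ℤ × ℤ) (g : ℝ) (c : ℕ → ℤ × ℤ)
    (hc : ∀ i ∈ range J, ∀ j ∈ range J, i ≠ j → 2 * (66 * s) < dd (c i) (c j)) :
    nu.real {w | ∀ i ∈ range J, TB (pw w) (66 * s) (c i) (c i + v) ≤ g} =
      (nu.real {w | TB (pw w) (66 * s) 0 v ≤ g}) ^ J := by
  classical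
  have hm : ∀ i, MeasurableSet {w : Ed → ℝ | TB (pw w) (66 * s) (c i) (c i + v) ≤ g} := fun i =>
    measurableSet_le (measurable_TB _ _ _) measurable_const
  let f : ℕ → (Ed → ℝ) → ℝ := fun i w => if TB (pw w) (66 * s) (c i) (c i + v) ≤ g then 1 else 0
  have hf : ∀ i, f i = {w : Ed → ℝ | TB (pw w) (66 * s) (c i) (c i + v) ≤ g}.indicator 1 := by
    intro i
    ext w
    simp only [f, Set.indicator, Set.mem_ofPred_eq, Pi.one_apply]
  have hfm : ∀ i, Measurable (f i) := by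
    intro i
    rw [hf i]
    exact measurable_one.indicator (hm i)
  have hms : MeasurableSet {w : Ed → ℝ | ∀ i ∈ range J, TB (pw w) (66 * s) (c i) (c i + v) ≤ g} := by
    have : {w : Ed → ℝ | ∀ i ∈ range J, TB (pw w) (66 * s) (c i) (c i + v) ≤ g} =
        ⋂ i ∈ range J, {w : Ed → ℝ | TB (pw w) (66 * s) (c i) (c i + v) ≤ g} := by
      ext w; simp
    rw [this]
    exact Finset.measurableSet_biInter _ fun i _ => hm i
  have key := integral_prod_disj (range J) (fun i => be (66 * s) (c i)) f hfm (by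
      intro i w w' hww
      have := TB_dep (y := c i + v) hww
      simp only [f, this]) (fun i hi j hj hij => be_disj (hc i hi j hj hij))
  have e1 : ∀ i, ∫ w, f i w ∂nu = nu.real {w | TB (pw w) (66 * s) 0 v ≤ g} := by
    intro i
    rw [hf i, integral_indicator_one (hm i), TB_real_sh]
  have e2 : ∫ w, ∏ i ∈ range J, f i w ∂nu =
      nu.real {w | ∀ i ∈ range J, TB (pw w) (66 * s) (c i) (c i + v) ≤ g} := by
    rw [← integral_indicator_one hms]
    refine integral_congr_ae (Eventually.of_forall fun w => ?_)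
    show ∏ i ∈ range J, f i w = _
    simp only [f, Finset.prod_boole, Set.indicator, Set.mem_ofPred_eq, Pi.one_apply]
  rw [e2] at key
  rw [key]
  simp only [e1, Finset.prod_const, Finset.card_range]

/-- boxes without slow pairs give a polynomial bound for one pair -/
lemma tl_of_pos {b : ℝ} (hb : 0 < b) (H : ∀ ζ : ℝ, 0 < ζ → ∃ c : ℝ, 0 < c ∧
      ∀ᶠ n : ℕ in atTop, c ≤ nu.real {w | ∀ u ∈ ball n 0, ∀ v ∈ ball n 0,
        TT (pw w) u v ≤ mz μ (v - u) + (n:ℝ) ^ (b + ζ)}) :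
    ∀ ζ : ℝ, 0 < ζ → ∃ δ : ℝ, 0 < δ ∧ Tl μ (b + ζ) δ := by
  intro ζ hζ
  obtain ⟨c, hc, hH⟩ := H (ζ / 2) (by positivity)
  set η : ℝ := (ζ / 4) / (b + ζ / 2) with hη
  have hη0 : 0 < η := by positivity
  have hηe : (1 + η) * (b + ζ / 2) = b + 3 * ζ / 4 := by rw [hη]; field_simp; ring
  set C0 : ℝ := |Real.log (c / 2)| + 1 with hC0
  have hC0p : 0 < C0 := by positivity
  refine ⟨η, hη0, ?_⟩
  have hgoal := of_ev (P := fun v => nu.real {w | mz μ v + (dd 0 v : ℝ) ^ (b + ζ) < TT (pw w) 0 v})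
    (fun v => measureReal_le_one) hη0 hC0p ?_
  · obtain ⟨C', hC', hh⟩ := hgoal
    exact ⟨C', hC', hh⟩
  -- the number of blocks and the size of the large box
  have tη : Tendsto (fun s : ℕ => (s:ℝ) ^ η) atTop atTop :=
    (tendsto_rpow_atTop hη0).comp tendsto_natCast_atTop_atTop
  have tN : Tendsto (fun s : ℕ => 134 * s * ⌈(s:ℝ) ^ η⌉₊) atTop atTop := by
    refine tendsto_atTop_mono' atTop ?_ tendsto_id
    filter_upwards [eventually_ge_atTop 1] with s hs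
    have h1 : 1 ≤ ⌈(s:ℝ) ^ η⌉₊ := Nat.one_le_ceil_iff.2 (by positivity)
    show s ≤ 134 * s * ⌈(s:ℝ) ^ η⌉₊
    nlinarith
  have hloc : ∀ᶠ s : ℕ in atTop, 4 * (s:ℝ) ^ η * (1 / 2) ^ s ≤ c / 2 := by
    obtain ⟨C1, hC1, hh⟩ := half_poly (η + 1) (by positivity)
    have h1 := nat_ev (rpow_small (K := 4 * C1 * (2 / c)) (show (-1:ℝ) < 0 by norm_num))
    filter_upwards [h1, eventually_ge_atTop 1] with s hs hs1
    rw [Real.rpow_zero] at hs
    have hs' : (1:ℝ) ≤ s := by exact_mod_cast hs1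
    have hs0 : (0:ℝ) < s := by linarith
    have e1 := hh s
    have e2 : ((s:ℝ) + 1) ^ (-(η + 1)) ≤ (s:ℝ) ^ (-(η + 1)) :=
      Real.rpow_le_rpow_of_nonpos hs0 (by linarith) (by linarith)
    have e3 : (s:ℝ) ^ η * (s:ℝ) ^ (-(η + 1)) = (s:ℝ) ^ (-1:ℝ) := by
      rw [← Real.rpow_add hs0]; congr 1; ring
    calc 4 * (s:ℝ) ^ η * (1 / 2) ^ s ≤ 4 * (s:ℝ) ^ η * (C1 * (s:ℝ) ^ (-(η + 1))) := by
          refine mul_le_mul_of_nonneg_left (e1.trans ?_) (by positivity)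
          gcongr
      _ = 4 * C1 * ((s:ℝ) ^ η * (s:ℝ) ^ (-(η + 1))) := by ring
      _ = (c / 2) * (4 * C1 * (2 / c) * (s:ℝ) ^ (-1:ℝ)) := by rw [e3]; field_simp
      _ ≤ (c / 2) * 1 := by gcongr
      _ = c / 2 := mul_one _
  filter_upwards [eventually_ge_atTop 1, tN.eventually hH, hloc,
    nat_ev (rpow_small (K := 268 ^ (b + ζ / 2)) (show b + 3 * ζ / 4 < b + ζ by linarith)),
    tη.eventually_ge_atTop 1] with s hs1 hHs hlocs hpow hs2
  intro v hv
  have hs' : (1:ℝ) ≤ s := by exact_mod_cast hs1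
  have hs0 : (0:ℝ) < s := by linarith
  set J := ⌈(s:ℝ) ^ η⌉₊ with hJ
  set N := 134 * s * J with hN
  have hJ1 : (s:ℝ) ^ η ≤ J := Nat.le_ceil _
  have hJ2 : (J:ℝ) ≤ 2 * (s:ℝ) ^ η := by
    have := Nat.ceil_lt_add_one (show 0 ≤ (s:ℝ) ^ η by positivity)
    linarith
  have hJ0 : 1 ≤ J := Nat.one_le_ceil_iff.2 (by positivity)
  have hNpow : (N:ℝ) ^ (b + ζ / 2) ≤ (s:ℝ) ^ (b + ζ) := by
    have e1 : (N:ℝ) ≤ 268 * (s:ℝ) ^ (1 + η) := by
      rw [hN, Real.rpow_add hs0, Real.rpow_one]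
      push_cast
      nlinarith
    calc (N:ℝ) ^ (b + ζ / 2) ≤ (268 * (s:ℝ) ^ (1 + η)) ^ (b + ζ / 2) :=
          Real.rpow_le_rpow (by positivity) e1 (by positivity)
      _ = 268 ^ (b + ζ / 2) * (s:ℝ) ^ (b + 3 * ζ / 4) := by
          rw [Real.mul_rpow (by norm_num) (by positivity), ← Real.rpow_mul hs0.le, hηe]
      _ ≤ _ := hpow
  set g : ℝ := mz μ v + (s:ℝ) ^ (b + ζ) with hg
  let cc : ℕ → ℤ × ℤ := fun i => ((133 * s * i : ℕ), 0)
  have hfar : ∀ i ∈ range J, ∀ j ∈ range J, i ≠ j → 2 * (66 * s) < dd (cc i) (cc j) := by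
    intro i _ j _ hij
    have e1 : dd (cc i) (cc j) = (((133 * s * j : ℕ) : ℤ) - ((133 * s * i : ℕ) : ℤ)).natAbs := by
      simp [dd, cc]
    rw [e1]
    rcases lt_or_gt_of_ne hij with hlt | hlt
    · have : 133 * s * i + 133 * s ≤ 133 * s * j := by
        calc 133 * s * i + 133 * s = 133 * s * (i + 1) := by ring
          _ ≤ 133 * s * j := Nat.mul_le_mul_left _ hlt
      omega
    · have : 133 * s * j + 133 * s ≤ 133 * s * i := by
        calc 133 * s * j + 133 * s = 133 * s * (j + 1) := by ring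
          _ ≤ 133 * s * i := Nat.mul_le_mul_left _ hlt
      omega
  have hind := indep_TB J s v g cc hfar
  set p : ℝ := nu.real {w | TB (pw w) (66 * s) 0 v ≤ g} with hp
  have hddcc : ∀ i, dd (cc i) (cc i + v) ≤ s := by
    intro i
    have e1 := dd_add 0 v (cc i)
    rw [zero_add, add_comm v] at e1
    rw [e1]
    exact hv.le
  -- the box event and the localisation
  set A1 : Set (Ed → ℝ) := {w | ∀ u ∈ ball N 0, ∀ v ∈ ball N 0,
        TT (pw w) u v ≤ mz μ (v - u) + (N:ℝ) ^ (b + ζ / 2)} with hA1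
  set A2 : Set (Ed → ℝ) := ⋃ i ∈ range J, {w | TT (pw w) (cc i) (cc i + v) <
    TB (pw w) (66 * s) (cc i) (cc i + v)} with hA2
  have hsub : A1 ⊆ {w | ∀ i ∈ range J, TB (pw w) (66 * s) (cc i) (cc i + v) ≤ g} ∪ A2 := by
    intro w hw
    by_cases h2 : w ∈ A2
    · exact Or.inr h2
    · left
      intro i hi
      simp only [hA2, Set.mem_iUnion, Set.mem_ofPred_eq, exists_prop, not_exists, not_and,
        not_lt] at h2
      have e1 := h2 i hi
      have hiJ : i + 1 ≤ J := Finset.mem_range.1 hi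
      have hb1 : dd 0 (cc i) + s ≤ N := by
        have e2 : dd 0 (cc i) = 133 * s * i := by
          show (((133 * s * i : ℕ) : ℤ) - 0).natAbs + ((0:ℤ) - 0).natAbs = _
          rw [sub_zero, sub_zero, Int.natAbs_natCast, Int.natAbs_zero, add_zero]
        rw [e2, hN]
        calc 133 * s * i + s ≤ 134 * s * (i + 1) := by nlinarith
          _ ≤ 134 * s * J := Nat.mul_le_mul_left _ hiJ
      have m1 : cc i ∈ ball N 0 := by rw [mem_ball]; omega
      have m2 : cc i + v ∈ ball N 0 := by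
        rw [mem_ball]
        have := dd_tri 0 (cc i) (cc i + v)
        have := hddcc i
        omega
      have e3 := hw _ m1 _ m2
      rw [add_sub_cancel_left] at e3
      linarith
  have hA2le : nu.real A2 ≤ J * (2 * (1 / 2) ^ s) := by
    calc nu.real A2 ≤ ∑ i ∈ range J, nu.real {w | TT (pw w) (cc i) (cc i + v) <
        TB (pw w) (66 * s) (cc i) (cc i + v)} := measureReal_biUnion_finset_le _ _
      _ ≤ ∑ _i ∈ range J, (2 * (1 / 2 : ℝ) ^ s) := Finset.sum_le_sum fun i _ => local_le (hddcc i)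
      _ = _ := by rw [Finset.sum_const, Finset.card_range, nsmul_eq_mul]
  have h1 : c / 2 ≤ p ^ J := by
    have e1 := (measureReal_mono (μ := nu) hsub (measure_ne_top _ _)).trans
      (measureReal_union_le _ _)
    rw [hind] at e1
    have e2 : (J:ℝ) * (2 * (1 / 2) ^ s) ≤ 4 * (s:ℝ) ^ η * (1 / 2) ^ s := by
      calc (J:ℝ) * (2 * (1 / 2) ^ s) ≤ (2 * (s:ℝ) ^ η) * (2 * (1 / 2) ^ s) := by gcongr
        _ = _ := by ring
    linarith
  have hp0 : 0 ≤ p := measureReal_nonneg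
  -- the probability of the complement
  have h2 : p ≤ Real.exp (-(1 - p)) := by
    have := Real.add_one_le_exp (-(1 - p))
    linarith
  have h3 : c / 2 ≤ Real.exp (-((1 - p) * J)) := by
    calc c / 2 ≤ p ^ J := h1
      _ ≤ (Real.exp (-(1 - p))) ^ J := pow_le_pow_left₀ hp0 h2 J
      _ = Real.exp (-((1 - p) * J)) := by rw [← Real.exp_nat_mul]; congr 1; ring
  have h4 : (1 - p) * J ≤ C0 := by
    have e1 := Real.log_le_log (by positivity) h3
    rw [Real.log_exp] at e1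
    have e2 := neg_abs_le (Real.log (c / 2))
    rw [hC0]
    linarith
  have h5 : 1 - p ≤ C0 * (s:ℝ) ^ (-η) := by
    have e1 : 0 ≤ 1 - p := by
      have : p ≤ 1 := measureReal_le_one
      linarith
    have e2 : (1 - p) * (s:ℝ) ^ η ≤ C0 := le_trans (by gcongr) h4
    rw [Real.rpow_neg hs0.le]
    rwa [← div_eq_mul_inv, le_div_iff₀ (by positivity)]
  refine le_trans ?_ h5
  have e3 := measureReal_compl (μ := nu)
    (measurableSet_le (measurable_TB (66 * s) 0 v) (measurable_const (a := g)))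
  rw [probReal_univ] at e3
  rw [hp, ← e3]
  refine measureReal_mono ?_ (measure_ne_top _ _)
  intro w hw
  have hw' : mz μ v + (dd 0 v : ℝ) ^ (b + ζ) < TT (pw w) 0 v := hw
  have e4 := TT_le_TB (pw_nonneg w) (R := 66 * s) (x := 0) (y := v) (by omega)
  rw [hv] at hw'
  simp only [Set.mem_compl_iff, Set.mem_ofPred_eq, not_le]
  linarith

end Pool.Agent.H69.FP
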