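import Pool.Agent.H69.FP.D

/-!
# Passing between the probability space and the product space
-/

set_option autoImplicit false

open MeasureTheory ProbabilityTheory Finset Filter
open scoped Topology

namespace Pool.Agent.H69.FP

open Q70.Fp Q69.FL

variable {μ : ℝ × ℝ → ℝ}

lemma HH_of_SeU {a : ℝ} (hS : SeU μ a) : HH μ a := by
  intro q hq
  obtain ⟨κ, c, C, hκ, hc, hC, hU⟩ := hS
  obtain ⟨C1, hC1, hE⟩ := exp_poly (q / κ) (by positivity) hc
  refine ⟨C * C1, by positivity, fun v hv => (hU v hv).trans ?_⟩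
  have hn : (1:ℝ) ≤ dd 0 v := by exact_mod_cast dd_pos hv
  have e1 := hE ((dd 0 v : ℝ) ^ κ) (Real.one_le_rpow hn hκ.le)
  rw [← Real.rpow_mul (by linarith), show κ * -(q / κ) = -q by field_simp] at e1
  rw [mul_assoc]
  exact mul_le_mul_of_nonneg_left e1 hC.le

/-- a bound `e < 1 / e` at the exponent `a₀` and log-concavity give stretched exponential bounds -/
lemma SeU_of_weak {a0 a e : ℝ} (ha : a0 < a) (he : e < Real.exp (-1))
    (hlc : ∀ (v : ℤ × ℤ) (r d : ℝ), 0 < r → 0 < d →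
      nu.real {w | mz μ v + r ≤ TT (pw w) 0 v} ≤ Real.exp (-(1 + d)) →
      ∀ u : ℝ, 0 ≤ u → nu.real {w | mz μ v + r + u ≤ TT (pw w) 0 v} ≤
        Real.exp (-(1 + d + d * u / r)))
    (H : ∀ᶠ n : ℕ in atTop, ∀ v : ℤ × ℤ, dd 0 v = n →
      nu.real {w | mz μ v + (n:ℝ) ^ a0 < TT (pw w) 0 v} ≤ e) : SeU μ a := by
  set e' : ℝ := max e (Real.exp (-2)) with he'
  have he0 : 0 < e' := lt_max_of_lt_right (Real.exp_pos _)
  have he1 : e' < Real.exp (-1) := max_lt he (Real.exp_lt_exp.2 (by norm_num))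
  set d : ℝ := -Real.log e' - 1 with hd
  have hd0 : 0 < d := by
    have := Real.log_lt_log he0 he1
    rw [Real.log_exp] at this
    rw [hd]; linarith
  have hde : Real.exp (-(1 + d)) = e' := by
    rw [hd, show -(1 + (-Real.log e' - 1)) = Real.log e' by ring, Real.exp_log he0]
  set ε : ℝ := a - a0 with hε
  have hε0 : 0 < ε := by rw [hε]; linarith
  have hev : ∀ᶠ n : ℕ in atTop, ∀ z, dd 0 z = n →
      nu.real {w | mz μ z + (dd 0 z : ℝ) ^ a < TT (pw w) 0 z} ≤ 1 * Real.exp (-((n:ℝ) ^ (ε / 2))) := by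
    filter_upwards [H, eventually_ge_atTop 1, nat_ev (rpow_small (K := 4) (show a0 < a from ha)),
      nat_ev (rpow_small (K := 4 / d) (show ε / 2 < ε by linarith))] with n h1 hn1 h2 h3 v hv
    have hn : (1:ℝ) ≤ n := by exact_mod_cast hn1
    have hn0 : (0:ℝ) < n := by linarith
    set r : ℝ := 2 * (n:ℝ) ^ a0 with hr
    have hr0 : 0 < r := by positivity
    have e1 : nu.real {w | mz μ v + r ≤ TT (pw w) 0 v} ≤ Real.exp (-(1 + d)) := by
      rw [hde]
      refine le_trans (measureReal_mono ?_ (measure_ne_top _ _)) ((h1 v hv).trans (le_max_left _ _))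
      intro w hw
      have hw' : mz μ v + r ≤ TT (pw w) 0 v := hw
      have hp : 0 < (n:ℝ) ^ a0 := by positivity
      show mz μ v + (n:ℝ) ^ a0 < TT (pw w) 0 v
      linarith
    have hu : (n:ℝ) ^ a / 2 ≤ (n:ℝ) ^ a - r := by rw [hr]; linarith
    have hu0 : 0 ≤ (n:ℝ) ^ a - r := le_trans (by positivity) hu
    have e2 := hlc v r d hr0 hd0 e1 ((n:ℝ) ^ a - r) hu0
    rw [one_mul, hv]
    refine le_trans (measureReal_mono ?_ (measure_ne_top _ _)) (e2.trans (Real.exp_le_exp.2 ?_))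
    · intro w hw
      have hw' : mz μ v + (n:ℝ) ^ a < TT (pw w) 0 v := hw
      show mz μ v + r + ((n:ℝ) ^ a - r) ≤ TT (pw w) 0 v
      linarith
    · have e3 : (n:ℝ) ^ (ε / 2) ≤ d * ((n:ℝ) ^ a - r) / r := by
        have e4 : (n:ℝ) ^ a = (n:ℝ) ^ ε * (n:ℝ) ^ a0 := by
          rw [← Real.rpow_add hn0]; congr 1; rw [hε]; ring
        have e5 : d / 4 * (n:ℝ) ^ ε ≤ d * ((n:ℝ) ^ a - r) / r := by
          rw [le_div_iff₀ hr0]
          calc d / 4 * (n:ℝ) ^ ε * r = d * ((n:ℝ) ^ ε * (n:ℝ) ^ a0 / 2) := by rw [hr]; ring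
            _ = d * ((n:ℝ) ^ a / 2) := by rw [e4]
            _ ≤ _ := mul_le_mul_of_nonneg_left hu hd0.le
        refine le_trans ?_ e5
        calc (n:ℝ) ^ (ε / 2) = d / 4 * (4 / d * (n:ℝ) ^ (ε / 2)) := by field_simp
          _ ≤ _ := mul_le_mul_of_nonneg_left h3 (by positivity)
      linarith
  obtain ⟨C', hC', hh⟩ := of_ev_exp
    (P := fun v => nu.real {w | mz μ v + (dd 0 v : ℝ) ^ a < TT (pw w) 0 v})
    (fun v => measureReal_le_one) (show 0 < ε / 2 by positivity) one_pos hev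
  exact ⟨ε / 2, 1, C', by positivity, one_pos, hC', fun v _ => by rw [one_mul]; exact hh v⟩

variable {Ω : Type} [MeasurableSpace Ω] {P : Measure Ω} {X : Ed → Ω → ℝ}

/-- transfer of almost sure statements -/
lemma ae_transfer (hW : Wts P X) {S : Set (Ed → ℝ)} (hS : ∀ᵐ w ∂nu, w ∈ S) :
    ∀ᵐ ω ∂P, (fun e => X e ω) ∈ S ∧ pw (fun e => X e ω) = fun e => X e ω := by
  have h1 : ∀ᵐ w ∂(P.map (fun ω e => X e ω)), w ∈ S := by rw [hW.map]; exact hS
  have h2 := ae_of_ae_map hW.measPhi.aemeasurable h1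
  filter_upwards [h2, hW.ae] with ω a1 a2
  exact ⟨a1, a2⟩

/-- transfer of the probability of an event -/
lemma real_transfer (hW : Wts P X) {S : Set (Ed → ℝ)} (hS : MeasurableSet S) {A : Set Ω}
    (hA : ∀ ω, pw (fun e => X e ω) = (fun e => X e ω) → (ω ∈ A ↔ (fun e => X e ω) ∈ S)) :
    P.real A = nu.real S := by
  rw [← hW.map, map_measureReal_apply hW.measPhi hS]
  refine measureReal_congr ?_
  filter_upwards [hW.ae] with ω hω
  exact propext (hA ω hω)

/-- the cluster event and the outer inclusion -/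
lemma Dx_le_Ou [IsProbabilityMeasure P] (hW : Wts P X) (h : Shape μ) {c t : ℝ} (hc : 0 < c) :
    nu.real {w | Dx μ (pw w) 0 t c} ≤ P.real (Ou X μ c t) := by
  have e1 : P.real {ω | ∃ y : ℤ × ℤ, c < mz μ (y - 0) ∧ TT (fun e => X e ω) 0 y ≤ t} =
      nu.real {w | Dx μ (pw w) 0 t c} := by
    refine real_transfer hW (measurable_Dx 0 t c) ?_
    intro ω hω
    show _ ↔ Dx μ (pw (fun e => X e ω)) 0 t c
    rw [hω]
    exact Iff.rfl
  rw [← e1]
  refine measureReal_mono ?_ (measure_ne_top _ _)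
  rintro ω ⟨y, h1, h2⟩
  rw [sub_zero] at h1
  exact mem_Ou h hc h1 h2

end Pool.Agent.H69.FP
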