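import Pool.Agent.H69.FP.E

/-!
# Nonrandom fluctuations from a slow rate of the lower tail about the mean
-/

set_option autoImplicit false

open MeasureTheory ProbabilityTheory Finset Filter
open scoped Topology Pointwise

namespace Pool.Agent.H69.FP

open Q70.Fp Q69.FM
open Q69.FL (rd dd_rd nb count_nb dd_sub)

variable {μ : ℝ × ℝ → ℝ}

/-- the nonrandom fluctuations -/
theorem mean_bound_H (h : Shape μ) {a : ℝ} (ha : 0 < a) (ha1 : a < 1)
    (H : ∀ᶠ n : ℕ in atTop, ∀ v : ℤ × ℤ, dd 0 v ≤ 2 * n → ∃ (k : ℕ) (z : ℕ → ℤ × ℤ), z 0 = 0 ∧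
      (∀ i < k, dd (z i) (z (i + 1)) ≤ n) ∧ dd (z k) v ≤ n ∧
      ∑ i ∈ range k, hm (z (i + 1) - z i) + hm (v - z k) ≤ hm v + 267 * (n:ℝ) ^ a) :
    ∃ C : ℝ, 0 < C ∧ ∀ v : ℤ × ℤ, hm v ≤ mz μ v + C * (dd 0 v : ℝ) ^ a := by
  obtain ⟨j0, A, hA, hK⟩ := Kn_iter h ha ha1 H
  -- every vector is in a scaled hull
  have rep : ∀ j, j0 ≤ j → ∀ x : ℤ × ℤ,
      cv x ∈ ((mz μ x + 1) * Real.exp (A * (((2:ℝ) ^ j) ^ (a - 1)))) • Kn (2 ^ j) := by
    intro j hj x
    obtain ⟨N, hN1, hN⟩ := mean_lim h x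
    have hN0 : (0:ℝ) < N := by exact_mod_cast hN1
    obtain ⟨J, hJ⟩ : ∃ J : ℕ, J = max j (dd 0 ((N : ℤ) • x)) := ⟨_, rfl⟩
    have e1 : dd 0 ((N : ℤ) • x) ≤ 2 ^ J := by
      have f1 : dd 0 ((N : ℤ) • x) ≤ J := by rw [hJ]; exact le_max_right _ _
      have f2 : J < 2 ^ J := Nat.lt_two_pow_self
      omega
    have e2 := mem_self h e1
    obtain ⟨q, hq, hq'⟩ := Set.mem_smul_set.1 e2
    obtain ⟨r, hr, rfl⟩ := Set.mem_smul_set.1 (hK j hj J (by rw [hJ]; exact le_max_left _ _) hq)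
    rw [smul_smul, cv_smul] at hq'
    have e3 : cv x = ((N:ℝ)⁻¹ * (hm ((N : ℤ) • x) * Real.exp (A * (((2:ℝ) ^ j) ^ (a - 1))))) • r := by
      rw [mul_smul, hq', smul_smul, inv_mul_cancel₀ hN0.ne', one_smul]
    rw [e3]
    have hmn := hm_nonneg ((N : ℤ) • x)
    refine scale_mono (by positivity) ?_ (Set.smul_mem_smul_set hr)
    rw [← mul_assoc]
    refine mul_le_mul_of_nonneg_right ?_ (Real.exp_pos _).le
    rw [inv_mul_le_iff₀ hN0]
    exact hN
  -- one step of the induction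
  obtain ⟨B, hB⟩ : ∃ B : ℝ, B = 1 + 96 * (A * Real.exp A) := ⟨_, rfl⟩
  have hB0 : 0 < B := by rw [hB]; positivity
  have step : ∀ x : ℤ × ℤ, 12 * 2 ^ j0 ≤ dd 0 x → ∃ x' : ℤ × ℤ, 4 * dd 0 x' ≤ dd 0 x ∧
      hm x - mz μ x ≤ B * (dd 0 x : ℝ) ^ a + (hm x' - mz μ x') := by
    intro x hx
    obtain ⟨m, hm'⟩ : ∃ m : ℕ, m = dd 0 x := ⟨_, rfl⟩
    rw [← hm'] at hx ⊢
    obtain ⟨j, hj⟩ : ∃ j : ℕ, j = Nat.log 2 (m / 12) := ⟨_, rfl⟩
    have hp0 : 1 ≤ 2 ^ j0 := Nat.one_le_two_pow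
    have hm12 : 2 ^ j0 ≤ m / 12 := by omega
    have g1 : 2 ^ j ≤ m / 12 := by
      rw [hj]; exact Nat.pow_log_le_self 2 (by omega)
    have g2 : m / 12 < 2 ^ (j + 1) := by
      rw [hj]; exact Nat.lt_pow_succ_log_self (by norm_num) _
    have g3 : j0 ≤ j := by
      rw [hj]; exact Nat.le_log_of_pow_le (by norm_num) hm12
    have g4 : 12 * 2 ^ j ≤ m := by omega
    have g5 : m < 24 * 2 ^ j := by
      rw [pow_succ] at g2
      omega
    have hmx := mz_nonneg h x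
    obtain ⟨x', h1, h2⟩ := round_hull h (by positivity) (rep j g3 x)
    refine ⟨x', by omega, ?_⟩
    obtain ⟨ρ, hρ⟩ : ∃ ρ : ℝ, ρ = ((2:ℝ) ^ j) ^ (a - 1) := ⟨_, rfl⟩
    rw [← hρ] at h2
    have hm0 : (0:ℝ) < m := by
      have : 0 < m := by omega
      exact_mod_cast this
    have hm1 : (1:ℝ) ≤ m := by
      have : 1 ≤ m := by omega
      exact_mod_cast this
    have hj1 : (1:ℝ) ≤ (2:ℝ) ^ j := one_le_pow₀ (by norm_num)
    have hρ0 : 0 < ρ := by rw [hρ]; positivity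
    have hρ1 : ρ ≤ 1 := by rw [hρ]; exact Real.rpow_le_one_of_one_le_of_nonpos hj1 (by linarith)
    have hexp : Real.exp (A * ρ) ≤ 1 + A * Real.exp A * ρ := by
      have f1 := Real.add_one_le_exp (-(A * ρ))
      have f2 : Real.exp (A * ρ) * Real.exp (-(A * ρ)) = 1 := by rw [← Real.exp_add]; simp
      have f3 : Real.exp (A * ρ) ≤ Real.exp A := Real.exp_le_exp.2 (by nlinarith)
      have f4 : Real.exp (A * ρ) * (-(A * ρ) + 1) ≤ Real.exp (A * ρ) * Real.exp (-(A * ρ)) :=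
        mul_le_mul_of_nonneg_left f1 (Real.exp_pos _).le
      rw [f2] at f4
      have f5 : A * ρ * Real.exp (A * ρ) ≤ A * ρ * Real.exp A :=
        mul_le_mul_of_nonneg_left f3 (by positivity)
      linarith
    have hρm : (m:ℝ) * ρ ≤ 24 * (m:ℝ) ^ a := by
      have f1 : (m:ℝ) / 24 ≤ (2:ℝ) ^ j := by
        have : (m:ℝ) < 24 * (2:ℝ) ^ j := by exact_mod_cast g5
        linarith
      have f2 : ρ ≤ ((m:ℝ) / 24) ^ (a - 1) := by
        rw [hρ]
        exact Real.rpow_le_rpow_of_nonpos (by positivity) f1 (by linarith)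
      have f3 : ((m:ℝ) / 24) ^ (a - 1) ≤ 24 * (m:ℝ) ^ (a - 1) := by
        rw [Real.div_rpow hm0.le (by norm_num), div_eq_mul_inv, ← Real.rpow_neg (by norm_num), mul_comm]
        refine mul_le_mul_of_nonneg_right ?_ (by positivity)
        calc (24:ℝ) ^ (-(a - 1)) ≤ (24:ℝ) ^ (1:ℝ) :=
              Real.rpow_le_rpow_of_exponent_le (by norm_num) (by linarith)
          _ = 24 := Real.rpow_one _
      have f4 : (m:ℝ) * (m:ℝ) ^ (a - 1) = (m:ℝ) ^ a := by
        rw [Real.rpow_sub_one hm0.ne']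
        field_simp
      calc (m:ℝ) * ρ ≤ (m:ℝ) * (24 * (m:ℝ) ^ (a - 1)) :=
            mul_le_mul_of_nonneg_left (f2.trans f3) hm0.le
        _ = 24 * ((m:ℝ) * (m:ℝ) ^ (a - 1)) := by ring
        _ = _ := by rw [f4]
    have hma : (1:ℝ) ≤ (m:ℝ) ^ a := Real.one_le_rpow hm1 ha.le
    have hup : mz μ x + 1 ≤ 4 * (m:ℝ) := by
      have := mz_up h x
      rw [← hm'] at this
      linarith
    have e1 : (mz μ x + 1) * Real.exp (A * ρ) ≤ (mz μ x + 1) * (1 + A * Real.exp A * ρ) :=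
      mul_le_mul_of_nonneg_left hexp (by linarith)
    have e2 : (mz μ x + 1) * (A * Real.exp A * ρ) ≤ 96 * (A * Real.exp A) * (m:ℝ) ^ a := by
      calc (mz μ x + 1) * (A * Real.exp A * ρ) ≤ 4 * (m:ℝ) * (A * Real.exp A * ρ) :=
            mul_le_mul_of_nonneg_right hup (by positivity)
        _ = 4 * (A * Real.exp A) * ((m:ℝ) * ρ) := by ring
        _ ≤ 4 * (A * Real.exp A) * (24 * (m:ℝ) ^ a) :=
            mul_le_mul_of_nonneg_left hρm (by positivity)
        _ = _ := by ring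
    rw [hB, add_mul, one_mul]
    have e3 : (mz μ x + 1) * (1 + A * Real.exp A * ρ) = (mz μ x + 1) + (mz μ x + 1) * (A * Real.exp A * ρ) := by
      ring
    linarith
  -- the induction
  have h4a : (4:ℝ) ^ (-a) < 1 := Real.rpow_lt_one_of_one_lt_of_neg (by norm_num) (by linarith)
  obtain ⟨K, hK'⟩ : ∃ K : ℝ, K = B / (1 - (4:ℝ) ^ (-a)) + 24 * 2 ^ j0 := ⟨_, rfl⟩
  have h1a : 0 < 1 - (4:ℝ) ^ (-a) := by linarith
  have hK0 : 0 < K := by rw [hK']; positivity
  have hKB : B + K * (4:ℝ) ^ (-a) ≤ K := by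
    have e1 : B / (1 - (4:ℝ) ^ (-a)) * (1 - (4:ℝ) ^ (-a)) = B := div_mul_cancel₀ _ h1a.ne'
    have e2 : 0 ≤ 24 * (2:ℝ) ^ j0 * (1 - (4:ℝ) ^ (-a)) := by positivity
    have e3 : K * (1 - (4:ℝ) ^ (-a)) = B / (1 - (4:ℝ) ^ (-a)) * (1 - (4:ℝ) ^ (-a)) +
        24 * (2:ℝ) ^ j0 * (1 - (4:ℝ) ^ (-a)) := by rw [hK']; ring
    linarith
  have main : ∀ m : ℕ, ∀ x : ℤ × ℤ, dd 0 x = m → hm x - mz μ x ≤ K * (m:ℝ) ^ a := by
    intro m
    induction m using Nat.strong_induction_on with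
    | _ m ih =>
      intro x hx
      by_cases hc : 12 * 2 ^ j0 ≤ m
      · obtain ⟨x', h1, h2⟩ := step x (by rw [hx]; exact hc)
        rw [hx] at h1 h2
        have hm0 : 0 < m := by
          have : 1 ≤ 2 ^ j0 := Nat.one_le_two_pow
          omega
        have h3 := ih (dd 0 x') (by omega) x' rfl
        have h4 : (dd 0 x' : ℝ) ^ a ≤ (4:ℝ) ^ (-a) * (m:ℝ) ^ a := by
          have f1 : (dd 0 x' : ℝ) ≤ (m:ℝ) / 4 := by
            have : (4:ℝ) * (dd 0 x' : ℝ) ≤ m := by exact_mod_cast h1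
            linarith
          calc (dd 0 x' : ℝ) ^ a ≤ ((m:ℝ) / 4) ^ a := Real.rpow_le_rpow (by positivity) f1 ha.le
            _ = _ := by
              rw [Real.div_rpow (by positivity) (by norm_num), Real.rpow_neg (by norm_num)]
              ring
        have h5 : K * (dd 0 x' : ℝ) ^ a ≤ K * ((4:ℝ) ^ (-a) * (m:ℝ) ^ a) :=
          mul_le_mul_of_nonneg_left h4 hK0.le
        have h6 : (B + K * (4:ℝ) ^ (-a)) * (m:ℝ) ^ a ≤ K * (m:ℝ) ^ a :=
          mul_le_mul_of_nonneg_right hKB (by positivity)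
        linarith
      · push Not at hc
        have e1 := hm_up x
        rw [hx] at e1
        have e2 := mz_nonneg h x
        rcases Nat.eq_zero_or_pos m with h0 | h0
        · subst h0
          have : 0 ≤ K * ((0:ℕ):ℝ) ^ a := by positivity
          simp only [Nat.cast_zero] at e1 this ⊢
          linarith
        · have hm1 : (1:ℝ) ≤ m := by exact_mod_cast h0
          have hma : (1:ℝ) ≤ (m:ℝ) ^ a := Real.one_le_rpow hm1 ha.le
          have hc' : (m:ℝ) ≤ 12 * 2 ^ j0 := by exact_mod_cast hc.le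
          have e3 : 24 * (2:ℝ) ^ j0 ≤ K := by
            rw [hK']
            have : 0 ≤ B / (1 - (4:ℝ) ^ (-a)) := by positivity
            linarith
          have e4 : K * 1 ≤ K * (m:ℝ) ^ a := mul_le_mul_of_nonneg_left hma hK0.le
          linarith
  exact ⟨K, hK0, fun v => by linarith [main _ v rfl]⟩


/-- passing a point at a given distance -/
lemma pass2 {w : Ed → ℝ} (hw : ∀ e, 0 ≤ w e) {v : ℤ × ℤ} {n : ℕ} (hn1 : 1 ≤ n) (hn : n ≤ dd 0 v)
    {N : ℕ} {p : ℕ → ℤ × ℤ} (hp : IsW 0 v N p) :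
    ∃ z, dd 0 z = n ∧ TT w 0 z + TT w z v ≤ Wt w p N := by
  obtain ⟨k, z, z0, z1, z2, -, z4⟩ := Q69.FL.cut_walk hw hn1 v N 0 p hp
  obtain ⟨k', rfl⟩ : ∃ k', k = k' + 1 := by
    refine ⟨k - 1, ?_⟩
    have : k ≠ 0 := by
      rintro rfl
      rw [z0] at z2
      omega
    omega
  refine ⟨z 1, ?_, ?_⟩
  · have := z1 0 (by omega)
    rwa [z0] at this
  · rw [Finset.sum_range_succ'] at z4
    have h1 := TT_chain hw (fun i => z (i + 1)) k'
    have h2 := TT_tri hw (z 1) (z (k' + 1)) v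
    simp only [zero_add, z0] at z4 h1
    linarith

/-- the expected negative part -/
lemma neg_part {a q C : ℝ} (hq : 1 - a ≤ q) (hC : 0 < C)
    (hL : ∀ v : ℤ × ℤ, v ≠ 0 → nu.real {w | TT (pw w) 0 v < hm v - (dd 0 v : ℝ) ^ a} ≤
      C * (dd 0 v : ℝ) ^ (-q)) :
    ∀ v : ℤ × ℤ, v ≠ 0 → ∫ w, max (hm v - TT (pw w) 0 v) 0 ∂nu ≤ (1 + 2 * C) * (dd 0 v : ℝ) ^ a := by
  intro v hv
  have hn : (1:ℝ) ≤ dd 0 v := by exact_mod_cast dd_pos hv
  have hn0 : (0:ℝ) < dd 0 v := by linarith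
  set S : Set (Ed → ℝ) := {w | TT (pw w) 0 v < hm v - (dd 0 v : ℝ) ^ a} with hSdef
  have hm1 : MeasurableSet S := measurableSet_lt (measurable_TT 0 v) measurable_const
  have hup := hm_up v
  have hpt : ∀ w, max (hm v - TT (pw w) 0 v) 0 ≤
      (dd 0 v : ℝ) ^ a + S.indicator (fun _ => 2 * (dd 0 v : ℝ)) w := by
    intro w
    have h0 := TT_nonneg (pw_nonneg w) 0 v
    have hp : 0 ≤ (dd 0 v : ℝ) ^ a := by positivity
    by_cases hw : w ∈ S
    · rw [Set.indicator_of_mem hw]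
      exact max_le (by linarith) (by positivity)
    · rw [Set.indicator_of_notMem hw, add_zero]
      have hw' : ¬ (TT (pw w) 0 v < hm v - (dd 0 v : ℝ) ^ a) := hw
      exact max_le (by linarith) hp
  have hi : Integrable (fun w => (dd 0 v : ℝ) ^ a + S.indicator (fun _ => 2 * (dd 0 v : ℝ)) w) nu :=
    (integrable_const _).add ((integrable_const _).indicator hm1)
  have hi2 : Integrable (fun w => max (hm v - TT (pw w) 0 v) 0) nu :=
    ((integrable_const _).sub (integrable_TT 0 v)).pos_part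
  have h1 := integral_mono hi2 hi hpt
  refine h1.trans ?_
  rw [integral_add (integrable_const _) ((integrable_const _).indicator hm1),
    integral_indicator hm1]
  simp only [integral_const, smul_eq_mul, probReal_univ, one_mul, measureReal_restrict_apply_univ]
  have h2 := hL v hv
  have h3 : (dd 0 v : ℝ) ^ (-q) * (dd 0 v : ℝ) ≤ (dd 0 v : ℝ) ^ a := by
    rw [← Real.rpow_add_one hn0.ne']
    exact Real.rpow_le_rpow_of_exponent_le hn (by linarith)
  calc (dd 0 v : ℝ) ^ a + nu.real S * (2 * (dd 0 v : ℝ))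
      ≤ (dd 0 v : ℝ) ^ a + C * (dd 0 v : ℝ) ^ (-q) * (2 * (dd 0 v : ℝ)) := by gcongr
    _ = (dd 0 v : ℝ) ^ a + 2 * C * ((dd 0 v : ℝ) ^ (-q) * (dd 0 v : ℝ)) := by ring
    _ ≤ (dd 0 v : ℝ) ^ a + 2 * C * (dd 0 v : ℝ) ^ a := by gcongr
    _ = _ := by ring

/-- Markov for the positive part -/
lemma pos_markov {v : ℤ × ℤ} {s : ℝ} :
    s * nu.real {w | hm v + s ≤ TT (pw w) 0 v} ≤ ∫ w, max (hm v - TT (pw w) 0 v) 0 ∂nu := by
  have hi1 : Integrable (fun w => max (TT (pw w) 0 v - hm v) 0) nu :=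
    ((integrable_TT 0 v).sub (integrable_const _)).pos_part
  have hi2 : Integrable (fun w => max (hm v - TT (pw w) 0 v) 0) nu :=
    ((integrable_const _).sub (integrable_TT 0 v)).pos_part
  have h1 : ∫ w, (max (TT (pw w) 0 v - hm v) 0 - max (hm v - TT (pw w) 0 v) 0) ∂nu = 0 := by
    have e1 : (fun w => max (TT (pw w) 0 v - hm v) 0 - max (hm v - TT (pw w) 0 v) 0) =
        fun w => TT (pw w) 0 v - hm v := by
      ext w
      rcases le_total (TT (pw w) 0 v) (hm v) with h | h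
      · rw [max_eq_right (by linarith), max_eq_left (by linarith)]; ring
      · rw [max_eq_left (by linarith), max_eq_right (by linarith)]; ring
    rw [e1, integral_sub (integrable_TT 0 v) (integrable_const _)]
    simp [hm]
  rw [integral_sub hi1 hi2] at h1
  have h2 := mul_meas_ge_le_integral_of_nonneg (μ := nu)
    (f := fun w => max (TT (pw w) 0 v - hm v) 0)
    (Eventually.of_forall fun w => le_max_right _ _) hi1 s
  have h3 : nu.real {w | hm v + s ≤ TT (pw w) 0 v} ≤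
      nu.real {w | s ≤ max (TT (pw w) 0 v - hm v) 0} := by
    refine measureReal_mono ?_ (measure_ne_top _ _)
    intro w hw
    have hw' : hm v + s ≤ TT (pw w) 0 v := hw
    show s ≤ max (TT (pw w) 0 v - hm v) 0
    exact le_max_of_le_left (by linarith)
  rcases le_or_gt 0 s with hs | hs
  · have h4 := mul_le_mul_of_nonneg_left h3 hs
    linarith
  · have h5 : s * nu.real {w | hm v + s ≤ TT (pw w) 0 v} ≤ 0 :=
      mul_nonpos_of_nonpos_of_nonneg hs.le measureReal_nonneg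
    have h6 : 0 ≤ ∫ w, max (hm v - TT (pw w) 0 v) 0 ∂nu := integral_nonneg fun w => le_max_right _ _
    linarith

end Pool.Agent.H69.FP
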