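import Pool.Agent.H69.FP.F

/-!
# Splitting a vector at a given distance
-/

set_option autoImplicit false

open MeasureTheory ProbabilityTheory Finset Filter
open scoped Topology Pointwise

namespace Pool.Agent.H69.FP

open Q70.Fp Q69.FM
open Q69.FL (rd dd_rd nb count_nb dd_sub)

variable {μ : ℝ × ℝ → ℝ}

lemma rd_zero (s : ℕ) : rd s 0 = 0 := by
  simp [rd]

/-- the number of cells which meet a sphere -/
lemma card_nb {s m : ℕ} (hs : 1 ≤ s) (hsm : s ≤ m) :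
    ((nb s m 0).card : ℝ) ≤ 200 * ((m:ℝ) / s) := by
  have h0 : (0 : ℤ × ℤ) ∈ (ball 0 0).image (rd s) :=
    Finset.mem_image.2 ⟨0, by rw [mem_ball, dd_self], rd_zero s⟩
  have h1 := count_nb hs m h0
  have hs0 : (0:ℝ) < s := by exact_mod_cast hs
  have h2 : ((m / s : ℕ) : ℝ) ≤ (m:ℝ) / s := Nat.cast_div_le
  have h3 : (1:ℝ) ≤ (m:ℝ) / s := by
    rw [le_div_iff₀ hs0, one_mul]
    exact_mod_cast hsm
  have h4 : ((nb s m 0).card : ℝ) ≤ 18 * (2 * ((m / s : ℕ) : ℝ) + 9) := by exact_mod_cast h1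
  linarith

/-- the rounding of a point of the sphere -/
lemma rd_nb {s m : ℕ} (hs : 1 ≤ s) {z : ℤ × ℤ} (hz : dd 0 z = m) : rd s z ∈ nb s m 0 := by
  have h1 := dd_rd hs z
  have h2 := dd_tri 0 (rd s z) z
  have h3 := dd_tri 0 z (rd s z)
  have h4 := dd_comm z (rd s z)
  rw [nb, Finset.mem_filter]
  refine ⟨Finset.mem_image.2 ⟨z, by rw [mem_ball]; omega, rfl⟩, by omega, by omega⟩

/-- the event that rounding is expensive -/
def RdBad (s R : ℕ) : Set (Ed → ℝ) :=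
  {w | ∃ x ∈ ball R 0, 6 * (s:ℝ) ≤ TT (pw w) x (rd s x) ∨ 6 * (s:ℝ) ≤ TT (pw w) (rd s x) x}

lemma rdBad_le {s R : ℕ} (hs : 1 ≤ s) :
    nu.real (RdBad s R) ≤ (((2 * R + 1) ^ 2 : ℕ) : ℝ) * (2 * (1 / 2) ^ (2 * s)) := by
  have e1 : RdBad s R = ⋃ x ∈ ball R 0,
      ({w | 3 * ((2 * s : ℕ) : ℝ) ≤ TT (pw w) x (rd s x)} ∪
        {w | 3 * ((2 * s : ℕ) : ℝ) ≤ TT (pw w) (rd s x) x}) := by
    have e0 : (3:ℝ) * ((2 * s : ℕ) : ℝ) = 6 * s := by push_cast; ring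
    rw [e0]
    ext w
    simp only [RdBad, Set.mem_ofPred_eq, Set.mem_iUnion, exists_prop, Set.mem_union]
  rw [e1]
  calc _ ≤ ∑ x ∈ ball R 0, nu.real ({w | 3 * ((2 * s : ℕ) : ℝ) ≤ TT (pw w) x (rd s x)} ∪
        {w | 3 * ((2 * s : ℕ) : ℝ) ≤ TT (pw w) (rd s x) x}) := measureReal_biUnion_finset_le _ _
    _ ≤ ∑ _x ∈ ball R 0, (2 * (1 / 2 : ℝ) ^ (2 * s)) := by
        refine Finset.sum_le_sum fun x _ => (measureReal_union_le _ _).trans ?_
        have h1 := straight (x := x) (y := rd s x) (dd_rd hs x)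
        have h2 := straight (x := rd s x) (y := x) (k := 2 * s) (by rw [dd_comm]; exact dd_rd hs x)
        linarith
    _ = (ball R 0).card * (2 * (1 / 2 : ℝ) ^ (2 * s)) := by rw [Finset.sum_const, nsmul_eq_mul]
    _ ≤ _ := mul_le_mul_of_nonneg_right (by exact_mod_cast card_ball R) (by positivity)

/-- numerical facts: rounding at the scale `n ^ a` -/
lemma rd_numerics {a : ℝ} (ha0 : 0 < a) (ha1 : a < 1) :
    ∀ᶠ n : ℕ in atTop, 1 ≤ n ∧ 1 ≤ ⌊(n:ℝ) ^ a / 400⌋₊ ∧ 8 * ⌊(n:ℝ) ^ a / 400⌋₊ ≤ n ∧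
      (n:ℝ) ^ a / 800 ≤ (⌊(n:ℝ) ^ a / 400⌋₊ : ℝ) ∧ (⌊(n:ℝ) ^ a / 400⌋₊ : ℝ) ≤ (n:ℝ) ^ a / 400 ∧
      (((2 * n + 1) ^ 2 : ℕ) : ℝ) * (2 * (1 / 2) ^ (2 * ⌊(n:ℝ) ^ a / 400⌋₊)) ≤ (n:ℝ) ^ (-2:ℝ) := by
  have t1 : Tendsto (fun s : ℕ => (s:ℝ) ^ a) atTop atTop :=
    (tendsto_rpow_atTop ha0).comp tendsto_natCast_atTop_atTop
  obtain ⟨C1, hC1, hE⟩ := half_poly (5 / a) (by positivity)
  filter_upwards [eventually_ge_atTop 1, t1.eventually_ge_atTop 800,
    nat_ev (rpow_small (K := 18 * C1 * 800 ^ (5 / a)) (show (-3:ℝ) < -2 by norm_num))]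
    with n h1 h2 h3
  have hn : (1:ℝ) ≤ n := by exact_mod_cast h1
  have hn0 : (0:ℝ) < n := by linarith
  have e1 : (⌊(n:ℝ) ^ a / 400⌋₊ : ℝ) ≤ (n:ℝ) ^ a / 400 := Nat.floor_le (by positivity)
  have e2 : (n:ℝ) ^ a ≤ n := by
    calc (n:ℝ) ^ a ≤ (n:ℝ) ^ (1:ℝ) := Real.rpow_le_rpow_of_exponent_le hn ha1.le
      _ = n := Real.rpow_one _
  have e3 : (n:ℝ) ^ a / 800 ≤ (⌊(n:ℝ) ^ a / 400⌋₊ : ℝ) := by
    have := Nat.lt_floor_add_one ((n:ℝ) ^ a / 400)
    linarith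
  refine ⟨h1, ?_, ?_, e3, e1, ?_⟩
  · exact Nat.one_le_floor_iff _ |>.2 (by linarith)
  · have : (8:ℝ) * (⌊(n:ℝ) ^ a / 400⌋₊ : ℝ) ≤ n := by linarith
    exact_mod_cast this
  · set s := ⌊(n:ℝ) ^ a / 400⌋₊ with hs
    refine le_trans ?_ h3
    have f1 : ((1:ℝ) / 2) ^ (2 * s) ≤ C1 * ((s:ℝ) + 1) ^ (-(5 / a)) := by
      refine le_trans ?_ (hE s)
      exact pow_le_pow_of_le_one (by norm_num) (by norm_num) (by omega)
    have f2 : ((s:ℝ) + 1) ^ (-(5 / a)) ≤ ((n:ℝ) ^ a / 800) ^ (-(5 / a)) :=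
      Real.rpow_le_rpow_of_nonpos (by positivity) (by linarith) (by
        have : 0 < 5 / a := by positivity
        linarith)
    have f3 : ((n:ℝ) ^ a / 800) ^ (-(5 / a)) = 800 ^ (5 / a) * (n:ℝ) ^ (-5:ℝ) := by
      rw [Real.div_rpow (by positivity) (by norm_num), ← Real.rpow_mul hn0.le,
        show a * -(5 / a) = -5 by field_simp, div_eq_mul_inv, ← Real.rpow_neg (by norm_num), neg_neg,
        mul_comm]
    have f4 : (((2 * n + 1) ^ 2 : ℕ) : ℝ) ≤ 9 * (n:ℝ) ^ (2:ℕ) := by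
      push_cast
      nlinarith
    have f5 : (n:ℝ) ^ (2:ℕ) * (n:ℝ) ^ (-5:ℝ) = (n:ℝ) ^ (-3:ℝ) := by
      rw [← Real.rpow_natCast, ← Real.rpow_add hn0]
      norm_num
    calc (((2 * n + 1) ^ 2 : ℕ) : ℝ) * (2 * (1 / 2) ^ (2 * s))
        ≤ (9 * (n:ℝ) ^ (2:ℕ)) * (2 * (C1 * (800 ^ (5 / a) * (n:ℝ) ^ (-5:ℝ)))) := by
          rw [← f3]
          gcongr
          exact f1.trans (mul_le_mul_of_nonneg_left f2 hC1.le)
      _ = 18 * C1 * 800 ^ (5 / a) * ((n:ℝ) ^ (2:ℕ) * (n:ℝ) ^ (-5:ℝ)) := by ring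
      _ = _ := by rw [f5]

/-- the lower tail at the distance about `n` -/
lemma low_at {a a' q C : ℝ} (hC : 0 < C) (hq : 0 ≤ q) (ha' : 0 ≤ a')
    (hL : ∀ v : ℤ × ℤ, v ≠ 0 → nu.real {w | TT (pw w) 0 v < hm v - (dd 0 v : ℝ) ^ a'} ≤
      C * (dd 0 v : ℝ) ^ (-q)) {n : ℕ} (hn : 1 ≤ n) (hnum : (402 * (n:ℝ)) ^ a' ≤ (n:ℝ) ^ a / 8)
    {z : ℤ × ℤ} (h1 : n ≤ 2 * dd 0 z) (h2 : dd 0 z ≤ 402 * n) :
    nu.real {w | TT (pw w) 0 z < hm z - (n:ℝ) ^ a / 8} ≤ C * 2 ^ q * (n:ℝ) ^ (-q) := by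
  have hz : z ≠ 0 := by
    rintro rfl
    rw [dd_self] at h1
    omega
  have hn0 : (0:ℝ) < n := by exact_mod_cast hn
  have e1 : (dd 0 z : ℝ) ^ a' ≤ (n:ℝ) ^ a / 8 := by
    refine le_trans (Real.rpow_le_rpow (by positivity) ?_ ha') hnum
    exact_mod_cast h2
  refine le_trans (measureReal_mono ?_ (measure_ne_top _ _)) ((hL z hz).trans ?_)
  · intro w hw
    have hw' : TT (pw w) 0 z < hm z - (n:ℝ) ^ a / 8 := hw
    show TT (pw w) 0 z < hm z - (dd 0 z : ℝ) ^ a'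
    linarith
  · have e2 : (n:ℝ) / 2 ≤ dd 0 z := by
      have : (n:ℝ) ≤ 2 * dd 0 z := by exact_mod_cast h1
      linarith
    have e3 : (dd 0 z : ℝ) ^ (-q) ≤ ((n:ℝ) / 2) ^ (-q) :=
      Real.rpow_le_rpow_of_nonpos (by positivity) e2 (by linarith)
    have e4 : ((n:ℝ) / 2) ^ (-q) = 2 ^ q * (n:ℝ) ^ (-q) := by
      rw [Real.div_rpow hn0.le (by norm_num), div_eq_mul_inv, ← Real.rpow_neg (by norm_num), neg_neg,
        mul_comm]
    rw [e4] at e3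
    rw [mul_assoc]
    exact mul_le_mul_of_nonneg_left e3 hC.le

/-- one splitting -/
lemma split_one {a a' q C : ℝ} (ha'0 : 0 < a') (haa : a' < a) (ha1 : a < 1) (hC : 0 < C)
    (hq : 1 - a' ≤ q)
    (hL : ∀ v : ℤ × ℤ, v ≠ 0 → nu.real {w | TT (pw w) 0 v < hm v - (dd 0 v : ℝ) ^ a'} ≤
      C * (dd 0 v : ℝ) ^ (-q)) :
    ∀ᶠ n : ℕ in atTop, ∀ v : ℤ × ℤ, 2 * n ≤ dd 0 v → dd 0 v ≤ 400 * n →
      ∃ z, dd 0 z = n ∧ hm z + hm (v - z) ≤ hm v + (n:ℝ) ^ a := by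
  have hneg := neg_part hq hC hL
  set K1 : ℝ := 160000 * (C * 2 ^ q) with hK1
  filter_upwards [rd_numerics (a := a) (by linarith) ha1,
    nat_ev (rpow_small (K := 8 * 402 ^ a') haa),
    nat_ev (rpow_small (K := 16 * ((1 + 2 * C) * 400 ^ a')) haa),
    nat_ev (rpow_small (K := 8 * K1) (show a' - a < 0 by linarith)),
    nat_ev (rpow_small (K := 8) (show (-2:ℝ) < 0 by norm_num))] with n hn h1 h2 h3 h4 v hv1 hv2
  obtain ⟨hn1, hs1, hs8, hslow, hsup, hrd⟩ := hn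
  rw [Real.rpow_zero] at h3 h4
  have hn' : (1:ℝ) ≤ n := by exact_mod_cast hn1
  have hn0 : (0:ℝ) < n := by linarith
  set s := ⌊(n:ℝ) ^ a / 400⌋₊ with hs
  set A := (n:ℝ) ^ a with hA
  have hA0 : 0 < A := by positivity
  have hs0 : (0:ℝ) < s := by exact_mod_cast hs1
  have hnum : (402 * (n:ℝ)) ^ a' ≤ A / 8 := by
    rw [Real.mul_rpow (by norm_num) hn0.le]
    linarith
  have hv0 : v ≠ 0 := by
    rintro rfl
    rw [dd_self] at hv1
    omega
  set E1 : Set (Ed → ℝ) := ⋃ y ∈ nb s n 0, {w | TT (pw w) 0 y < hm y - A / 8} with hE1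
  set E2 : Set (Ed → ℝ) := ⋃ y ∈ nb s n 0, {w | TT (pw w) y v < hm (v - y) - A / 8} with hE2
  have hnb : ∀ y ∈ nb s n 0, n ≤ 2 * dd 0 y ∧ 2 * dd 0 y ≤ 3 * n := by
    intro y hy
    rw [nb, Finset.mem_filter] at hy
    obtain ⟨-, g1, g2⟩ := hy
    constructor <;> omega
  have hcard : ((nb s n 0).card : ℝ) ≤ 160000 * (n:ℝ) ^ (1 - a) := by
    refine (card_nb hs1 (by omega)).trans ?_
    have e1 : (n:ℝ) / s ≤ (n:ℝ) / (A / 800) := by gcongr
    have e2 : (n:ℝ) / (A / 800) = 800 * (n:ℝ) ^ (1 - a) := by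
      rw [Real.rpow_sub hn0, Real.rpow_one, hA]
      field_simp
    linarith
  have hexp : (n:ℝ) ^ (1 - a) * (n:ℝ) ^ (-q) ≤ (n:ℝ) ^ (a' - a) := by
    rw [← Real.rpow_add hn0]
    exact Real.rpow_le_rpow_of_exponent_le hn' (by linarith)
  have hq0 : 0 ≤ q := by linarith
  have hbound : ((nb s n 0).card : ℝ) * (C * 2 ^ q * (n:ℝ) ^ (-q)) ≤ 1 / 8 := by
    calc ((nb s n 0).card : ℝ) * (C * 2 ^ q * (n:ℝ) ^ (-q))
        ≤ (160000 * (n:ℝ) ^ (1 - a)) * (C * 2 ^ q * (n:ℝ) ^ (-q)) := by gcongr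
      _ = K1 * ((n:ℝ) ^ (1 - a) * (n:ℝ) ^ (-q)) := by rw [hK1]; ring
      _ ≤ K1 * (n:ℝ) ^ (a' - a) := by gcongr
      _ ≤ 1 / 8 := by linarith
  have b1 : nu.real E1 ≤ 1 / 8 := by
    refine le_trans ?_ hbound
    calc nu.real E1 ≤ ∑ y ∈ nb s n 0, nu.real {w | TT (pw w) 0 y < hm y - A / 8} :=
          measureReal_biUnion_finset_le _ _
      _ ≤ ∑ _y ∈ nb s n 0, C * 2 ^ q * (n:ℝ) ^ (-q) := by
          refine Finset.sum_le_sum fun y hy => ?_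
          have := hnb y hy
          exact low_at hC hq0 ha'0.le hL hn1 hnum (by omega) (by omega)
      _ = _ := by rw [Finset.sum_const, nsmul_eq_mul]
  have b2 : nu.real E2 ≤ 1 / 8 := by
    refine le_trans ?_ hbound
    calc nu.real E2 ≤ ∑ y ∈ nb s n 0, nu.real {w | TT (pw w) y v < hm (v - y) - A / 8} :=
          measureReal_biUnion_finset_le _ _
      _ ≤ ∑ _y ∈ nb s n 0, C * 2 ^ q * (n:ℝ) ^ (-q) := by
          refine Finset.sum_le_sum fun y hy => ?_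
          have g := hnb y hy
          have e1 := nu_TT_sh y v (measurableSet_Iio (a := hm (v - y) - A / 8))
          have e2 : {w : Ed → ℝ | TT (pw w) y v < hm (v - y) - A / 8} =
            {w | TT (pw w) y v ∈ Set.Iio (hm (v - y) - A / 8)} := rfl
          rw [e2, e1]
          have g1 := dd_sub v y 0 0
          rw [sub_zero, dd_comm _ (0:ℤ×ℤ), dd_comm v, dd_comm y] at g1
          have g2 : dd 0 v ≤ dd 0 (v - y) + dd 0 y := by
            have := dd_sub (v - y) (-y) 0 0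
            rw [sub_neg_eq_add, sub_add_cancel, sub_zero] at this
            have g3 : dd (-y) 0 = dd 0 y := by simp [dd]
            rw [dd_comm v, dd_comm (v - y), g3] at this
            exact this
          exact low_at hC hq0 ha'0.le hL hn1 hnum (by omega) (by omega)
      _ = _ := by rw [Finset.sum_const, nsmul_eq_mul]
  have b3 : nu.real (RdBad s n) ≤ 1 / 8 := (rdBad_le hs1).trans (by linarith)
  have b0 : nu.real {w | hm v + A / 4 ≤ TT (pw w) 0 v} ≤ 1 / 4 := by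
    have e1 := (pos_markov (v := v) (s := A / 4)).trans (hneg v hv0)
    have e2 : (dd 0 v : ℝ) ^ a' ≤ 400 ^ a' * (n:ℝ) ^ a' := by
      rw [← Real.mul_rpow (by norm_num) hn0.le]
      exact Real.rpow_le_rpow (by positivity) (by exact_mod_cast hv2) ha'0.le
    have e3 : (1 + 2 * C) * (dd 0 v : ℝ) ^ a' ≤ A / 16 := by
      calc (1 + 2 * C) * (dd 0 v : ℝ) ^ a' ≤ (1 + 2 * C) * (400 ^ a' * (n:ℝ) ^ a') := by gcongr
        _ = (16 * ((1 + 2 * C) * 400 ^ a') * (n:ℝ) ^ a') / 16 := by ring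
        _ ≤ _ := by linarith
    have e4 : A / 4 * nu.real {w | hm v + A / 4 ≤ TT (pw w) 0 v} ≤ A / 4 * (1 / 4) := by linarith
    exact le_of_mul_le_mul_left e4 (by positivity)
  have tot : nu.real {w | hm v + A / 4 ≤ TT (pw w) 0 v} + nu.real (RdBad s n) +
      nu.real (E1 ∪ E2) < 1 := by
    have := measureReal_union_le (μ := nu) E1 E2
    linarith
  obtain ⟨w, n0, n3, n12⟩ := exists_out _ _ _ tot
  rw [Set.mem_union, not_or] at n12
  obtain ⟨n1, n2⟩ := n12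
  simp only [hE1, hE2, RdBad, Set.mem_iUnion, Set.mem_ofPred_eq, exists_prop, not_exists,
    not_and, not_lt, not_le, not_or] at n0 n1 n2 n3
  obtain ⟨N, p, hp, hlt⟩ := exists_lt n0
  obtain ⟨z, hz, hsum⟩ := pass2 (pw_nonneg w) hn1 (show n ≤ dd 0 v by omega) hp
  refine ⟨z, hz, ?_⟩
  have hy := rd_nb hs1 hz
  have r1 := n3 z (by rw [mem_ball]; omega)
  have r2 := n1 _ hy
  have r3 := n2 _ hy
  have t1 := TT_tri (pw_nonneg w) 0 z (rd s z)
  have t2 := TT_tri (pw_nonneg w) (rd s z) z v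
  have l1 := hm_lip (rd s z) z
  have l2 := hm_lip (v - rd s z) (v - z)
  have d1 : (dd (rd s z) z : ℝ) ≤ 2 * s := by
    have := dd_rd hs1 z
    rw [dd_comm] at this
    exact_mod_cast this
  have d2 : (dd (v - rd s z) (v - z) : ℝ) ≤ 2 * s := by
    have e1 := dd_sub v (rd s z) v z
    have e2 := dd_rd hs1 z
    rw [dd_comm] at e2
    rw [dd_self] at e1
    have : dd (v - rd s z) (v - z) ≤ 2 * s := by omega
    exact_mod_cast this
  linarith [r1.1, r1.2]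

/-- repeated splitting -/
lemma split_rec {n : ℕ} {a : ℝ} (hn : 1 ≤ n) (hsmall : (n:ℝ) ^ a ≤ (n:ℝ) / 44)
    (H : ∀ v : ℤ × ℤ, 2 * n ≤ dd 0 v → dd 0 v ≤ 400 * n →
      ∃ z, dd 0 z = n ∧ hm z + hm (v - z) ≤ hm v + (n:ℝ) ^ a) (hS : Sub hm) {m : ℕ} (hm2 : 2 * n ≤ m + 1) :
    ∀ K : ℕ, K ≤ 528 → ∀ v : ℤ × ℤ, hm v ≤ K * ((n:ℝ) / 44) →
      ∃ (k : ℕ) (z : ℕ → ℤ × ℤ), z 0 = 0 ∧ (∀ i < k, dd (z i) (z (i + 1)) ≤ m) ∧ dd (z k) v ≤ m ∧
      ∑ i ∈ range k, hm (z (i + 1) - z i) + hm (v - z k) ≤ hm v + K * (n:ℝ) ^ a := by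
  intro K
  have hn0 : (0:ℝ) < n := by exact_mod_cast hn
  induction K with
  | zero =>
    intro _ v hv
    have h1 := hS.low v
    have h2 : dd 0 v = 0 := by
      simp only [Nat.cast_zero, zero_mul] at hv
      have : (dd 0 v : ℝ) ≤ 0 := by linarith
      exact_mod_cast le_antisymm this (by positivity)
    refine ⟨0, fun _ => 0, rfl, fun i hi => by omega, ?_, ?_⟩
    · show dd 0 v ≤ m
      omega
    · simp
  | succ K ih =>
    intro hK v hv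
    have h1 := hS.low v
    have hpow : 0 ≤ (n:ℝ) ^ a := by positivity
    by_cases hd : 2 * n ≤ dd 0 v
    · have hd2 : dd 0 v ≤ 400 * n := by
        have e1 : (dd 0 v : ℝ) ≤ 400 * n := by
          have e2 : (((K + 1 : ℕ)) : ℝ) ≤ 528 := by exact_mod_cast hK
          have e3 : (((K + 1 : ℕ)) : ℝ) * ((n:ℝ) / 44) ≤ 528 * ((n:ℝ) / 44) := by gcongr
          linarith
        exact_mod_cast e1
      obtain ⟨z1, g1, g2⟩ := H v hd hd2
      have h3 := hS.low z1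
      rw [g1] at h3
      have h4 : hm (v - z1) ≤ K * ((n:ℝ) / 44) := by
        push_cast at hv
        linarith
      obtain ⟨k, z, z0, zi, zk, zs⟩ := ih (by omega) (v - z1) h4
      refine ⟨k + 1, fun i => match i with | 0 => 0 | i + 1 => z1 + z i, rfl, ?_, ?_, ?_⟩
      · intro i hi
        match i with
        | 0 =>
          show dd 0 (z1 + z 0) ≤ m
          rw [z0, add_zero, g1]
          omega
        | i + 1 =>
          show dd (z1 + z i) (z1 + z (i + 1)) ≤ m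
          have := dd_add (z i) (z (i + 1)) z1
          rw [add_comm (z i), add_comm (z (i + 1))] at this
          rw [this]
          exact zi i (by omega)
      · show dd (z1 + z k) v ≤ m
        have := dd_add (z k) (v - z1) z1
        rw [add_comm (z k), sub_add_cancel] at this
        rw [this]
        exact zk
      · rw [Finset.sum_range_succ']
        show ∑ i ∈ range k, hm (z1 + z (i + 1) - (z1 + z i)) + hm (z1 + z 0 - 0) +
          hm (v - (z1 + z k)) ≤ _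
        have e1 : ∑ i ∈ range k, hm (z1 + z (i + 1) - (z1 + z i)) =
            ∑ i ∈ range k, hm (z (i + 1) - z i) :=
          Finset.sum_congr rfl fun i _ => by congr 1; abel
        have e2 : hm (z1 + z 0 - 0) = hm z1 := by rw [z0]; congr 1; abel
        have e3 : hm (v - (z1 + z k)) = hm (v - z1 - z k) := by congr 1; abel
        rw [e1, e2, e3]
        push_cast
        linarith
    · refine ⟨0, fun _ => 0, rfl, fun i hi => by omega, ?_, ?_⟩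
      · show dd 0 v ≤ m
        omega
      · simp only [Finset.range_zero, Finset.sum_empty, zero_add, sub_zero]
        have : 0 ≤ (((K + 1 : ℕ)) : ℝ) * (n:ℝ) ^ a := by positivity
        linarith

/-- the nonrandom fluctuations from a slow rate -/
theorem mean_bound_slow (h : Shape μ) {b : ℝ} (hb : 0 < b) (hb1 : b < 1)
    (hL : ∀ ζ : ℝ, 0 < ζ → ζ < 1 - b → ∃ C : ℝ, 0 < C ∧ ∀ v : ℤ × ℤ, v ≠ 0 →
      nu.real {w | TT (pw w) 0 v < hm v - (dd 0 v : ℝ) ^ (b + ζ)} ≤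
        C * (dd 0 v : ℝ) ^ (-(1 - b - ζ))) {a : ℝ} (ha : b < a) (ha1 : a < 1) :
    ∃ C : ℝ, 0 < C ∧ ∀ v : ℤ × ℤ, hm v ≤ mz μ v + C * (dd 0 v : ℝ) ^ a := by
  refine mean_bound_H h (by linarith) ha1 ?_
  set ζ : ℝ := (a - b) / 3 with hζ
  have hζ0 : 0 < ζ := by rw [hζ]; linarith
  obtain ⟨C, hC, hC1⟩ := hL ζ hζ0 (by rw [hζ]; linarith)
  have h1 := split_one (a := b + 2 * ζ) (a' := b + ζ) (q := 1 - b - ζ) (by linarith) (by linarith)
    (by rw [hζ]; linarith) hC (by linarith) hC1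
  have t2 : Tendsto (fun n : ℕ => n / 2) atTop atTop := Nat.tendsto_div_const_atTop (by norm_num)
  have h2 : ∀ᶠ n : ℕ in atTop, (n:ℝ) ^ (b + 2 * ζ) ≤ (n:ℝ) / 44 := by
    filter_upwards [nat_ev (rpow_small (K := 44) (show b + 2 * ζ < 1 by rw [hζ]; linarith))] with n hn
    rw [Real.rpow_one] at hn
    linarith
  filter_upwards [t2.eventually h1, t2.eventually h2, eventually_ge_atTop 4,
    nat_ev (rpow_small (K := 2) (show b + 2 * ζ < a by rw [hζ]; linarith))]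
    with n hn1 hn2 hn4 hn5 v hv
  set n0 := n / 2 with hn0
  have hn01 : 1 ≤ n0 := by omega
  have h3n : (dd 0 v : ℝ) ≤ 6 * n0 := by
    have : dd 0 v ≤ 6 * n0 := by omega
    exact_mod_cast this
  obtain ⟨k, z, z0, z1, z2, z3⟩ := split_rec hn01 hn2 hn1 (hm_Sub h) (m := n) (by omega) 528 le_rfl v
    (by
      have := hm_up v
      push_cast
      linarith)
  refine ⟨k, z, z0, z1, z2, z3.trans ?_⟩
  have e1 : (n0:ℝ) ^ (b + 2 * ζ) ≤ (n:ℝ) ^ (b + 2 * ζ) := by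
    refine Real.rpow_le_rpow (by positivity) ?_ (by linarith)
    have : n0 ≤ n := by omega
    exact_mod_cast this
  have e2 : 0 ≤ (n:ℝ) ^ a := by positivity
  push_cast
  linarith

end Pool.Agent.H69.FP
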