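import Pool.Agent.H69.FP.G

/-!
# Fast points on spheres about the mean
-/

set_option autoImplicit false

open MeasureTheory ProbabilityTheory Finset Filter
open scoped Topology

namespace Pool.Agent.H69.FP

open Q70.Fp Q69.FM
open Q69.FL (rd dd_rd nb count_nb dd_sub)

variable {μ : ℝ × ℝ → ℝ}

/-- a point at distance `R` from `x` with a passage time smaller than the mean minus `g` -/
def Sx (w : Ed → ℝ) (x : ℤ × ℤ) (R : ℕ) (g : ℝ) : Prop :=
  ∃ y : ℤ × ℤ, dd x y = R ∧ TT w x y < hm (y - x) - g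

lemma Sx_set (x : ℤ × ℤ) (R : ℕ) (g : ℝ) : {w : Ed → ℝ | Sx (pw w) x R g} =
    ⋃ y : ℤ × ℤ, {w | dd x y = R ∧ TT (pw w) x y < hm (y - x) - g} := by
  ext w
  simp only [Sx, Set.mem_ofPred_eq, Set.mem_iUnion]

lemma measurable_Sx (x : ℤ × ℤ) (R : ℕ) (g : ℝ) : MeasurableSet {w : Ed → ℝ | Sx (pw w) x R g} := by
  rw [Sx_set]
  refine MeasurableSet.iUnion fun y => ?_
  by_cases hy : dd x y = R
  · simp only [hy, true_and]
    exact measurableSet_lt (measurable_TT _ _) measurable_const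
  · simp only [hy, false_and]
    exact MeasurableSet.empty

/-- translation invariance -/
lemma Sx_sh (x : ℤ × ℤ) (R : ℕ) (g : ℝ) :
    nu.real {w | Sx (pw w) x R g} = nu.real {w | Sx (pw w) 0 R g} := by
  have hm1 : Measurable (sh x) := measurable_pi_lambda _ fun e => measurable_pi_apply _
  have e1 := map_measureReal_apply (μ := nu) hm1 (measurable_Sx 0 R g)
  rw [map_sh] at e1
  rw [e1]
  congr 1
  ext w
  simp only [Set.mem_ofPred_eq, Set.mem_preimage, Sx, TT_sh, zero_add, sub_zero]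
  constructor
  · rintro ⟨y, h1, h2⟩
    refine ⟨y - x, ?_, by rwa [sub_add_cancel]⟩
    have := dd_add 0 (y - x) x
    rw [zero_add, sub_add_cancel] at this
    rw [← this]; exact h1
  · rintro ⟨y, h1, h2⟩
    refine ⟨y + x, ?_, by rwa [add_sub_cancel_right]⟩
    have := dd_add 0 y x
    rw [zero_add] at this
    rw [this]; exact h1

open Classical in
/-- a fast pair produces many sources of fast points at a given distance -/
lemma spheres_many (h : Shape μ) {w : Ed → ℝ} (hw : ∀ e, 0 ≤ w e) {n L : ℕ} (hn : 1 ≤ n)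
    (hL : L ≤ n) {E A g : ℝ} (hA0 : 0 < A) (hA : 50 + 6 * (L:ℝ) + 2 * E + g ≤ A)
    (G : ∀ x ∈ ball (100 * n) 0, ∀ y ∈ ball (100 * n) 0, TT w x y ≤ mz μ (y - x) + E)
    {u v : ℤ × ℤ} (hu : u ∈ ball n 0) (hv : v ∈ ball n 0)
    (hT : TT w u v < mz μ (v - u) - A) :
    n * L ≤ ((ball (8 * n) 0).filter (fun x => Sx w x (40 * n) g)).card := by
  set z := v - u with hz
  have hz0 : z ≠ 0 := by
    intro h0
    rw [h0, mz_zero h] at hT
    have := TT_nonneg hw u v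
    linarith
  rw [mem_ball] at hu hv
  have e1 : n * L = (Finset.range n ×ˢ Finset.range L).card := by
    simp only [Finset.card_product, Finset.card_range]
  rw [e1]
  refine Finset.card_le_card_of_injOn (fun q => xp u z (n + q.1) q.2) ?_ ?_
  · rintro ⟨i, l⟩ hq
    simp only [Finset.coe_product, Set.mem_prod, Finset.mem_coe, Finset.mem_range] at hq
    obtain ⟨hi, hl⟩ := hq
    have hdx := dd_xp hz0 u (n + i) l
    have hx : xp u z (n + i) l ∈ ball (8 * n) 0 := by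
      rw [mem_ball]
      omega
    simp only [Finset.coe_filter, Set.mem_ofPred_eq]
    refine ⟨hx, ?_⟩
    have hl1 : (l:ℝ) ≤ L := by exact_mod_cast hl.le
    set x := xp u z (n + i) l with hxdef
    have hsymm : ∀ a c : ℤ × ℤ, dd a c = dd 0 (c - a) := by
      intro a c
      simp only [dd, Prod.fst_sub, Prod.snd_sub, Prod.fst_zero, Prod.snd_zero]
      omega
    have hex : ∃ j : ℕ, 40 * n ≤ dd x (yp v z j 0) := by
      refine ⟨40 * n, ?_⟩
      have := far_xy hz0 hz.symm (n + i) l (40 * n) 0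
      rw [← hxdef] at this
      rw [hsymm]
      omega
    set j := Nat.find hex with hj
    have hj1 : 40 * n ≤ dd x (yp v z j 0) := Nat.find_spec hex
    have hj2 : j ≤ 40 * n := by
      refine Nat.find_min' hex ?_
      have := far_xy hz0 hz.symm (n + i) l (40 * n) 0
      rw [← hxdef] at this
      rw [hsymm]
      omega
    have hy0 : yp v z 0 0 = v := by simp [yp, pt_zero]
    have hjpos : j ≠ 0 := by
      intro h0
      rw [h0, hy0] at hj1
      have := dd_tri x 0 v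
      have := dd_comm x 0
      omega
    obtain ⟨j', hj'⟩ : ∃ j', j = j' + 1 := ⟨j - 1, by omega⟩
    have hj3 : dd x (yp v z j' 0) < 40 * n := by
      by_contra hc
      have := Nat.find_min' hex (not_lt.1 hc)
      omega
    have hstep : dd (yp v z j' 0) (yp v z j 0) ≤ 4 := by
      have f2 : dd (yp v z j' 0) (yp v z j 0) ≤ dd (pt z (mc z) j') (pt z (mc z) j) := by
        simp only [dd, yp, Prod.fst_add, Prod.snd_add]
        omega
      have f3 := (pt_dd z (mc_pos hz0) (show j' ≤ j by omega)).1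
      have f4 : j - j' = 1 := by omega
      rw [f4, one_mul] at f3
      have f5 := dd_le_mc z
      have f6 : dd (pt z (mc z) j') (pt z (mc z) j) ≤ 4 := by
        refine le_of_mul_le_mul_left (a := mc z) ?_ (mc_pos hz0)
        omega
      omega
    have hj4 : dd x (yp v z j 0) ≤ 40 * n + 3 := by
      have := dd_tri x (yp v z j' 0) (yp v z j 0)
      omega
    -- a point at the exact distance
    obtain ⟨y', hy1, hy2⟩ : ∃ y', dd x y' = 40 * n ∧ dd (yp v z j 0) y' ≤ 3 := by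
      obtain ⟨k, hk⟩ : ∃ k, dd (yp v z j 0) x = k := ⟨_, rfl⟩
      obtain ⟨p, hp1, hp2⟩ := exists_geo x k (yp v z j 0) hk
      rw [dd_comm] at hk
      have g1 := hp2 (k - 40 * n) (by omega)
      have g2 := dd_walk hp1 (k - 40 * n) (by omega)
      refine ⟨p (k - 40 * n), ?_, by omega⟩
      rw [dd_comm, g1]
      omega
    have hb1 := dd_yp hz0 v j 0
    have hyb : y' ∈ ball (100 * n) 0 := by
      rw [mem_ball]
      have := dd_tri 0 (yp v z j 0) y'
      omega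
    have hx' : x ∈ ball (100 * n) 0 := by rw [mem_ball]; omega
    have hu' : u ∈ ball (100 * n) 0 := by rw [mem_ball]; omega
    have hv' : v ∈ ball (100 * n) 0 := by rw [mem_ball]; omega
    have hA' := G _ hx' _ hu'
    have hB' := G _ hv' _ hyb
    have c1 := TT_tri hw x u y'
    have c2 := TT_tri hw u v y'
    have c3 := xp_near h hz0 u (n + i) l
    have c4 := yp_near h hz0 v j 0
    have c5 := xy_near h hz0 hz.symm (n + i) l j 0
    have c6 := mz_lip h (yp v z j 0 - v) (y' - v)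
    have c7 := mz_lip h (y' - x) (yp v z j 0 - x)
    have c8 : (dd (yp v z j 0 - v) (y' - v) : ℝ) ≤ 3 := by
      have f1 := dd_sub (yp v z j 0) v y' v
      rw [dd_self] at f1
      have : dd (yp v z j 0 - v) (y' - v) ≤ 3 := by omega
      exact_mod_cast this
    have c9 : (dd (y' - x) (yp v z j 0 - x) : ℝ) ≤ 3 := by
      have f1 := dd_sub y' x (yp v z j 0) x
      rw [dd_self] at f1
      have f2 := dd_comm y' (yp v z j 0)
      have : dd (y' - x) (yp v z j 0 - x) ≤ 3 := by omega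
      exact_mod_cast this
    have c10 : mz μ (y' - x) ≤ hm (y' - x) := mz_le_mean h (y' - x)
    refine ⟨y', hy1, ?_⟩
    have e1 : (1 + (((n + i : ℕ):ℝ) + j) / mc z) * mz μ z =
      mz μ z + ((n + i : ℕ):ℝ) / mc z * mz μ z + (j:ℝ) / mc z * mz μ z := by ring
    have g6 : ((0:ℕ):ℝ) = 0 := by norm_num
    rw [g6] at c4 c5
    rw [← hxdef] at c3 c5
    linarith
  · rintro ⟨i, l⟩ _ ⟨i2, l2⟩ _ heq
    have h1 := xp_inj hz0 u heq
    simp only [Prod.mk.injEq]
    omega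

open Classical in
/-- the sphere version of the counting argument -/
lemma half_of_spheres (h : Shape μ) {b ζ C : ℝ} (hb : 0 < b) (hζ : 0 < ζ) (hζb : ζ ≤ (1 - b) / 2)
    (hC : 0 < C) (hL : ∀ᶠ n : ℕ in atTop, nu.real {w | Sx (pw w) 0 n ((n:ℝ) ^ (b + ζ / 2))} ≤
      C * (n:ℝ) ^ (b - 1 + ζ / 2)) (hU : SeU μ (b + ζ / 2)) :
    ∀ᶠ n : ℕ in atTop, nu.real (BadBox μ n ((n:ℝ) ^ (b + ζ))) ≤ 1 / 2 := by
  set a : ℝ := b + ζ with ha
  set K1 : ℝ := 192 * 17 ^ 2 * C with hK1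
  have t40 : Tendsto (fun n : ℕ => 40 * n) atTop atTop :=
    tendsto_id.const_mul_atTop' (by norm_num)
  filter_upwards [numerics (a := a) (a' := b + ζ / 2) (by linarith) (by linarith) (by linarith),
    up_union h (show 0 < b + ζ / 2 by positivity) hU (M := 100) (by norm_num),
    nat_ev (rpow_small (K := 4 * K1) (show -(ζ / 2) < 0 by linarith)),
    nat_ev (rpow_small (K := 4) (show (-2:ℝ) < 0 by norm_num)), t40.eventually hL]
    with n hn hG h3 h4 hD
  obtain ⟨hn1, hLn, hL1, hL2, hA, hE⟩ := hn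
  rw [Real.rpow_zero] at h3 h4
  have hn' : (1:ℝ) ≤ n := by exact_mod_cast hn1
  have hn0 : (0:ℝ) < n := by linarith
  set L := ⌊(n:ℝ) ^ a / 96⌋₊ with hLd
  set A := (n:ℝ) ^ a with hAd
  set E := ((2 * (100 * n) : ℕ) : ℝ) ^ (b + ζ / 2) with hEd
  have hE1 : E ≤ A / 32 := by
    refine le_trans ?_ hE
    refine Real.rpow_le_rpow (by positivity) ?_ (by linarith)
    push_cast
    linarith
  have hE0 : 0 ≤ E := by positivity
  set g : ℝ := ((40 * n : ℕ) : ℝ) ^ (b + ζ / 2) with hg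
  have hg1 : g ≤ A / 32 := by
    refine le_trans ?_ hE
    refine Real.rpow_le_rpow (by positivity) ?_ (by linarith)
    push_cast
    linarith
  set Gc : Set (Ed → ℝ) := {w | ∃ x ∈ ball (100 * n) 0, ∃ y ∈ ball (100 * n) 0,
      mz μ (y - x) + E < TT (pw w) x y} with hGc
  let S : (ℤ × ℤ) → Set (Ed → ℝ) := fun x => {w | Sx (pw w) x (40 * n) g}
  set Q := ball (8 * n) 0 with hQ
  set K : ℝ := ((n * L : ℕ) : ℝ) with hK
  set F : Set (Ed → ℝ) := {w | K ≤ ((Q.filter (fun i => w ∈ S i)).card : ℝ)} with hF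
  have hsub : BadBox μ n A ⊆ Gc ∪ F := by
    intro w hw
    obtain ⟨u, hu, v, hv, hT⟩ := hw
    by_cases hg' : w ∈ Gc
    · exact Or.inl hg'
    · right
      simp only [hGc, Set.mem_ofPred_eq, not_exists, not_and, not_lt] at hg'
      have := spheres_many h (pw_nonneg w) hn1 hLn (g := g) (by linarith) (by linarith) hg' hu hv hT
      show K ≤ _
      rw [hK]
      refine Nat.cast_le.2 ?_
      convert this
      exact Iff.rfl
  have hSm : ∀ p, MeasurableSet (S p) := fun p => measurable_Sx _ _ _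
  have hexp : ((40 * n : ℕ) : ℝ) ^ (b - 1 + ζ / 2) ≤ (n:ℝ) ^ (b - 1 + ζ / 2) :=
    Real.rpow_le_rpow_of_nonpos hn0 (by push_cast; linarith) (by linarith)
  have hSp : ∀ p ∈ Q, nu.real (S p) ≤ C * (n:ℝ) ^ (b - 1 + ζ / 2) := by
    intro p _
    have e1 : nu.real (S p) = nu.real {w | Sx (pw w) 0 (40 * n) g} := Sx_sh p (40 * n) g
    rw [e1]
    refine hD.trans ?_
    gcongr
  have hcard : ((Q.card : ℕ) : ℝ) ≤ (17 * n) ^ 2 := by
    have e2 : (ball (8 * n) 0).card ≤ (17 * n) ^ 2 :=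
      (card_ball (8 * n)).trans (Nat.pow_le_pow_left (by omega) 2)
    exact_mod_cast e2
  have hmark : K * nu.real F ≤ ∑ p ∈ Q, nu.real (S p) := by convert count_markov Q S hSm K
  have hsum : ∑ p ∈ Q, nu.real (S p) ≤ (17 * n) ^ 2 * (C * (n:ℝ) ^ (b - 1 + ζ / 2)) := by
    calc ∑ p ∈ Q, nu.real (S p) ≤ ∑ _p ∈ Q, C * (n:ℝ) ^ (b - 1 + ζ / 2) := Finset.sum_le_sum hSp
      _ = Q.card * (C * (n:ℝ) ^ (b - 1 + ζ / 2)) := by rw [Finset.sum_const, nsmul_eq_mul]
      _ ≤ _ := by gcongr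
  have hKlow : n * (A / 192) ≤ K := by
    rw [hK]
    push_cast
    gcongr
  have hF0 : 0 ≤ nu.real F := measureReal_nonneg
  have hFle : nu.real F ≤ K1 * (n:ℝ) ^ (-(ζ / 2)) := by
    have hX : 0 < (n:ℝ) * A := by positivity
    refine le_of_mul_le_mul_right ?_ hX
    have e1 : (n:ℝ) ^ (2:ℕ) * (n:ℝ) ^ (b - 1 + ζ / 2) = (n:ℝ) ^ (-(ζ / 2)) * ((n:ℝ) * A) := by
      have e0 : (n:ℝ) * A = (n:ℝ) ^ (1 + a) := by
        rw [Real.rpow_add hn0, Real.rpow_one]
      rw [e0, ← Real.rpow_natCast (n:ℝ) 2, ← Real.rpow_add hn0, ← Real.rpow_add hn0]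
      congr 1
      push_cast
      rw [ha]
      ring
    have e2 : (n * (A / 192)) * nu.real F ≤ (17 * n) ^ 2 * (C * (n:ℝ) ^ (b - 1 + ζ / 2)) := by
      calc (n * (A / 192)) * nu.real F ≤ K * nu.real F := by gcongr
        _ ≤ _ := hmark.trans hsum
    calc nu.real F * ((n:ℝ) * A) = 192 * ((n * (A / 192)) * nu.real F) := by ring
      _ ≤ 192 * ((17 * n) ^ 2 * (C * (n:ℝ) ^ (b - 1 + ζ / 2))) := by gcongr
      _ = K1 * ((n:ℝ) ^ (2:ℕ) * (n:ℝ) ^ (b - 1 + ζ / 2)) := by rw [hK1]; ring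
      _ = K1 * (n:ℝ) ^ (-(ζ / 2)) * ((n:ℝ) * A) := by rw [e1]; ring
  have hfin := (measureReal_mono (μ := nu) hsub (measure_ne_top _ _)).trans (measureReal_union_le _ _)
  linarith

/-- one-point bounds give bounds for the spheres -/
lemma sphere_of_point {b ζ C : ℝ} (hb : 0 < b) (hζ : 0 < ζ) (hζb : ζ < 1 - b) (hC : 0 < C)
    (hL : ∀ v : ℤ × ℤ, v ≠ 0 → nu.real {w | TT (pw w) 0 v < hm v - (dd 0 v : ℝ) ^ (b + ζ / 2)} ≤
      C * (dd 0 v : ℝ) ^ (-(2 * (1 - b) - ζ / 2))) :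
    ∃ C' : ℝ, 0 < C' ∧ ∀ᶠ n : ℕ in atTop, nu.real {w | Sx (pw w) 0 n ((n:ℝ) ^ (b + ζ))} ≤
      C' * (n:ℝ) ^ (b - 1 + ζ) := by
  set q : ℝ := 2 * (1 - b) - ζ / 2 with hq
  have hq0 : 0 ≤ q := by rw [hq]; linarith
  set K1 : ℝ := 160000 * (C * 2 ^ q) with hK1
  refine ⟨K1 + 1, by positivity, ?_⟩
  filter_upwards [rd_numerics (a := b + ζ) (by linarith) (by linarith),
    nat_ev (rpow_small (K := 8 * 402 ^ (b + ζ / 2)) (show b + ζ / 2 < b + ζ by linarith))]
    with n hn h1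
  obtain ⟨hn1, hs1, hs8, hslow, hsup, hrd⟩ := hn
  have hn' : (1:ℝ) ≤ n := by exact_mod_cast hn1
  have hn0 : (0:ℝ) < n := by linarith
  set s := ⌊(n:ℝ) ^ (b + ζ) / 400⌋₊ with hs
  set A := (n:ℝ) ^ (b + ζ) with hA
  have hA0 : 0 < A := by positivity
  have hs0 : (0:ℝ) < s := by exact_mod_cast hs1
  have hnum : (402 * (n:ℝ)) ^ (b + ζ / 2) ≤ A / 8 := by
    rw [Real.mul_rpow (by norm_num) hn0.le]
    linarith
  set E1 : Set (Ed → ℝ) := ⋃ y ∈ nb s n 0, {w | TT (pw w) 0 y < hm y - A / 8} with hE1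
  have hnb : ∀ y ∈ nb s n 0, n ≤ 2 * dd 0 y ∧ 2 * dd 0 y ≤ 3 * n := by
    intro y hy
    rw [nb, Finset.mem_filter] at hy
    obtain ⟨-, g1, g2⟩ := hy
    constructor <;> omega
  have hcard : ((nb s n 0).card : ℝ) ≤ 160000 * (n:ℝ) ^ (1 - (b + ζ)) := by
    refine (card_nb hs1 (by omega)).trans ?_
    have e1 : (n:ℝ) / s ≤ (n:ℝ) / (A / 800) := by gcongr
    have e2 : (n:ℝ) / (A / 800) = 800 * (n:ℝ) ^ (1 - (b + ζ)) := by
      rw [Real.rpow_sub hn0, Real.rpow_one, hA]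
      field_simp
    linarith
  have b1 : nu.real E1 ≤ K1 * (n:ℝ) ^ (b - 1 + ζ) := by
    calc nu.real E1 ≤ ∑ y ∈ nb s n 0, nu.real {w | TT (pw w) 0 y < hm y - A / 8} :=
          measureReal_biUnion_finset_le _ _
      _ ≤ ∑ _y ∈ nb s n 0, C * 2 ^ q * (n:ℝ) ^ (-q) := by
          refine Finset.sum_le_sum fun y hy => ?_
          have := hnb y hy
          exact low_at hC hq0 (by linarith) hL hn1 hnum (by omega) (by omega)
      _ = (nb s n 0).card * (C * 2 ^ q * (n:ℝ) ^ (-q)) := by rw [Finset.sum_const, nsmul_eq_mul]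
      _ ≤ (160000 * (n:ℝ) ^ (1 - (b + ζ))) * (C * 2 ^ q * (n:ℝ) ^ (-q)) := by gcongr
      _ = K1 * ((n:ℝ) ^ (1 - (b + ζ)) * (n:ℝ) ^ (-q)) := by rw [hK1]; ring
      _ ≤ K1 * (n:ℝ) ^ (b - 1 + ζ) := by
          rw [← Real.rpow_add hn0]
          exact mul_le_mul_of_nonneg_left
            (Real.rpow_le_rpow_of_exponent_le hn' (by rw [hq]; linarith)) (by positivity)
  have hsub : {w | Sx (pw w) 0 n A} ⊆ E1 ∪ RdBad s n := by
    rintro w ⟨z, hz, hT⟩
    by_contra hcon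
    rw [Set.mem_union, not_or] at hcon
    obtain ⟨n1, n3⟩ := hcon
    simp only [hE1, RdBad, Set.mem_iUnion, Set.mem_ofPred_eq, exists_prop, not_exists,
      not_and, not_lt, not_le, not_or] at n1 n3
    rw [sub_zero] at hT
    have r1 := n3 z (by rw [mem_ball]; omega)
    have r2 := n1 _ (rd_nb hs1 hz)
    have t1 := TT_tri (pw_nonneg w) 0 z (rd s z)
    have l1 := hm_lip (rd s z) z
    have d1 : (dd (rd s z) z : ℝ) ≤ 2 * s := by
      have := dd_rd hs1 z
      rw [dd_comm] at this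
      exact_mod_cast this
    linarith [r1.1, r1.2]
  refine (measureReal_mono hsub (measure_ne_top _ _)).trans ((measureReal_union_le _ _).trans ?_)
  have e1 := (rdBad_le (s := s) (R := n) hs1).trans hrd
  have e2 : (n:ℝ) ^ (-2:ℝ) ≤ (n:ℝ) ^ (b - 1 + ζ) :=
    Real.rpow_le_rpow_of_exponent_le hn' (by linarith)
  rw [add_mul, one_mul]
  linarith

/-- the spheres give one-point bounds -/
lemma point_of_sphere {b ζ C : ℝ} (hζb : ζ < 1 - b) (hC : 0 < C)
    (hL : ∀ᶠ n : ℕ in atTop, nu.real {w | Sx (pw w) 0 n ((n:ℝ) ^ (b + ζ))} ≤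
      C * (n:ℝ) ^ (b - 1 + ζ)) :
    ∃ C' : ℝ, 0 < C' ∧ ∀ v : ℤ × ℤ, v ≠ 0 →
      nu.real {w | TT (pw w) 0 v < hm v - (dd 0 v : ℝ) ^ (b + ζ)} ≤
        C' * (dd 0 v : ℝ) ^ (-(1 - b - ζ)) := by
  refine of_ev (P := fun v => nu.real {w | TT (pw w) 0 v < hm v - (dd 0 v : ℝ) ^ (b + ζ)})
    (fun v => measureReal_le_one) (by linarith) hC ?_
  filter_upwards [hL] with n hn v hv
  rw [show -(1 - b - ζ) = b - 1 + ζ by ring]
  refine le_trans (measureReal_mono ?_ (measure_ne_top _ _)) hn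
  intro w hw
  have hw' : TT (pw w) 0 v < hm v - (dd 0 v : ℝ) ^ (b + ζ) := hw
  rw [hv] at hw'
  exact ⟨v, hv, by rwa [sub_zero]⟩

/-- the upper tail about the time constant from a slow rate of the lower tail about the mean -/
lemma up_weak_of_slow (h : Shape μ) {b : ℝ} (hb : 0 < b) (hb1 : b < 1)
    (hL : ∀ ζ : ℝ, 0 < ζ → ζ < 1 - b → ∃ C : ℝ, 0 < C ∧ ∀ v : ℤ × ℤ, v ≠ 0 →
      nu.real {w | TT (pw w) 0 v < hm v - (dd 0 v : ℝ) ^ (b + ζ)} ≤
        C * (dd 0 v : ℝ) ^ (-(1 - b - ζ))) {a : ℝ} (ha : b < a) {e : ℝ} (he : 0 < e) :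
    ∀ᶠ n : ℕ in atTop, ∀ v : ℤ × ℤ, dd 0 v = n →
      nu.real {w | mz μ v + (n:ℝ) ^ a < TT (pw w) 0 v} ≤ e := by
  set ζ : ℝ := min ((a - b) / 2) ((1 - b) / 2) with hζ
  have h0 : 0 < ζ := lt_min (by linarith) (by linarith)
  have h1 : ζ ≤ (a - b) / 2 := min_le_left _ _
  have h2 : ζ ≤ (1 - b) / 2 := min_le_right _ _
  obtain ⟨C1, hC1, hM⟩ := mean_bound_slow h hb hb1 hL (a := b + ζ) (by linarith) (by linarith)
  obtain ⟨C, hC, hC'⟩ := hL ζ h0 (by linarith)
  have hneg := neg_part (a := b + ζ) (q := 1 - b - ζ) (by linarith) hC hC'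
  filter_upwards [eventually_ge_atTop 1,
    nat_ev (rpow_small (K := 2 * C1) (show b + ζ < a by linarith)),
    nat_ev (rpow_small (K := (1 + 2 * C) * (2 / e)) (show b + ζ < a by linarith))] with n hn1 h3 h4 v hv
  have hn' : (1:ℝ) ≤ n := by exact_mod_cast hn1
  have hn0 : (0:ℝ) < n := by linarith
  have hv0 : v ≠ 0 := by
    rintro rfl
    rw [dd_self] at hv
    omega
  have e1 := hM v
  have e2 := (pos_markov (v := v) (s := (n:ℝ) ^ a / 2)).trans (hneg v hv0)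
  rw [hv] at e1 e2
  have e3 : nu.real {w | mz μ v + (n:ℝ) ^ a < TT (pw w) 0 v} ≤
      nu.real {w | hm v + (n:ℝ) ^ a / 2 ≤ TT (pw w) 0 v} := by
    refine measureReal_mono ?_ (measure_ne_top _ _)
    intro w hw
    have hw' : mz μ v + (n:ℝ) ^ a < TT (pw w) 0 v := hw
    show hm v + (n:ℝ) ^ a / 2 ≤ TT (pw w) 0 v
    linarith
  refine e3.trans ?_
  have hA : 0 < (n:ℝ) ^ a / 2 := by positivity
  refine le_of_mul_le_mul_left (e2.trans ?_) hA
  calc (1 + 2 * C) * (n:ℝ) ^ (b + ζ) = (e / 2) * ((1 + 2 * C) * (2 / e) * (n:ℝ) ^ (b + ζ)) := by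
        field_simp
    _ ≤ (e / 2) * (n:ℝ) ^ a := by gcongr
    _ = _ := by ring

end Pool.Agent.H69.FP
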