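import Pool.Agent.H69.FP.C

/-!
# A fast pair which is short: aligned sources at a large distance
-/

set_option autoImplicit false

open MeasureTheory ProbabilityTheory Finset Filter
open scoped Topology

namespace Pool.Agent.H69.FP

open Q70.Fp Q69.FL

variable {μ : ℝ × ℝ → ℝ}

lemma dd_zero_sub (x y : ℤ × ℤ) : dd 0 (y - x) = dd x y := by
  simp only [dd, Prod.fst_sub, Prod.snd_sub, Prod.fst_zero, Prod.snd_zero]
  omega

/-- a point behind `u` is nearly aligned with `u` and `v` -/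
lemma align (h : Shape μ) {z : ℤ × ℤ} (hz : z ≠ 0) {u v : ℤ × ℤ} (hv : v - u = z) {k l : ℕ}
    (hk : 1 ≤ k) : mz μ (u - xp u z k l) + mz μ z ≤
      mz μ (v - xp u z k l) + 6 * (mc z * (l + 2)) / k := by
  have hN := mc_pos hz
  have hk0 : (0:ℝ) < k := by exact_mod_cast hk
  set a := u - xp u z k l with ha
  have ea : a = pt z (mc z) k - (l:ℤ) • ev z := by rw [ha]; unfold xp; abel
  have eb : v - xp u z k l = a + z := by rw [ha, ← hv]; abel
  rw [eb]
  have d1 : dd (((mc z : ℕ):ℤ) • a) ((k:ℤ) • z) ≤ mc z * (l + 2) := by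
    have e1 : ((mc z : ℕ):ℤ) • a = ((mc z : ℕ):ℤ) • pt z (mc z) k -
        (((mc z * l : ℕ):ℤ)) • ev z := by
      rw [ea, smul_sub, smul_smul]
      push_cast
      rfl
    rw [e1]
    have f1 := dd_sub (((mc z : ℕ):ℤ) • pt z (mc z) k) ((((mc z * l : ℕ):ℤ)) • ev z)
      ((k:ℤ) • z) 0
    rw [sub_zero, dd_comm _ (0 : ℤ × ℤ), dd_smul_ev, Int.natAbs_natCast] at f1
    have f2 := pt_near z hN k
    calc _ ≤ 2 * mc z + mc z * l := by omega
      _ = mc z * (l + 2) := by ring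
  have d2 : dd (((k + mc z : ℕ):ℤ) • a) ((k:ℤ) • (a + z)) ≤ mc z * (l + 2) := by
    have e1 : ((k + mc z : ℕ):ℤ) • a = (k:ℤ) • a + ((mc z : ℕ):ℤ) • a := by
      push_cast
      rw [add_smul]
    rw [e1, smul_add]
    refine (dd_add_le _ _ _ _).trans ?_
    rw [dd_self, zero_add]
    exact d1
  have m1 := (mz_near h d1).2
  have m2 := mz_lip h ((k:ℤ) • (a + z)) (((k + mc z : ℕ):ℤ) • a)
  rw [mz_smul h, mz_smul h, dd_comm] at m2
  have m3 : (dd (((k + mc z : ℕ):ℤ) • a) ((k:ℤ) • (a + z)) : ℝ) ≤ ((mc z * (l + 2) : ℕ) : ℝ) := by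
    exact_mod_cast d2
  push_cast at m1 m2 m3
  rw [← sub_le_iff_le_add', le_div_iff₀ hk0]
  nlinarith

lemma dd_x_u {z : ℤ × ℤ} (hz : z ≠ 0) (u : ℤ × ℤ) (k l : ℕ) :
    dd (xp u z k l) u ≤ (2 * k + 2) + l := by
  have hN := mc_pos hz
  have h1 := (pt_dd z hN (Nat.zero_le k)).1
  rw [pt_zero, Nat.sub_zero] at h1
  have h2 : dd 0 (pt z (mc z) k) ≤ 2 * k + 2 := by
    have h3 := dd_le_mc z
    have h4 : k * dd 0 z ≤ k * (2 * mc z) := Nat.mul_le_mul_left _ h3
    refine le_of_mul_le_mul_left (a := mc z) ?_ hN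
    calc mc z * dd 0 (pt z (mc z) k) ≤ k * (2 * mc z) + 2 * mc z := by omega
      _ = mc z * (2 * k + 2) := by ring
  have e1 : u - xp u z k l = pt z (mc z) k - (l:ℤ) • ev z := by unfold xp; abel
  rw [← dd_zero_sub, e1]
  have f1 := dd_sub 0 0 (pt z (mc z) k) ((l:ℤ) • ev z)
  rw [sub_zero, dd_smul_ev, Int.natAbs_natCast] at f1
  omega

/-- a fast pair near `c` which is aligned with `x` -/
def Hb (μ : ℝ × ℝ → ℝ) (W : Ed → ℝ) (s N L : ℕ) (g : ℝ) (c x : ℤ × ℤ) : Prop :=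
  ∃ u ∈ ball (2 * s) c, ∃ v ∈ ball s u, TB W (66 * s) u v < mz μ (v - u) - g ∧
    ∃ i < N, ∃ l < L, xp u (v - u) (N + i) l = x

lemma TB_nonneg' {w : Ed → ℝ} (hw : ∀ e, 0 ≤ w e) {R : ℕ} {x y : ℤ × ℤ} (h : dd x y ≤ R) :
    0 ≤ TB w R x y := (TT_nonneg hw x y).trans (TT_le_TB hw h)

/-- an aligned fast pair makes the cluster of the source large -/
lemma leaves_one (h : Shape μ) {w : Ed → ℝ} (hw : ∀ e, 0 ≤ w e) {s N L : ℕ} (hN : 1 ≤ N)
    (hsN : s ≤ N) (hL : L ≤ N) {E D S g τ : ℝ} (hg0 : 0 ≤ g) (hD : 6 * (s * (L + 2 : ℝ)) / N ≤ D)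
    (hg : 30 + D + 2 * E + (S - τ) ≤ g)
    (hS : 24 * (N:ℝ) ≤ S) (hS' : S ≤ 48 * N)
    (G : ∀ x ∈ ball (3100 * N) 0, ∀ y ∈ ball (3100 * N) 0, TT w x y ≤ mz μ (y - x) + E)
    {c : ℤ × ℤ} (hH : Hb μ w s N L g c 0) : Dx μ w 0 τ S := by
  obtain ⟨u, -, v, hv, hT, i, hi, l, hl, hx⟩ := hH
  rw [mem_ball] at hv
  set z := v - u with hz
  have hTuv := TT_le_TB hw (R := 66 * s) (x := u) (y := v) (by omega)
  have hz0 : z ≠ 0 := by
    intro h0
    rw [h0, mz_zero h] at hT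
    have := TB_nonneg' hw (R := 66 * s) (x := u) (y := v) (by omega)
    linarith
  have hN0 : (0:ℝ) < N := by exact_mod_cast hN
  have hN1 : (1:ℝ) ≤ N := by exact_mod_cast hN
  have hdu : dd 0 u ≤ 7 * N := by
    have := dd_x_u hz0 u (N + i) l
    rw [hx] at this
    omega
  have hdv : dd 0 v ≤ 8 * N := by
    have := dd_tri 0 u v
    omega
  have hdv' : N ≤ dd 0 v := by
    have := far_xy hz0 hz.symm (N + i) l 0 0
    have hy0 : yp v z 0 0 = v := by simp [yp, pt_zero]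
    rw [hx, hy0, sub_zero] at this
    omega
  have hv0 : v ≠ 0 := by
    rintro rfl
    rw [dd_self] at hdv'
    omega
  have hx0 : xp 0 v 0 0 = 0 := by simp [xp, pt_zero]
  have hal : mz μ u + mz μ z ≤ mz μ v + D := by
    have g1 := align h hz0 hz.symm (k := N + i) (l := l) (by omega)
    rw [hx, sub_zero, sub_zero] at g1
    refine g1.trans ((add_le_add_iff_left _).2 (le_trans ?_ hD))
    have g2 : (mc z : ℝ) ≤ s := by
      have e1 := mc_le_dd z
      have e2 : dd 0 z = dd u v := by rw [hz, dd_zero_sub]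
      have : mc z ≤ s := by omega
      exact_mod_cast this
    have g3 : (l:ℝ) ≤ L := by exact_mod_cast hl.le
    have g4 : (N:ℝ) ≤ ((N + i : ℕ) : ℝ) := by push_cast; linarith [(Nat.cast_nonneg i : (0:ℝ) ≤ i)]
    have g5 : (0:ℝ) ≤ mc z := Nat.cast_nonneg _
    have g6 : (0:ℝ) ≤ l := Nat.cast_nonneg _
    have g7 : (0:ℝ) ≤ s := Nat.cast_nonneg _
    gcongr
  -- existence of a far point
  have hlow : ∀ j : ℕ, (j:ℝ) / 22 ≤ mz μ (yp v v j 0) + 12 := by
    intro j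
    have g1 := xy_near h hv0 (u := 0) (v := v) (sub_zero v) 0 0 j 0
    rw [hx0, sub_zero] at g1
    have g2 := mz_low h v
    have g3 : (mc v : ℝ) ≤ dd 0 v := by exact_mod_cast mc_le_dd v
    have hM := mc_pos hv0
    have hM' : (0:ℝ) < mc v := by positivity
    have g4 : (mc v : ℝ) / 22 ≤ mz μ v := by linarith
    have g5 : (j:ℝ) / 22 ≤ (1 + (((0 : ℕ):ℝ) + j) / mc v) * mz μ v := by
      calc (j:ℝ) / 22 = ((j:ℝ) / mc v) * ((mc v : ℝ) / 22) := by field_simp
        _ ≤ (1 + (((0 : ℕ):ℝ) + j) / mc v) * mz μ v := by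
          refine mul_le_mul ?_ g4 (by positivity) (by positivity)
          rw [Nat.cast_zero, zero_add]
          linarith
    have g6 : ((0:ℕ):ℝ) = 0 := by norm_num
    rw [g6] at g1 g5
    linarith
  set j0 : ℕ := 1500 * N with hj0
  have hex : ∃ j : ℕ, S < mz μ (yp v v j 0) := by
    refine ⟨j0, ?_⟩
    have g1 := hlow j0
    have g2 : (j0:ℝ) = 1500 * N := by rw [hj0]; push_cast; ring
    rw [g2] at g1
    linarith
  set j := Nat.find hex with hj
  have hj1 : S < mz μ (yp v v j 0) := Nat.find_spec hex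
  have hj2 : j ≤ j0 := by
    refine Nat.find_min' hex ?_
    have g1 := hlow j0
    have g2 : (j0:ℝ) = 1500 * N := by rw [hj0]; push_cast; ring
    rw [g2] at g1
    linarith
  have hy0 : yp v v 0 0 = v := by simp [yp, pt_zero]
  have hjpos : j ≠ 0 := by
    intro h0
    rw [h0, hy0] at hj1
    have g1 := mz_up h v
    have g3 : (dd 0 v : ℝ) ≤ 8 * N := by exact_mod_cast hdv
    linarith
  obtain ⟨j', hj'⟩ : ∃ j', j = j' + 1 := ⟨j - 1, by omega⟩
  have hj3 : mz μ (yp v v j' 0) ≤ S := by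
    by_contra hc
    have := Nat.find_min' hex (not_le.1 hc)
    omega
  have hj4 : mz μ (yp v v j 0) ≤ S + 12 := by
    have g1 := mz_lip h (yp v v j' 0) (yp v v j 0)
    have g2 : dd (yp v v j' 0) (yp v v j 0) ≤ 4 := by
      have f2 : dd (yp v v j' 0) (yp v v j 0) ≤ dd (pt v (mc v) j') (pt v (mc v) j) := by
        simp only [dd, yp, Prod.fst_add, Prod.snd_add]
        omega
      have f3 := (pt_dd v (mc_pos hv0) (show j' ≤ j by omega)).1
      have f4 : j - j' = 1 := by omega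
      rw [f4, one_mul] at f3
      have f5 := dd_le_mc v
      have f6 : dd (pt v (mc v) j') (pt v (mc v) j) ≤ 4 := by
        refine le_of_mul_le_mul_left (a := mc v) ?_ (mc_pos hv0)
        omega
      omega
    have g3 : (dd (yp v v j' 0) (yp v v j 0) : ℝ) ≤ 4 := by exact_mod_cast g2
    linarith
  refine ⟨yp v v j 0, by rwa [sub_zero], ?_⟩
  have hy : yp v v j 0 ∈ ball (3100 * N) 0 := by
    rw [mem_ball]
    have := dd_yp hv0 v j 0
    omega
  have hx' : (0 : ℤ × ℤ) ∈ ball (3100 * N) 0 := by rw [mem_ball, dd_self]; omega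
  have hu' : u ∈ ball (3100 * N) 0 := by rw [mem_ball]; omega
  have hv' : v ∈ ball (3100 * N) 0 := by rw [mem_ball]; omega
  have t1 := G _ hx' _ hu'
  have t2 := G _ hv' _ hy
  rw [sub_zero] at t1
  have t3 := TT_tri hw 0 u (yp v v j 0)
  have t4 := TT_tri hw u v (yp v v j 0)
  have t5 := yp_near h hv0 v j 0
  have t6 := xy_near h hv0 (u := 0) (v := v) (sub_zero v) 0 0 j 0
  rw [hx0, sub_zero] at t6
  have g6 : ((0:ℕ):ℝ) = 0 := by norm_num
  rw [g6] at t5 t6
  rw [zero_add] at t6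
  have e1 : (1 + (j:ℝ) / mc v) * mz μ v = mz μ v + (j:ℝ) / mc v * mz μ v := by ring
  linarith

open Classical in
/-- a fast pair is aligned with many sources -/
lemma sources_many (h : Shape μ) {w : Ed → ℝ} (hw : ∀ e, 0 ≤ w e) {s N L : ℕ}
    (hsN : 2 * s ≤ N) (hL : L ≤ N) {g : ℝ} (hg0 : 0 ≤ g)
    (hF : Q69.FM.Fb (mz μ) w s g 0) :
    N * L ≤ ((ball (8 * N) 0).filter (fun x => Hb μ w s N L g 0 x)).card := by
  obtain ⟨u, hu, v, hv, hT⟩ := hF
  have hz0 : v - u ≠ 0 := by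
    intro h0
    rw [h0, mz_zero h] at hT
    have h1 := mem_ball.1 hv
    have := TB_nonneg' hw (R := 66 * s) (x := u) (y := v) (by omega)
    linarith
  have hu1 := mem_ball.1 hu
  have e1 : N * L = (Finset.range N ×ˢ Finset.range L).card := by
    simp only [Finset.card_product, Finset.card_range]
  rw [e1]
  refine Finset.card_le_card_of_injOn (fun q => xp u (v - u) (N + q.1) q.2) ?_ ?_
  · rintro ⟨i, l⟩ hq
    simp only [Finset.coe_product, Set.mem_prod, Finset.mem_coe, Finset.mem_range] at hq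
    obtain ⟨hi, hl⟩ := hq
    have hdx := dd_xp hz0 u (N + i) l
    simp only [Finset.coe_filter, Set.mem_ofPred_eq]
    refine ⟨?_, u, hu, v, hv, hT, i, hi, l, hl, rfl⟩
    rw [mem_ball]
    omega
  · rintro ⟨i, l⟩ _ ⟨i2, l2⟩ _ heq
    have h1 := xp_inj hz0 u heq
    simp only [Prod.mk.injEq]
    omega

end Pool.Agent.H69.FP
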