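import Pool.Agent.H69.FP.I

/-!
# Independence of the aligned fast pairs in boxes which are far from each other
-/

set_option autoImplicit false

open MeasureTheory ProbabilityTheory Finset Filter
open scoped Topology

namespace Pool.Agent.H69.FP

open Q70.Fp Q69.FL

variable {μ : ℝ × ℝ → ℝ}

lemma Hb_set (s N L : ℕ) (g : ℝ) (c x : ℤ × ℤ) : {w : Ed → ℝ | Hb μ (pw w) s N L g c x} =
    ⋃ u ∈ ball (2 * s) c, ⋃ v ∈ ball s u, {w | TB (pw w) (66 * s) u v < mz μ (v - u) - g ∧
      ∃ i < N, ∃ l < L, xp u (v - u) (N + i) l = x} := by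
  ext w
  simp only [Hb, Set.mem_ofPred_eq, Set.mem_iUnion, exists_prop]

lemma measurable_Hb (s N L : ℕ) (g : ℝ) (c x : ℤ × ℤ) :
    MeasurableSet {w : Ed → ℝ | Hb μ (pw w) s N L g c x} := by
  rw [Hb_set]
  refine Finset.measurableSet_biUnion _ fun u _ => Finset.measurableSet_biUnion _ fun v _ => ?_
  by_cases hy : ∃ i < N, ∃ l < L, xp u (v - u) (N + i) l = x
  · simp only [hy, and_true]
    exact measurableSet_lt (measurable_TB _ _ _) measurable_const
  · simp only [hy, and_false]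
    exact MeasurableSet.empty

lemma Hb_dep {s N L : ℕ} {g : ℝ} {c x : ℤ × ℤ} {w w' : Ed → ℝ}
    (h : ∀ e ∈ be (68 * s) c, w e = w' e) :
    Hb μ (pw w) s N L g c x ↔ Hb μ (pw w') s N L g c x := by
  unfold Hb
  refine exists_congr fun u => and_congr_right fun hu => ?_
  have : ∀ v, TB (pw w) (66 * s) u v = TB (pw w') (66 * s) u v := by
    intro v
    refine TB_dep fun e => ?_
    refine Sym2.inductionOn e fun a b => ?_
    intro he
    refine h _ ?_
    rw [mem_be] at he ⊢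
    rw [mem_ball] at hu
    have h1 := dd_tri c u a
    have h2 := dd_tri c u b
    omega
  simp only [this]

lemma xp_sub (u z c : ℤ × ℤ) (k l : ℕ) : xp (u - c) z k l = xp u z k l - c := by
  unfold xp
  abel

lemma Hb_sh (s N L : ℕ) (g : ℝ) (c x : ℤ × ℤ) :
    nu.real {w | Hb μ (pw w) s N L g c x} = nu.real {w | Hb μ (pw w) s N L g 0 (x - c)} := by
  have hmb : Measurable (sh c) := measurable_pi_iff.2 fun e => measurable_pi_apply _
  conv_rhs => rw [← map_sh c]
  rw [map_measureReal_apply hmb (measurable_Hb s N L g 0 (x - c))]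
  congr 1
  ext w
  simp only [Set.mem_preimage, Set.mem_ofPred_eq, Hb, Q69.FM.TB_sh]
  constructor
  · rintro ⟨u, hu, v, hv, huv, i, hi, l, hl, hx⟩
    rw [mem_ball] at hu hv
    refine ⟨u - c, ?_, v - c, ?_, ?_, i, hi, l, hl, ?_⟩
    · rw [mem_ball, ← dd_add 0 (u - c) c]
      simpa using hu
    · rw [mem_ball, ← dd_add (u - c) (v - c) c]
      simpa using hv
    · rw [show v - c - (u - c) = v - u by abel, show u - c + c = u by abel,
        show v - c + c = v by abel]
      exact huv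
    · rw [show v - c - (u - c) = v - u by abel, xp_sub, hx]
  · rintro ⟨u, hu, v, hv, huv, i, hi, l, hl, hx⟩
    rw [mem_ball] at hu hv
    refine ⟨u + c, ?_, v + c, ?_, ?_, i, hi, l, hl, ?_⟩
    · rw [mem_ball]
      have := dd_add 0 u c
      rw [zero_add] at this
      rw [this]
      exact hu
    · rw [mem_ball, dd_add]
      exact hv
    · rw [show v + c - (u + c) = v - u by abel]
      exact huv
    · rw [show v + c - (u + c) = v - u by abel]
      have := xp_sub (u + c) (v - u) c (N + i) l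
      rw [show u + c - c = u by abel, hx] at this
      have h2 := congrArg (· + c) this
      simpa using h2.symm

lemma indep_Hb (Q : Finset (ℤ × ℤ)) (s N L : ℕ) (g : ℝ) (x : ℤ × ℤ)
    (hc : ∀ i ∈ Q, ∀ j ∈ Q, i ≠ j → 2 * (68 * s) < dd i j) :
    nu.real {w | ∀ c ∈ Q, ¬ Hb μ (pw w) s N L g c x} =
      ∏ c ∈ Q, (1 - nu.real {w | Hb μ (pw w) s N L g c x}) := by
  classical
  have hmeas : ∀ c, MeasurableSet {w : Ed → ℝ | ¬ Hb μ (pw w) s N L g c x} := fun c =>
    (measurable_Hb s N L g c x).compl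
  have hone : ∀ c, nu.real {w : Ed → ℝ | ¬ Hb μ (pw w) s N L g c x} =
      1 - nu.real {w | Hb μ (pw w) s N L g c x} := by
    intro c
    have e1 := measureReal_compl (μ := nu) (measurable_Hb (μ := μ) s N L g c x)
    rw [probReal_univ] at e1
    exact e1
  have hms : MeasurableSet {w : Ed → ℝ | ∀ c ∈ Q, ¬ Hb μ (pw w) s N L g c x} := by
    have : {w : Ed → ℝ | ∀ c ∈ Q, ¬ Hb μ (pw w) s N L g c x} =
        ⋂ c ∈ Q, {w : Ed → ℝ | ¬ Hb μ (pw w) s N L g c x} := by
      ext w; simp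
    rw [this]
    exact Finset.measurableSet_biInter _ fun i _ => hmeas i
  have e1 : nu.real {w | ∀ c ∈ Q, ¬ Hb μ (pw w) s N L g c x} =
      ∫ w, ∏ c ∈ Q, Set.indicator {w : Ed → ℝ | ¬ Hb μ (pw w) s N L g c x}
        (1 : (Ed → ℝ) → ℝ) w ∂nu := by
    rw [← integral_indicator_one hms]
    refine integral_congr_ae (Eventually.of_forall fun w => ?_)
    beta_reduce
    by_cases hw : ∀ c ∈ Q, ¬ Hb μ (pw w) s N L g c x
    · rw [Set.indicator_of_mem
        (show w ∈ {w : Ed → ℝ | ∀ c ∈ Q, ¬ Hb μ (pw w) s N L g c x} from hw)]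
      rw [Finset.prod_eq_one]
      · rfl
      · intro i hi
        rw [Set.indicator_of_mem
          (show w ∈ {w : Ed → ℝ | ¬ Hb μ (pw w) s N L g i x} from hw i hi)]
        rfl
    · rw [Set.indicator_of_notMem
        (show w ∉ {w : Ed → ℝ | ∀ c ∈ Q, ¬ Hb μ (pw w) s N L g c x} from hw)]
      push Not at hw
      obtain ⟨i, hi, hi'⟩ := hw
      symm
      refine Finset.prod_eq_zero hi ?_
      rw [Set.indicator_of_notMem (show w ∉ {w : Ed → ℝ | ¬ Hb μ (pw w) s N L g i x} from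
        fun h => h hi')]
  rw [e1, integral_prod_disj Q (fun c => be (68 * s) c)
    (fun c => Set.indicator {w : Ed → ℝ | ¬ Hb μ (pw w) s N L g c x} (1 : (Ed → ℝ) → ℝ))]
  · refine Finset.prod_congr rfl fun i _ => ?_
    rw [integral_indicator_one (hmeas i), hone i]
  · intro i
    exact measurable_one.indicator (hmeas i)
  · intro i w w' hw
    have := Hb_dep (μ := μ) (N := N) (L := L) (g := g) (x := x) hw
    by_cases h5 : Hb μ (pw w) s N L g i x
    · rw [Set.indicator_of_notMem (show w ∉ {w : Ed → ℝ | ¬ Hb μ (pw w) s N L g i x} from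
          fun h => h h5),
        Set.indicator_of_notMem (show w' ∉ {w : Ed → ℝ | ¬ Hb μ (pw w) s N L g i x} from
          fun h => h (this.1 h5))]
    · rw [Set.indicator_of_mem (show w ∈ {w : Ed → ℝ | ¬ Hb μ (pw w) s N L g i x} from h5),
        Set.indicator_of_mem (show w' ∈ {w : Ed → ℝ | ¬ Hb μ (pw w) s N L g i x} from
          fun h6 => h5 (this.2 h6))]
      rfl
  · intro i hi j hj hij
    exact be_disj (hc i hi j hj hij)

lemma prod_le_exp {ι : Type*} (Q : Finset ι) (q : ι → ℝ)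
    (h1 : ∀ i ∈ Q, q i ≤ 1) : ∏ i ∈ Q, (1 - q i) ≤ Real.exp (-∑ i ∈ Q, q i) := by
  rw [← Finset.sum_neg_distrib, Real.exp_sum]
  exact Finset.prod_le_prod (fun i hi => by linarith [h1 i hi])
    (fun i _ => Real.one_sub_le_exp_neg (q i))

lemma neg_ball (R : ℕ) : (ball R 0).image (fun c : ℤ × ℤ => 0 - c) = ball R 0 := by
  ext x
  simp only [Finset.mem_image, mem_ball]
  constructor
  · rintro ⟨c, hc, rfl⟩
    rw [dd_zero_sub, dd_comm]
    exact hc
  · intro hx
    refine ⟨0 - x, ?_, by abel⟩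
    rw [dd_zero_sub, dd_comm]
    exact hx

open Classical in
lemma sum_Hb (h : Shape μ) {s N L : ℕ} (hsN : 2 * s ≤ N) (hL : L ≤ N) {g : ℝ} (hg0 : 0 ≤ g) :
    ((N * L : ℕ) : ℝ) * nu.real {w | Q69.FM.Fb (mz μ) (pw w) s g 0} ≤
      ∑ c ∈ ball (8 * N) 0, nu.real {w | Hb μ (pw w) s N L g c 0} := by
  have e1 : ∑ c ∈ ball (8 * N) 0, nu.real {w | Hb μ (pw w) s N L g c 0} =
      ∑ x ∈ ball (8 * N) 0, nu.real {w | Hb μ (pw w) s N L g 0 x} := by
    conv_rhs => rw [← neg_ball]
    rw [Finset.sum_image (fun a _ b _ hab => by simpa using hab)]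
    exact Finset.sum_congr rfl fun c _ => Hb_sh s N L g c 0
  rw [e1]
  have hmark := count_markov (ball (8 * N) 0) (fun x => {w | Hb μ (pw w) s N L g 0 x})
    (fun x => measurable_Hb s N L g 0 x) ((N * L : ℕ) : ℝ)
  refine le_trans ?_ (le_trans hmark (le_of_eq ?_))
  · refine mul_le_mul_of_nonneg_left ?_ (Nat.cast_nonneg _)
    refine measureReal_mono ?_ (measure_ne_top _ _)
    intro w hw
    have := sources_many h (pw_nonneg w) hsN hL hg0 hw
    show ((N * L : ℕ) : ℝ) ≤ _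
    refine Nat.cast_le.2 ?_
    convert this
    exact Iff.rfl
  · rfl

/-- the residue of a point -/
def rs (M : ℕ) (c : ℤ × ℤ) : ℕ × ℕ := ((c.1 % M).toNat, (c.2 % M).toNat)

lemma rs_mem {M : ℕ} (hM : 1 ≤ M) (c : ℤ × ℤ) :
    rs M c ∈ Finset.range M ×ˢ Finset.range M := by
  have h0 : (0:ℤ) < M := by exact_mod_cast hM
  have h1 := Int.emod_nonneg c.1 h0.ne'
  have h2 := Int.emod_nonneg c.2 h0.ne'
  have h3 := Int.emod_lt_of_pos c.1 h0
  have h4 := Int.emod_lt_of_pos c.2 h0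
  simp only [rs, Finset.mem_product, Finset.mem_range]
  omega

lemma rs_far {M : ℕ} (hM : 1 ≤ M) {c c' : ℤ × ℤ} (h : rs M c = rs M c') (hc : c ≠ c') :
    M ≤ dd c c' := by
  have h0 : (0:ℤ) < M := by exact_mod_cast hM
  have h1 := Int.emod_nonneg c.1 h0.ne'
  have h2 := Int.emod_nonneg c.2 h0.ne'
  have h1' := Int.emod_nonneg c'.1 h0.ne'
  have h2' := Int.emod_nonneg c'.2 h0.ne'
  simp only [rs, Prod.mk.injEq] at h
  have e1 : c.1 % M = c'.1 % M := by omega
  have e2 : c.2 % M = c'.2 % M := by omega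
  have d1 : (M:ℤ) ∣ c.1 - c'.1 := (Int.ModEq.symm e1).dvd
  have d2 : (M:ℤ) ∣ c.2 - c'.2 := (Int.ModEq.symm e2).dvd
  have hcase : c.1 - c'.1 ≠ 0 ∨ c.2 - c'.2 ≠ 0 := by
    by_contra hcon
    push Not at hcon
    exact hc (Prod.ext (by omega) (by omega))
  simp only [dd]
  rcases hcase with h3 | h3
  · have := Int.le_of_dvd (Int.natAbs_pos.2 h3 |> fun h => by exact_mod_cast h)
      ((Int.dvd_natAbs).2 d1)
    omega
  · have := Int.le_of_dvd (Int.natAbs_pos.2 h3 |> fun h => by exact_mod_cast h)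
      ((Int.dvd_natAbs).2 d2)
    omega

/-- the source sees no aligned fast pair with a small probability only -/
lemma no_Hb (h : Shape μ) {s N L : ℕ} (hs : 1 ≤ s) (hsN : 2 * s ≤ N) (hL : L ≤ N) {g : ℝ}
    (hg0 : 0 ≤ g) :
    nu.real {w | ∀ c ∈ ball (8 * N) 0, ¬ Hb μ (pw w) s N L g c 0} ≤
      Real.exp (-(((N * L : ℕ) : ℝ) * nu.real {w | Q69.FM.Fb (mz μ) (pw w) s g 0} /
        (137 * s) ^ 2)) := by
  classical
  have hM : 1 ≤ 137 * s := by omega
  set M := 137 * s with hMd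
  have hM0 : (0:ℝ) < M := by exact_mod_cast hM
  set q : ℤ × ℤ → ℝ := fun c => nu.real {w | Hb μ (pw w) s N L g c 0} with hq
  set F : ℝ := ((N * L : ℕ) : ℝ) * nu.real {w | Q69.FM.Fb (mz μ) (pw w) s g 0} with hF
  have h1 : F ≤ ∑ c ∈ ball (8 * N) 0, q c := sum_Hb h hsN hL hg0
  rw [← Finset.sum_fiberwise_of_maps_to (t := Finset.range M ×ˢ Finset.range M)
    (fun c _ => rs_mem hM c) q] at h1
  have hne : (Finset.range M ×ˢ Finset.range M).Nonempty :=
    ⟨rs M 0, rs_mem hM 0⟩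
  have h2 : ∑ _τ ∈ Finset.range M ×ˢ Finset.range M, F / (M:ℝ) ^ 2 ≤
      ∑ τ ∈ Finset.range M ×ˢ Finset.range M, ∑ c ∈ ball (8 * N) 0 with rs M c = τ, q c := by
    rw [Finset.sum_const, Finset.card_product, Finset.card_range, nsmul_eq_mul]
    refine le_trans (le_of_eq ?_) h1
    push_cast
    field_simp
  obtain ⟨τ, -, hτ⟩ := Finset.exists_le_of_sum_le hne h2
  set Q := (ball (8 * N) 0).filter (fun c => rs M c = τ) with hQ
  have h3 : nu.real {w | ∀ c ∈ ball (8 * N) 0, ¬ Hb μ (pw w) s N L g c 0} ≤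
      nu.real {w | ∀ c ∈ Q, ¬ Hb μ (pw w) s N L g c 0} := by
    refine measureReal_mono ?_ (measure_ne_top _ _)
    intro w hw c hc
    exact hw c (Finset.mem_filter.1 hc).1
  rw [indep_Hb Q s N L g 0 (by
    intro i hi j hj hij
    have hi2 := (Finset.mem_filter.1 hi).2
    have hj2 := (Finset.mem_filter.1 hj).2
    have := rs_far hM (hi2.trans hj2.symm) hij
    omega)] at h3
  refine h3.trans ((prod_le_exp Q q
    (fun _ _ => measureReal_le_one)).trans ?_)
  rw [Real.exp_le_exp, neg_le_neg_iff]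
  refine le_trans (le_of_eq ?_) hτ
  rw [hMd]
  push_cast
  rfl

end Pool.Agent.H69.FP
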