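import Pool.Agent.H69.FP.J

/-!
# The probability of a fast pair in a small box, and the iteration
-/

set_option autoImplicit false

open MeasureTheory ProbabilityTheory Finset Filter
open scoped Topology

namespace Pool.Agent.H69.FP

open Q70.Fp Q69.FL

variable {μ : ℝ × ℝ → ℝ}

/-- all pairs of a ball, upper tail, stretched exponential bound -/
lemma gc_small (h : Shape μ) {a : ℝ} (ha : 0 < a) (hS : SeU μ a) : ∃ κ : ℝ, 0 < κ ∧
    ∀ᶠ n : ℕ in atTop, nu.real {w | ∃ x ∈ ball (3100 * n) 0, ∃ y ∈ ball (3100 * n) 0,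
      mz μ (y - x) + ((2 * (3100 * n) : ℕ) : ℝ) ^ a < TT (pw w) x y} ≤
      Real.exp (-((n:ℝ) ^ κ)) := by
  obtain ⟨κ, c, C, hκ, hc, hC, hU⟩ := unifU h ha hS
  refine ⟨κ / 2, by positivity, ?_⟩
  filter_upwards [absorb (6201 ^ 4 * C) hc (show 0 < κ / 2 by positivity)
    (show κ / 2 < κ by linarith), eventually_ge_atTop 1] with n hn hn1
  refine le_trans (union_ball (3100 * n) (fun x y => {w | mz μ (y - x) +
    ((2 * (3100 * n) : ℕ) : ℝ) ^ a < TT (pw w) x y})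
    (p := C * Real.exp (-(c * ((2 * (3100 * n) : ℕ) : ℝ) ^ κ))) (by positivity) ?_) ?_
  · intro x hx y hy
    have e1 := nu_TT_sh x y (measurableSet_Ioi (a := mz μ (y - x) + ((2 * (3100 * n) : ℕ) : ℝ) ^ a))
    have e2 := hU (2 * (3100 * n)) (by omega) (y - x) (dd_diff hx hy)
    exact (le_of_eq e1).trans e2
  · refine le_trans ?_ hn
    have hn' : (1:ℝ) ≤ n := by exact_mod_cast hn1
    have e1 : (((2 * (3100 * n) + 1) ^ 2 : ℕ) : ℝ) ≤ (6201 * n) ^ 2 := by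
      have : (2 * (3100 * n) + 1) ^ 2 ≤ (6201 * n) ^ 2 := Nat.pow_le_pow_left (by omega) 2
      exact_mod_cast this
    have e2 : Real.exp (-(c * ((2 * (3100 * n) : ℕ) : ℝ) ^ κ)) ≤ Real.exp (-(c * (n:ℝ) ^ κ)) := by
      rw [Real.exp_le_exp, neg_le_neg_iff]
      refine mul_le_mul_of_nonneg_left ?_ hc.le
      refine Real.rpow_le_rpow (by positivity) ?_ hκ.le
      push_cast
      linarith
    calc _ ≤ (6201 * (n:ℝ)) ^ 2 * ((6201 * (n:ℝ)) ^ 2 * (C * Real.exp (-(c * (n:ℝ) ^ κ)))) := by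
          gcongr
      _ = 6201 ^ 4 * C * (n:ℝ) ^ 4 * Real.exp (-(c * (n:ℝ) ^ κ)) := by ring

/-- comparison of exponentials -/
lemma cmp_exp {x l p : ℝ} (hx : 0 < x) (h1 : Real.exp (-x) ≤ Real.exp (-l) + p)
    (h2 : p ≤ Real.exp (-x) * (x / (1 + x))) : l ≤ 2 * x := by
  by_contra hc
  push Not at hc
  have e1 : Real.exp (-l) < Real.exp (-x) * Real.exp (-x) := by
    rw [← Real.exp_add, Real.exp_lt_exp]
    linarith
  have e2 : 0 < Real.exp (-x) := Real.exp_pos _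
  have e3 : Real.exp (-x) * 1 < Real.exp (-x) * (Real.exp (-x) + x / (1 + x)) := by
    rw [mul_one, mul_add]
    linarith
  have e4 := lt_of_mul_lt_mul_left e3 e2.le
  have e5 : 1 - x / (1 + x) = 1 / (1 + x) := by field_simp; ring
  have e6 : 1 / (1 + x) < Real.exp (-x) := by rw [← e5]; linarith
  have e7 : Real.exp (-x) ≤ 1 / (1 + x) := by
    rw [Real.exp_neg, inv_eq_one_div]
    refine one_div_le_one_div_of_le (by linarith) ?_
    have := Real.add_one_le_exp x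
    linarith
  linarith

/-- the probability of a fast pair in a small box -/
lemma weak_rate (h : Shape μ) {b η : ℝ} (hb : 0 < b) (hb1 : b < 1) (hη : 0 ≤ η) (hbη : η ≤ 1 - b)
    (hU : ∀ a, b < a → SeU μ a)
    (hL : ∀ ζ : ℝ, 0 < ζ → ζ < 1 - b → ∀ᶠ T : ℝ in atTop, ∃ t : ℝ, T ≤ t ∧ t ≤ T ^ (1 + ζ) ∧
      nu.real {w | Dx μ (pw w) 0 t (t + t ^ (b + ζ))} ≤ 1 - Real.exp (-(t ^ (ζ - η))))
    {a : ℝ} (ha : 3 * b / (2 + b + η) < a) :
    ∃ δ C : ℝ, 0 < δ ∧ 0 < C ∧ ∀ᶠ s : ℕ in atTop,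
      nu.real {w | Q69.FM.Fb (mz μ) (pw w) s ((s:ℝ) ^ a) 0} ≤ C * (s:ℝ) ^ (-δ) := by
  obtain ⟨l0, hl0⟩ : ∃ l0 : ℝ, l0 = 3 / (2 + b + η) := ⟨_, rfl⟩
  have hden : 0 < 2 + b + η := by linarith
  have hl01 : 1 ≤ l0 := by rw [hl0, le_div_iff₀ hden]; linarith
  have hl0b : 3 * b / (2 + b + η) = l0 * b := by rw [hl0]; ring
  have hl0d : l0 * (2 + b + η) = 3 := by rw [hl0]; field_simp
  rw [hl0b] at ha
  have hlb1 : l0 * b < 1 := by
    rw [← hl0b, div_lt_one hden]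
    linarith
  obtain ⟨a', ha'⟩ : ∃ a' : ℝ, a' = min a 1 := ⟨_, rfl⟩
  have haa : a' ≤ a := by rw [ha']; exact min_le_left _ _
  have haa1 : a' ≤ 1 := by rw [ha']; exact min_le_right _ _
  have hla : l0 * b < a' := by rw [ha']; exact lt_min ha hlb1
  obtain ⟨Δ, hΔ⟩ : ∃ Δ : ℝ, Δ = a' - l0 * b := ⟨_, rfl⟩
  have hΔ0 : 0 < Δ := by rw [hΔ]; linarith
  obtain ⟨κ0, hκ0⟩ : ∃ κ0 : ℝ, κ0 = Δ / 4 := ⟨_, rfl⟩
  have hκ00 : 0 < κ0 := by rw [hκ0]; positivity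
  obtain ⟨l, hl⟩ : ∃ l : ℝ, l = l0 + κ0 := ⟨_, rfl⟩
  have hl1 : 1 < l := by rw [hl]; linarith
  have hlp : 0 < l := by linarith
  obtain ⟨ζ, hζ⟩ : ∃ ζ : ℝ, ζ = min (Δ / (8 * l)) ((1 - b) / 2) := ⟨_, rfl⟩
  have hζ0 : 0 < ζ := by rw [hζ]; exact lt_min (by positivity) (by linarith)
  have hζ1 : ζ ≤ (1 - b) / 2 := by rw [hζ]; exact min_le_right _ _
  have hζ2 : ζ * (8 * l) ≤ Δ := by
    have : ζ ≤ Δ / (8 * l) := by rw [hζ]; exact min_le_left _ _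
    rwa [le_div_iff₀ (by positivity)] at this
  have hkey : l * (1 + ζ) * (b + 2 * ζ) < a' := by
    have e1 : κ0 * b ≤ Δ / 4 := by
      rw [hκ0]
      have : Δ / 4 * b ≤ Δ / 4 * 1 := mul_le_mul_of_nonneg_left (by linarith) (by positivity)
      linarith
    have e2 : l * (1 + ζ) * (b + 2 * ζ) = l0 * b + κ0 * b + ζ * l * (2 + b + 2 * ζ) := by
      rw [hl]; ring
    have e3 : ζ * l * (2 + b + 2 * ζ) ≤ ζ * l * 5 := by
      refine mul_le_mul_of_nonneg_left (by linarith) (by positivity)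
    rw [e2]
    linarith
  obtain ⟨κ, hκ, hgc⟩ := gc_small h (show 0 < b + ζ by linarith) (hU (b + ζ) (by linarith))
  obtain ⟨ζ', hζ'⟩ : ∃ ζ' : ℝ, ζ' = min ζ (κ / 4) := ⟨_, rfl⟩
  have hζ'0 : 0 < ζ' := by rw [hζ']; exact lt_min hζ0 (by positivity)
  have hζ'1 : ζ' ≤ ζ := by rw [hζ']; exact min_le_left _ _
  have hζ'2 : ζ' < κ / 2 := by
    have : ζ' ≤ κ / 4 := by rw [hζ']; exact min_le_right _ _
    linarith
  have tb : Tendsto (fun n : ℕ => (n:ℝ) ^ (b + ζ)) atTop atTop :=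
    (tendsto_rpow_atTop (by linarith)).comp tendsto_natCast_atTop_atTop
  -- the facts about `N`
  obtain ⟨N0, hNev⟩ := eventually_atTop.1 ((((((hgc.and (absorb 49 one_pos
    (show 0 < κ / 2 by positivity) (show κ / 2 < κ by linarith))).and
    (nat_ev (rpow_small (K := 49) hζ'2))).and
    (eventually_ge_atTop 1)).and (nat_ev (rpow_small (K := 3) (show b + ζ < 1 by linarith)))).and
    (tb.eventually_ge_atTop 12)).and
    (nat_ev (rpow_small (K := 12479) (show b + ζ < b + 2 * ζ by linarith))))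
  have tl : Tendsto (fun s : ℕ => (s:ℝ) ^ l) atTop atTop :=
    (tendsto_rpow_atTop hlp).comp tendsto_natCast_atTop_atTop
  have tT : Tendsto (fun s : ℕ => 48 * (s:ℝ) ^ l) atTop atTop :=
    tl.const_mul_atTop (by norm_num)
  have tl1 : Tendsto (fun s : ℕ => (s:ℝ) ^ (l - 1)) atTop atTop :=
    (tendsto_rpow_atTop (by linarith)).comp tendsto_natCast_atTop_atTop
  refine ⟨κ0 * (2 + b + η), 48 * 48 * 137 ^ 2, by positivity, by positivity, ?_⟩
  filter_upwards [tl.eventually_ge_atTop (N0:ℝ), tT.eventually (hL ζ' hζ'0 (by linarith)),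
    eventually_ge_atTop 1, tl1.eventually_ge_atTop 2,
    nat_ev (rpow_small (K := 2304) hkey)] with s hsN0 hTs hs1 hs2 hs3
  obtain ⟨t, ht1, ht2, f5⟩ := hTs
  have hs0 : (0:ℝ) < s := by exact_mod_cast hs1
  have hs1' : (1:ℝ) ≤ s := by exact_mod_cast hs1
  have hsl : (1:ℝ) ≤ (s:ℝ) ^ l := Real.one_le_rpow hs1' hlp.le
  have ht0 : 0 < t := by linarith
  obtain ⟨N, hNd⟩ : ∃ N : ℕ, N = ⌊t / 24⌋₊ := ⟨_, rfl⟩
  have hNt1 : 24 * (N:ℝ) ≤ t := by
    have : (N:ℝ) ≤ t / 24 := by rw [hNd]; exact Nat.floor_le (by positivity)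
    linarith
  have hNt2 : t ≤ 24 * N + 24 := by
    have : t / 24 < N + 1 := by rw [hNd]; exact Nat.lt_floor_add_one _
    linarith
  have hNlo : (s:ℝ) ^ l ≤ N := by linarith
  have hN00 : N0 ≤ N := by
    have : (N0:ℝ) ≤ N := hsN0.trans hNlo
    exact_mod_cast this
  obtain ⟨⟨⟨⟨⟨⟨f1, f2⟩, f3⟩, f4⟩, f8⟩, f6⟩, f7⟩ := hNev N hN00
  rw [Real.rpow_one] at f8
  have hN1 : (1:ℝ) ≤ N := by exact_mod_cast f4
  have hN0 : (0:ℝ) < N := by linarith
  have ht48 : t ≤ 48 * N := by linarith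
  have htN : (N:ℝ) ≤ t := by linarith
  have ht1' : 1 ≤ t := by linarith
  have hNup : (N:ℝ) ≤ 2304 * (s:ℝ) ^ (l * (1 + ζ)) := by
    have e1 : (N:ℝ) ≤ t := htN
    refine e1.trans (ht2.trans ?_)
    calc (48 * (s:ℝ) ^ l) ^ (1 + ζ') ≤ (48 * (s:ℝ) ^ l) ^ (1 + ζ) :=
          Real.rpow_le_rpow_of_exponent_le (by linarith) (by linarith)
      _ = 48 ^ (1 + ζ) * (s:ℝ) ^ (l * (1 + ζ)) := by
          rw [Real.mul_rpow (by norm_num) (by positivity), ← Real.rpow_mul hs0.le]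
      _ ≤ 2304 * (s:ℝ) ^ (l * (1 + ζ)) := by
          refine mul_le_mul_of_nonneg_right ?_ (by positivity)
          calc (48:ℝ) ^ (1 + ζ) ≤ 48 ^ (2:ℝ) :=
                Real.rpow_le_rpow_of_exponent_le (by norm_num) (by linarith)
            _ = 2304 := by rw [Real.rpow_two]; norm_num
  have hsN' : 2 * (s:ℝ) ≤ N := by
    refine le_trans ?_ hNlo
    have e1 : (s:ℝ) ^ l = (s:ℝ) ^ (l - 1) * s := by
      rw [← Real.rpow_add_one hs0.ne']
      congr 1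
      ring
    rw [e1]
    gcongr
  have hsN : 2 * s ≤ N := by exact_mod_cast hsN'
  -- the power of `N`
  have hNpow : (N:ℝ) ^ (b + 2 * ζ) ≤ (s:ℝ) ^ a' := by
    refine le_trans ?_ hs3
    calc (N:ℝ) ^ (b + 2 * ζ) ≤ (2304 * (s:ℝ) ^ (l * (1 + ζ))) ^ (b + 2 * ζ) :=
          Real.rpow_le_rpow hN0.le hNup (by positivity)
      _ = 2304 ^ (b + 2 * ζ) * (s:ℝ) ^ (l * (1 + ζ) * (b + 2 * ζ)) := by
          rw [Real.mul_rpow (by norm_num) (by positivity), ← Real.rpow_mul hs0.le]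
      _ ≤ 2304 * (s:ℝ) ^ (l * (1 + ζ) * (b + 2 * ζ)) := by
          refine mul_le_mul_of_nonneg_right ?_ (by positivity)
          calc (2304:ℝ) ^ (b + 2 * ζ) ≤ 2304 ^ (1:ℝ) :=
                Real.rpow_le_rpow_of_exponent_le (by norm_num) (by linarith)
            _ = 2304 := Real.rpow_one _
  have hsa : (s:ℝ) ^ a' ≤ (s:ℝ) ^ a := Real.rpow_le_rpow_of_exponent_le hs1' haa
  have hsa1 : (s:ℝ) ^ a' ≤ s := by
    calc (s:ℝ) ^ a' ≤ (s:ℝ) ^ (1:ℝ) := Real.rpow_le_rpow_of_exponent_le hs1' haa1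
      _ = s := Real.rpow_one _
  obtain ⟨A, hA⟩ : ∃ A : ℝ, A = (N:ℝ) ^ (b + ζ) := ⟨_, rfl⟩
  rw [← hA] at f6 f7 f8
  have hA0 : 0 < A := by linarith
  obtain ⟨y, hy⟩ : ∃ y : ℝ, y = N * A / (12 * s) := ⟨_, rfl⟩
  have hy2 : 2 ≤ y := by
    rw [hy, le_div_iff₀ (by positivity)]
    nlinarith
  obtain ⟨L, hLd⟩ : ∃ L : ℕ, L = ⌊y⌋₊ := ⟨_, rfl⟩
  have hL1 : (L:ℝ) ≤ y := by rw [hLd]; exact Nat.floor_le (by linarith)
  have hL2 : y / 2 ≤ L := by
    have : y < L + 1 := by rw [hLd]; exact Nat.lt_floor_add_one _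
    linarith
  have hLN : L ≤ N := by
    have e1 : (L:ℝ) ≤ N := by
      refine hL1.trans ?_
      rw [hy, div_le_iff₀ (by positivity)]
      have : A ≤ 12 * s := by linarith
      gcongr
    exact_mod_cast e1
  have hD : 6 * (s * (L + 2 : ℝ)) / N ≤ A := by
    rw [div_le_iff₀ hN0]
    have e1 : (L:ℝ) + 2 ≤ 2 * y := by linarith
    have e2 : 6 * (s * (2 * y)) = A * N := by rw [hy]; field_simp; ring
    calc 6 * (s * (L + 2 : ℝ)) ≤ 6 * (s * (2 * y)) := by gcongr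
      _ = A * N := e2
  -- the numbers of the deterministic lemma
  obtain ⟨E, hE⟩ : ∃ E : ℝ, E = ((2 * (3100 * N) : ℕ) : ℝ) ^ (b + ζ) := ⟨_, rfl⟩
  rw [← hE] at f1
  have hE1 : E ≤ 6200 * A := by
    rw [hE, hA, show ((2 * (3100 * N) : ℕ) : ℝ) = 6200 * (N:ℝ) by push_cast; ring,
      Real.mul_rpow (by norm_num) hN0.le]
    refine mul_le_mul_of_nonneg_right ?_ (by positivity)
    calc (6200:ℝ) ^ (b + ζ) ≤ 6200 ^ (1:ℝ) :=
          Real.rpow_le_rpow_of_exponent_le (by norm_num) (by linarith)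
      _ = 6200 := Real.rpow_one _
  obtain ⟨S, hS⟩ : ∃ S : ℝ, S = t + t ^ (b + ζ') := ⟨_, rfl⟩
  rw [← hS] at f5
  have hS1 : t ^ (b + ζ') ≤ 48 * A := by
    calc t ^ (b + ζ') ≤ t ^ (b + ζ) :=
          Real.rpow_le_rpow_of_exponent_le ht1' (by linarith)
      _ ≤ (48 * (N:ℝ)) ^ (b + ζ) := Real.rpow_le_rpow ht0.le ht48 (by linarith)
      _ = 48 ^ (b + ζ) * A := by rw [hA, Real.mul_rpow (by norm_num) hN0.le]
      _ ≤ 48 * A := by
          refine mul_le_mul_of_nonneg_right ?_ hA0.le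
          calc (48:ℝ) ^ (b + ζ) ≤ 48 ^ (1:ℝ) :=
                Real.rpow_le_rpow_of_exponent_le (by norm_num) (by linarith)
            _ = 48 := Real.rpow_one _
  have hS3 : (0:ℝ) ≤ t ^ (b + ζ') := by positivity
  obtain ⟨g, hg⟩ : ∃ g : ℝ, g = (s:ℝ) ^ a := ⟨_, rfl⟩
  rw [← hg]
  have hg1 : 30 + A + 2 * E + (S - t) ≤ g := by
    rw [hg]
    refine le_trans ?_ (hNpow.trans hsa)
    refine le_trans ?_ f7
    rw [hS]
    linarith
  have hg0 : 0 ≤ g := by rw [hg]; positivity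
  -- the probabilities
  set Gc : Set (Ed → ℝ) := {w | ∃ x ∈ ball (3100 * N) 0, ∃ y ∈ ball (3100 * N) 0,
      mz μ (y - x) + E < TT (pw w) x y} with hGc
  set Dc : Set (Ed → ℝ) := {w | Dx μ (pw w) 0 t S} with hDc
  set Hc : Set (Ed → ℝ) := {w | ∀ c ∈ ball (8 * N) 0, ¬ Hb μ (pw w) s N L g c 0} with hHc
  have hsub : Dcᶜ ⊆ Hc ∪ Gc := by
    intro w hw
    by_cases hgw : w ∈ Gc
    · exact Or.inr hgw
    · left
      simp only [hGc, Set.mem_ofPred_eq, not_exists, not_and, not_lt] at hgw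
      intro c _ hH
      exact hw (leaves_one h (pw_nonneg w) f4 (by omega) hLN hg0 hD hg1 (by linarith)
        (by linarith) hgw hH)
  have hcompl := measureReal_compl (μ := nu) (measurable_Dx (μ := μ) 0 t S)
  rw [probReal_univ] at hcompl
  have hle := (measureReal_mono (μ := nu) hsub (measure_ne_top _ _)).trans (measureReal_union_le _ _)
  obtain ⟨x, hx⟩ : ∃ x : ℝ, x = t ^ (ζ' - η) := ⟨_, rfl⟩
  rw [← hx] at f5
  have hx0 : 0 < x := by rw [hx]; positivity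
  obtain ⟨p, hp⟩ : ∃ p : ℝ, p = nu.real {w | Q69.FM.Fb (mz μ) (pw w) s g 0} := ⟨_, rfl⟩
  have hno := no_Hb h (s := s) (N := N) (L := L) hs1 hsN hLN hg0
  rw [← hp] at hno ⊢
  have hp0 : 0 ≤ p := by rw [hp]; exact measureReal_nonneg
  -- the comparison
  have hx1 : x ≤ 49 * (N:ℝ) ^ ζ' := by
    calc x ≤ t ^ ζ' := by
          rw [hx]
          exact Real.rpow_le_rpow_of_exponent_le ht1' (by linarith)
      _ ≤ (48 * (N:ℝ)) ^ ζ' := Real.rpow_le_rpow ht0.le ht48 hζ'0.le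
      _ = 48 ^ ζ' * (N:ℝ) ^ ζ' := by rw [Real.mul_rpow (by norm_num) hN0.le]
      _ ≤ 49 * (N:ℝ) ^ ζ' := by
          refine mul_le_mul_of_nonneg_right ?_ (by positivity)
          calc (48:ℝ) ^ ζ' ≤ 48 ^ (1:ℝ) :=
                Real.rpow_le_rpow_of_exponent_le (by norm_num) (by linarith)
            _ ≤ 49 := by rw [Real.rpow_one]; norm_num
  have hx2 : 1 ≤ 48 * N * x := by
    have e1 : t ^ (-1:ℝ) ≤ x := by
      rw [hx]
      exact Real.rpow_le_rpow_of_exponent_le ht1' (by linarith)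
    rw [Real.rpow_neg_one, inv_le_iff_one_le_mul₀ ht0] at e1
    have e2 : x * t ≤ x * (48 * N) := mul_le_mul_of_nonneg_left ht48 hx0.le
    linarith
  have hx3 : 1 / (49 * (N:ℝ)) ≤ x / (1 + x) := by
    rw [div_le_div_iff₀ (by positivity) (by positivity)]
    nlinarith
  have hgcx : Real.exp (-((N:ℝ) ^ κ)) ≤ Real.exp (-x) * (x / (1 + x)) := by
    have e1 : 49 * (N:ℝ) * Real.exp (-((N:ℝ) ^ κ)) ≤ Real.exp (-x) := by
      calc 49 * (N:ℝ) * Real.exp (-((N:ℝ) ^ κ)) ≤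
            49 * (N:ℝ) ^ 4 * Real.exp (-(1 * (N:ℝ) ^ κ)) := by
            rw [one_mul]
            have : (N:ℝ) ≤ (N:ℝ) ^ 4 := le_self_pow₀ hN1 (by norm_num)
            gcongr
        _ ≤ Real.exp (-((N:ℝ) ^ (κ / 2))) := f2
        _ ≤ Real.exp (-x) := by
            rw [Real.exp_le_exp, neg_le_neg_iff]
            exact hx1.trans f3
    calc Real.exp (-((N:ℝ) ^ κ)) = (49 * (N:ℝ) * Real.exp (-((N:ℝ) ^ κ))) * (1 / (49 * (N:ℝ))) := by
          field_simp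
      _ ≤ Real.exp (-x) * (x / (1 + x)) := by gcongr
  have hcmp := cmp_exp hx0 (l := ((N * L : ℕ) : ℝ) * p / (137 * s) ^ 2)
    (p := nu.real Gc) (by linarith) (f1.trans hgcx)
  -- conclusion
  have hx4 : x ≤ 48 * (N:ℝ) ^ (ζ - η) := by
    calc x ≤ t ^ (ζ - η) := by
          rw [hx]
          exact Real.rpow_le_rpow_of_exponent_le ht1' (by linarith)
      _ = t ^ ζ * t ^ (-η) := by rw [← Real.rpow_add ht0, sub_eq_add_neg]
      _ ≤ (48 * (N:ℝ) ^ ζ) * (N:ℝ) ^ (-η) := by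
          have g1 : t ^ ζ ≤ 48 * (N:ℝ) ^ ζ := by
            calc t ^ ζ ≤ (48 * (N:ℝ)) ^ ζ := Real.rpow_le_rpow ht0.le ht48 hζ0.le
              _ = 48 ^ ζ * (N:ℝ) ^ ζ := by rw [Real.mul_rpow (by norm_num) hN0.le]
              _ ≤ 48 * (N:ℝ) ^ ζ := by
                  refine mul_le_mul_of_nonneg_right ?_ (by positivity)
                  calc (48:ℝ) ^ ζ ≤ 48 ^ (1:ℝ) :=
                        Real.rpow_le_rpow_of_exponent_le (by norm_num) (by linarith)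
                    _ = 48 := Real.rpow_one _
          have g2 : t ^ (-η) ≤ (N:ℝ) ^ (-η) :=
            Real.rpow_le_rpow_of_nonpos hN0 htN (by linarith)
          exact mul_le_mul g1 g2 (by positivity) (by positivity)
      _ = 48 * (N:ℝ) ^ (ζ - η) := by rw [mul_assoc, ← Real.rpow_add hN0, sub_eq_add_neg]
  rw [div_le_iff₀ (by positivity)] at hcmp
  have hNL : (N:ℝ) * (N * A / (24 * s)) ≤ ((N * L : ℕ) : ℝ) := by
    push_cast
    have e1 : N * A / (24 * s) = y / 2 := by rw [hy]; field_simp; ring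
    rw [e1]
    gcongr
  have h1 : (N:ℝ) * (N * A / (24 * s)) * p ≤ 2 * (48 * (N:ℝ) ^ (ζ - η)) * (137 * s) ^ 2 := by
    calc (N:ℝ) * (N * A / (24 * s)) * p ≤ ((N * L : ℕ) : ℝ) * p := by gcongr
      _ ≤ 2 * x * (137 * s) ^ 2 := hcmp
      _ ≤ _ := by gcongr
  have hNpw : (N:ℝ) ^ (2 + b + η) * (N:ℝ) ^ (ζ - η) = N * (N * A) := by
    rw [hA, ← Real.rpow_add hN0, ← Real.rpow_one_add' hN0.le (by linarith),
      ← Real.rpow_one_add' hN0.le (by linarith)]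
    congr 1
    ring
  have hspw : (s:ℝ) ^ 3 * (s:ℝ) ^ (κ0 * (2 + b + η)) ≤ (N:ℝ) ^ (2 + b + η) := by
    calc (s:ℝ) ^ 3 * (s:ℝ) ^ (κ0 * (2 + b + η)) = ((s:ℝ) ^ l) ^ (2 + b + η) := by
          rw [← Real.rpow_natCast (s:ℝ) 3, ← Real.rpow_add hs0, ← Real.rpow_mul hs0.le]
          congr 1
          rw [hl, add_mul, hl0d]
          norm_num
      _ ≤ _ := Real.rpow_le_rpow (by positivity) hNlo hden.le
  rw [Real.rpow_neg hs0.le, ← div_eq_mul_inv, le_div_iff₀ (by positivity)]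
  have hX : 0 < (N:ℝ) ^ (ζ - η) * (s:ℝ) ^ 2 := by positivity
  refine le_of_mul_le_mul_right ?_ hX
  calc p * (s:ℝ) ^ (κ0 * (2 + b + η)) * ((N:ℝ) ^ (ζ - η) * (s:ℝ) ^ 2)
      = p * ((s:ℝ) ^ 3 * (s:ℝ) ^ (κ0 * (2 + b + η))) * (N:ℝ) ^ (ζ - η) / s := by
        field_simp
    _ ≤ p * (N:ℝ) ^ (2 + b + η) * (N:ℝ) ^ (ζ - η) / s := by gcongr
    _ = 24 * ((N:ℝ) * (N * A / (24 * s)) * p) := by
        rw [mul_assoc p, hNpw]
        field_simp
    _ ≤ 24 * (2 * (48 * (N:ℝ) ^ (ζ - η)) * (137 * s) ^ 2) := by gcongr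
    _ = 48 * 48 * 137 ^ 2 * ((N:ℝ) ^ (ζ - η) * (s:ℝ) ^ 2) := by ring

/-- a polynomial rate for fast pairs in boxes gives stretched exponential bounds -/
lemma boost_rate {Φ : ℤ × ℤ → ℝ} (h : Q69.FM.Sub Φ) {b : ℝ} (hb : 0 < b)
    (hR : ∀ b1 : ℝ, b < b1 → ∃ δ C : ℝ, 0 < δ ∧ 0 < C ∧ ∀ᶠ s : ℕ in atTop,
      nu.real {w | Q69.FM.Fb Φ (pw w) s ((s:ℝ) ^ b1) 0} ≤ C * (s:ℝ) ^ (-δ)) {a : ℝ}
    (ha : b < a) : Q69.FM.Se Φ a := by
  obtain ⟨b1, hb1⟩ : ∃ b1 : ℝ, b1 = (a + b) / 2 := ⟨_, rfl⟩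
  have e1 : b < b1 := by rw [hb1]; linarith
  have e3 : b1 < a := by rw [hb1]; linarith
  obtain ⟨δ, Cf, hδ, hCf, hF⟩ := hR b1 e1
  -- a small η
  have c1 : Tendsto (fun η : ℝ => η + (1 - η) * b1) (𝓝[>] 0) (𝓝 b1) := by
    have : Tendsto (fun η : ℝ => η + (1 - η) * b1) (𝓝 0) (𝓝 (0 + (1 - 0) * b1)) := by
      apply Continuous.tendsto; fun_prop
    simpa using this.mono_left nhdsWithin_le_nhds
  have c2 : Tendsto (fun η : ℝ => 2 * η - (1 - η) * δ) (𝓝[>] 0) (𝓝 (-δ)) := by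
    have : Tendsto (fun η : ℝ => 2 * η - (1 - η) * δ) (𝓝 0) (𝓝 (2 * 0 - (1 - 0) * δ)) := by
      apply Continuous.tendsto; fun_prop
    have e : 2 * 0 - (1 - 0) * δ = -δ := by ring
    rw [e] at this
    exact this.mono_left nhdsWithin_le_nhds
  have c3 : ∀ᶠ η : ℝ in 𝓝[>] 0, η < 1 := by
    filter_upwards [Ioo_mem_nhdsGT one_pos] with η hη using hη.2
  have c4 : ∀ᶠ η : ℝ in 𝓝[>] 0, 0 < η := by
    filter_upwards [Ioo_mem_nhdsGT one_pos] with η hη using hη.1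
  obtain ⟨η, h1, h2, h3, h4⟩ := ((c1.eventually_lt_const e3).and
    ((c2.eventually_lt_const (show -δ < 0 by linarith)).and (c3.and c4))).exists
  set ρ : ℝ := 1 - η / 2 with hρ
  have hρ0 : 0 < ρ := by rw [hρ]; linarith
  have hρ1 : ρ < 1 := by rw [hρ]; linarith
  have ha0 : 0 < a := hb.trans ha
  have key : ∀ k : ℕ, Q69.FM.Se Φ (max (2 * ρ ^ k) a) := by
    intro k
    induction k with
    | zero =>
      refine Q69.FM.Se_mono ?_ (Q69.FM.Se_two h)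
      simp
    | succ k ih =>
      rcases le_total (2 * ρ ^ k) a with hc | hc
      · rw [max_eq_right hc] at ih
        exact Q69.FM.Se_mono (le_max_right _ _) ih
      · rw [max_eq_left hc] at ih
        have hA : 0 < 2 * ρ ^ k := by positivity
        refine Q69.FM.stepB h (hb.trans e1) h4 h3 hA hδ hCf
          (lt_of_lt_of_le h1 (le_max_right _ _)) ?_ h2 hF ih
        refine lt_of_lt_of_le ?_ (le_max_left _ _)
        have hρ' : 1 - η < ρ := by rw [hρ]; linarith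
        have e4 := mul_lt_mul_of_pos_left hρ' hA
        calc (1 - η) * (2 * ρ ^ k) = 2 * ρ ^ k * (1 - η) := by ring
          _ < 2 * ρ ^ k * ρ := e4
          _ = 2 * ρ ^ (k + 1) := by ring
  have hlim : Tendsto (fun k : ℕ => 2 * ρ ^ k) atTop (𝓝 (2 * 0)) :=
    (tendsto_pow_atTop_nhds_zero_of_lt_one hρ0.le hρ1).const_mul 2
  rw [mul_zero] at hlim
  obtain ⟨k, hk⟩ := (hlim.eventually (gt_mem_nhds ha0)).exists
  have := key k
  rwa [max_eq_right hk.le] at this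

end Pool.Agent.H69.FP
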