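import Pool.Agent.H69.FP.K

/-!
# The probability of a fast pair in a small box: the general case
-/

set_option autoImplicit false

open MeasureTheory ProbabilityTheory Finset Filter
open scoped Topology

namespace Pool.Agent.H69.FP

open Q70.Fp Q69.FL

variable {μ : ℝ × ℝ → ℝ}

/-- all pairs of a ball, upper tail, with an explicit rate -/
lemma gc_rate (h : Shape μ) {b β ζ κ : ℝ} (hb : 0 < b) (hζ : 0 < ζ)
    (hκ0 : 0 < κ) (hκ : κ < β - b + ζ / 2) (hU : ∀ a, b < a → SeU μ a)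
    (hlc : ∀ (v : ℤ × ℤ) (r d : ℝ), 0 < r → 0 < d →
      nu.real {w | mz μ v + r ≤ TT (pw w) 0 v} ≤ Real.exp (-(1 + d)) →
      ∀ u : ℝ, 0 ≤ u → nu.real {w | mz μ v + r + u ≤ TT (pw w) 0 v} ≤
        Real.exp (-(1 + d + d * u / r))) :
    ∀ᶠ n : ℕ in atTop, nu.real {w | ∃ x ∈ ball (3100 * n) 0, ∃ y ∈ ball (3100 * n) 0,
      mz μ (y - x) + ((2 * (3100 * n) : ℕ) : ℝ) ^ (β + ζ) < TT (pw w) x y} ≤
      Real.exp (-((n:ℝ) ^ κ)) := by
  obtain ⟨κ1, c, C, hκ1, hc, hC, hV⟩ := unifU h (show 0 < b + ζ / 2 by linarith)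
    (hU (b + ζ / 2) (by linarith))
  have t1 : ∀ᶠ n : ℕ in atTop, C * Real.exp (-(c * (n:ℝ) ^ κ1)) ≤ Real.exp (-2) := by
    have t2 : Tendsto (fun n : ℕ => (n:ℝ) ^ (κ1 / 2)) atTop atTop :=
      (tendsto_rpow_atTop (by positivity)).comp tendsto_natCast_atTop_atTop
    filter_upwards [absorb C hc (show 0 < κ1 / 2 by positivity) (show κ1 / 2 < κ1 by linarith),
      t2.eventually_ge_atTop 2, eventually_ge_atTop 1] with n h1 h2 h3
    have hn : (1:ℝ) ≤ n := by exact_mod_cast h3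
    have h4 : (1:ℝ) ≤ (n:ℝ) ^ 4 := one_le_pow₀ hn
    calc C * Real.exp (-(c * (n:ℝ) ^ κ1)) = C * 1 * Real.exp (-(c * (n:ℝ) ^ κ1)) := by ring
      _ ≤ C * (n:ℝ) ^ 4 * Real.exp (-(c * (n:ℝ) ^ κ1)) := by gcongr
      _ ≤ Real.exp (-((n:ℝ) ^ (κ1 / 2))) := h1
      _ ≤ Real.exp (-2) := Real.exp_le_exp.2 (by linarith)
  filter_upwards [absorb (6201 ^ 4) (show (0:ℝ) < 1 / 4 by norm_num) hκ0 hκ,
    eventually_ge_atTop 1, t1,
    (tendsto_natCast_atTop_atTop.const_mul_atTop (show (0:ℝ) < 6200 by norm_num)).eventually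
      (rpow_small (K := 4) (show b + ζ / 2 < β + ζ by linarith))] with n hn hn1 hn2 hn3
  have hn' : (1:ℝ) ≤ n := by exact_mod_cast hn1
  obtain ⟨R, hR⟩ : ∃ R : ℕ, R = 2 * (3100 * n) := ⟨_, rfl⟩
  have hR1 : (R:ℝ) = 6200 * n := by rw [hR]; push_cast; ring
  have hR0 : (0:ℝ) < R := by rw [hR1]; linarith
  have hRn : (n:ℝ) ≤ R := by rw [hR1]; linarith
  have hR1' : (1:ℝ) ≤ R := by linarith
  refine le_trans (union_ball (3100 * n) (fun x y => {w | mz μ (y - x) +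
    ((2 * (3100 * n) : ℕ) : ℝ) ^ (β + ζ) < TT (pw w) x y})
    (p := Real.exp (-(1 / 4 * (n:ℝ) ^ (β - b + ζ / 2)))) (by positivity) ?_) ?_
  · intro x hx y hy
    have e1 := nu_TT_sh x y (measurableSet_Ioi (a := mz μ (y - x) +
      ((2 * (3100 * n) : ℕ) : ℝ) ^ (β + ζ)))
    refine (le_of_eq e1).trans ?_
    rw [← hR]
    obtain ⟨z, hz⟩ : ∃ z, z = y - x := ⟨_, rfl⟩
    rw [← hz]
    have hdz : dd 0 z ≤ R := by rw [hz, hR]; exact dd_diff hx hy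
    obtain ⟨r, hr⟩ : ∃ r : ℝ, r = 2 * (R:ℝ) ^ (b + ζ / 2) := ⟨_, rfl⟩
    have hr0 : 0 < r := by rw [hr]; positivity
    have h2 : nu.real {w | mz μ z + r ≤ TT (pw w) 0 z} ≤ Real.exp (-(1 + 1)) := by
      have h3 := hV R (by omega) z hdz
      have h4 : Real.exp (-(c * (R:ℝ) ^ κ1)) ≤ Real.exp (-(c * (n:ℝ) ^ κ1)) := by
        rw [Real.exp_le_exp, neg_le_neg_iff]
        refine mul_le_mul_of_nonneg_left ?_ hc.le
        exact Real.rpow_le_rpow (by positivity) hRn hκ1.le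
      have h5 : nu.real {w | mz μ z + r ≤ TT (pw w) 0 z} ≤ C * Real.exp (-(c * (R:ℝ) ^ κ1)) := by
        refine le_trans (measureReal_mono ?_ (measure_ne_top _ _)) h3
        intro w hw
        have hw' : mz μ z + r ≤ TT (pw w) 0 z := hw
        have hp : (0:ℝ) < (R:ℝ) ^ (b + ζ / 2) := by positivity
        show mz μ z + (R:ℝ) ^ (b + ζ / 2) < TT (pw w) 0 z
        rw [hr] at hw'
        linarith
      calc _ ≤ C * Real.exp (-(c * (R:ℝ) ^ κ1)) := h5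
        _ ≤ C * Real.exp (-(c * (n:ℝ) ^ κ1)) := by gcongr
        _ ≤ Real.exp (-2) := hn2
        _ = _ := by norm_num
    rw [← hR1] at hn3
    obtain ⟨u, hu⟩ : ∃ u : ℝ, u = (R:ℝ) ^ (β + ζ) / 2 := ⟨_, rfl⟩
    have hu0 : 0 ≤ u := by rw [hu]; positivity
    have h6 := hlc z r 1 hr0 one_pos h2 u hu0
    refine le_trans (measureReal_mono ?_ (measure_ne_top _ _)) (h6.trans ?_)
    · intro w hw
      have hw' : mz μ z + (R:ℝ) ^ (β + ζ) < TT (pw w) 0 z := hw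
      show mz μ z + r + u ≤ TT (pw w) 0 z
      rw [hr, hu]
      linarith
    · rw [Real.exp_le_exp, neg_le_neg_iff]
      have h7 : 1 / 4 * (n:ℝ) ^ (β - b + ζ / 2) ≤ 1 * u / r := by
        have h8 : (n:ℝ) ^ (β - b + ζ / 2) ≤ (R:ℝ) ^ (β - b + ζ / 2) :=
          Real.rpow_le_rpow (by positivity) hRn (by linarith)
        have h9 : (R:ℝ) ^ (β - b + ζ / 2) * (R:ℝ) ^ (b + ζ / 2) = (R:ℝ) ^ (β + ζ) := by
          rw [← Real.rpow_add hR0]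
          congr 1
          ring
        have h10 : (0:ℝ) < (R:ℝ) ^ (b + ζ / 2) := by positivity
        rw [le_div_iff₀ hr0, hr, hu, ← h9]
        nlinarith [mul_le_mul_of_nonneg_right h8 h10.le]
      linarith
  · refine le_trans ?_ hn
    have e1 : (((2 * (3100 * n) + 1) ^ 2 : ℕ) : ℝ) ≤ (6201 * n) ^ 2 := by
      have : (2 * (3100 * n) + 1) ^ 2 ≤ (6201 * n) ^ 2 := Nat.pow_le_pow_left (by omega) 2
      exact_mod_cast this
    calc _ ≤ (6201 * (n:ℝ)) ^ 2 * ((6201 * (n:ℝ)) ^ 2 *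
          (Real.exp (-(1 / 4 * (n:ℝ) ^ (β - b + ζ / 2))))) := by gcongr
      _ = 6201 ^ 4 * (n:ℝ) ^ 4 * Real.exp (-(1 / 4 * (n:ℝ) ^ (β - b + ζ / 2))) := by ring

/-- the probability of a fast pair in a small box -/
lemma weak_rate2 (h : Shape μ) {b β η : ℝ} (hb : 0 < b) (hbβ : b ≤ β) (hβ1 : β < 1)
    (hη : b - β ≤ η) (hβη : η ≤ 1 - β) (h3β : 3 * β < 2 + β + η)
    (hU : ∀ a, b < a → SeU μ a)
    (hlc : ∀ (v : ℤ × ℤ) (r d : ℝ), 0 < r → 0 < d →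
      nu.real {w | mz μ v + r ≤ TT (pw w) 0 v} ≤ Real.exp (-(1 + d)) →
      ∀ u : ℝ, 0 ≤ u → nu.real {w | mz μ v + r + u ≤ TT (pw w) 0 v} ≤
        Real.exp (-(1 + d + d * u / r)))
    (hL : ∀ ζ : ℝ, 0 < ζ → ζ < 1 - β → ∀ᶠ T : ℝ in atTop, ∃ t : ℝ, T ≤ t ∧ t ≤ T ^ (1 + ζ) ∧
      nu.real {w | Dx μ (pw w) 0 t (t + t ^ (β + ζ))} ≤ 1 - Real.exp (-(t ^ (ζ - η))))
    {a : ℝ} (ha : 3 * β / (2 + β + η) < a) :
    ∃ δ C : ℝ, 0 < δ ∧ 0 < C ∧ ∀ᶠ s : ℕ in atTop,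
      nu.real {w | Q69.FM.Fb (mz μ) (pw w) s ((s:ℝ) ^ a) 0} ≤ C * (s:ℝ) ^ (-δ) := by
  have hβ0 : 0 < β := by linarith
  obtain ⟨l0, hl0⟩ : ∃ l0 : ℝ, l0 = 3 / (2 + β + η) := ⟨_, rfl⟩
  have hden : 0 < 2 + β + η := by linarith
  have hl01 : 1 ≤ l0 := by rw [hl0, le_div_iff₀ hden]; linarith
  have hl0b : 3 * β / (2 + β + η) = l0 * β := by rw [hl0]; ring
  have hl0d : l0 * (2 + β + η) = 3 := by rw [hl0]; field_simp
  rw [hl0b] at ha
  have hlb1 : l0 * β < 1 := by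
    rw [← hl0b, div_lt_one hden]
    linarith
  obtain ⟨a', ha'⟩ : ∃ a' : ℝ, a' = min a 1 := ⟨_, rfl⟩
  have haa : a' ≤ a := by rw [ha']; exact min_le_left _ _
  have haa1 : a' ≤ 1 := by rw [ha']; exact min_le_right _ _
  have hla : l0 * β < a' := by rw [ha']; exact lt_min ha hlb1
  obtain ⟨Δ, hΔ⟩ : ∃ Δ : ℝ, Δ = a' - l0 * β := ⟨_, rfl⟩
  have hΔ0 : 0 < Δ := by rw [hΔ]; linarith
  obtain ⟨κ0, hκ0⟩ : ∃ κ0 : ℝ, κ0 = Δ / 4 := ⟨_, rfl⟩
  have hκ00 : 0 < κ0 := by rw [hκ0]; positivity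
  obtain ⟨l, hl⟩ : ∃ l : ℝ, l = l0 + κ0 := ⟨_, rfl⟩
  have hl1 : 1 < l := by rw [hl]; linarith
  have hlp : 0 < l := by linarith
  obtain ⟨ζ, hζ⟩ : ∃ ζ : ℝ, ζ = min (Δ / (8 * l)) ((1 - β) / 2) := ⟨_, rfl⟩
  have hζ0 : 0 < ζ := by rw [hζ]; exact lt_min (by positivity) (by linarith)
  have hζ1 : ζ ≤ (1 - β) / 2 := by rw [hζ]; exact min_le_right _ _
  have hζ2 : ζ * (8 * l) ≤ Δ := by
    have : ζ ≤ Δ / (8 * l) := by rw [hζ]; exact min_le_left _ _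
    rwa [le_div_iff₀ (by positivity)] at this
  have hkey : l * (1 + ζ) * (β + 2 * ζ) < a' := by
    have e1 : κ0 * β ≤ Δ / 4 := by
      rw [hκ0]
      have : Δ / 4 * β ≤ Δ / 4 * 1 := mul_le_mul_of_nonneg_left (by linarith) (by positivity)
      linarith
    have e2 : l * (1 + ζ) * (β + 2 * ζ) = l0 * β + κ0 * β + ζ * l * (2 + β + 2 * ζ) := by
      rw [hl]; ring
    have e3 : ζ * l * (2 + β + 2 * ζ) ≤ ζ * l * 5 := by
      refine mul_le_mul_of_nonneg_left (by linarith) (by positivity)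
    rw [e2]
    linarith
  obtain ⟨κ, hκd⟩ : ∃ κ : ℝ, κ = β - b + ζ / 3 := ⟨_, rfl⟩
  have hκ : 0 < κ := by rw [hκd]; linarith
  have hgc := gc_rate h hb hζ0 hκ (show κ < β - b + ζ / 2 by rw [hκd]; linarith) (β := β)
    hU hlc
  obtain ⟨κ2, hκ2d⟩ : ∃ κ2 : ℝ, κ2 = β - b + ζ / 4 := ⟨_, rfl⟩
  have hκ20 : 0 < κ2 := by rw [hκ2d]; linarith
  have hκ2 : κ2 < κ := by rw [hκ2d, hκd]; linarith
  obtain ⟨ζ', hζ'⟩ : ∃ ζ' : ℝ, ζ' = ζ / 8 := ⟨_, rfl⟩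
  have hζ'0 : 0 < ζ' := by rw [hζ']; linarith
  have hζ'1 : ζ' ≤ ζ := by rw [hζ']; linarith
  have hζ'2 : ζ' + (β - b) < κ2 := by rw [hζ', hκ2d]; linarith
  have tb : Tendsto (fun n : ℕ => (n:ℝ) ^ (β + ζ)) atTop atTop :=
    (tendsto_rpow_atTop (by linarith)).comp tendsto_natCast_atTop_atTop
  -- the facts about `N`
  obtain ⟨N0, hNev⟩ := eventually_atTop.1 ((((((hgc.and (absorb 49 one_pos hκ20 hκ2)).and
    (nat_ev (rpow_small (K := 49) hζ'2))).and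
    (eventually_ge_atTop 1)).and (nat_ev (rpow_small (K := 3) (show β + ζ < 1 by linarith)))).and
    (tb.eventually_ge_atTop 12)).and
    (nat_ev (rpow_small (K := 12479) (show β + ζ < β + 2 * ζ by linarith))))
  have tl : Tendsto (fun s : ℕ => (s:ℝ) ^ l) atTop atTop :=
    (tendsto_rpow_atTop hlp).comp tendsto_natCast_atTop_atTop
  have tT : Tendsto (fun s : ℕ => 48 * (s:ℝ) ^ l) atTop atTop :=
    tl.const_mul_atTop (by norm_num)
  have tl1 : Tendsto (fun s : ℕ => (s:ℝ) ^ (l - 1)) atTop atTop :=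
    (tendsto_rpow_atTop (by linarith)).comp tendsto_natCast_atTop_atTop
  refine ⟨κ0 * (2 + β + η), 48 * 2304 * 137 ^ 2, by positivity, by positivity, ?_⟩
  filter_upwards [tl.eventually_ge_atTop (N0:ℝ), tT.eventually (hL ζ' hζ'0 (by linarith)),
    eventually_ge_atTop 1, tl1.eventually_ge_atTop 2,
    nat_ev (rpow_small (K := 2304) hkey)] with s hsN0 hTs hs1 hs2 hs3
  obtain ⟨t, ht1, ht2, f5⟩ := hTs
  have hs0 : (0:ℝ) < s := by exact_mod_cast hs1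
  have hs1' : (1:ℝ) ≤ s := by exact_mod_cast hs1
  have hsl : (1:ℝ) ≤ (s:ℝ) ^ l := Real.one_le_rpow hs1' hlp.le
  have ht0 : 0 < t := by linarith
  obtain ⟨N, hNd⟩ : ∃ N : ℕ, N = ⌊t / 24⌋₊ := ⟨_, rfl⟩
  have hNt1 : 24 * (N:ℝ) ≤ t := by
    have : (N:ℝ) ≤ t / 24 := by rw [hNd]; exact Nat.floor_le (by positivity)
    linarith
  have hNt2 : t ≤ 24 * N + 24 := by
    have : t / 24 < N + 1 := by rw [hNd]; exact Nat.lt_floor_add_one _
    linarith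
  have hNlo : (s:ℝ) ^ l ≤ N := by linarith
  have hN00 : N0 ≤ N := by
    have : (N0:ℝ) ≤ N := hsN0.trans hNlo
    exact_mod_cast this
  obtain ⟨⟨⟨⟨⟨⟨f1, f2⟩, f3⟩, f4⟩, f8⟩, f6⟩, f7⟩ := hNev N hN00
  rw [Real.rpow_one] at f8
  have hN1 : (1:ℝ) ≤ N := by exact_mod_cast f4
  have hN0 : (0:ℝ) < N := by linarith
  have ht48 : t ≤ 48 * N := by linarith
  have htN : (N:ℝ) ≤ t := by linarith
  have ht1' : 1 ≤ t := by linarith
  have hNup : (N:ℝ) ≤ 2304 * (s:ℝ) ^ (l * (1 + ζ)) := by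
    have e1 : (N:ℝ) ≤ t := htN
    refine e1.trans (ht2.trans ?_)
    calc (48 * (s:ℝ) ^ l) ^ (1 + ζ') ≤ (48 * (s:ℝ) ^ l) ^ (1 + ζ) :=
          Real.rpow_le_rpow_of_exponent_le (by linarith) (by linarith)
      _ = 48 ^ (1 + ζ) * (s:ℝ) ^ (l * (1 + ζ)) := by
          rw [Real.mul_rpow (by norm_num) (by positivity), ← Real.rpow_mul hs0.le]
      _ ≤ 2304 * (s:ℝ) ^ (l * (1 + ζ)) := by
          refine mul_le_mul_of_nonneg_right ?_ (by positivity)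
          calc (48:ℝ) ^ (1 + ζ) ≤ 48 ^ (2:ℝ) :=
                Real.rpow_le_rpow_of_exponent_le (by norm_num) (by linarith)
            _ = 2304 := by rw [Real.rpow_two]; norm_num
  have hsN' : 2 * (s:ℝ) ≤ N := by
    refine le_trans ?_ hNlo
    have e1 : (s:ℝ) ^ l = (s:ℝ) ^ (l - 1) * s := by
      rw [← Real.rpow_add_one hs0.ne']
      congr 1
      ring
    rw [e1]
    gcongr
  have hsN : 2 * s ≤ N := by exact_mod_cast hsN'
  -- the power of `N`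
  have hNpow : (N:ℝ) ^ (β + 2 * ζ) ≤ (s:ℝ) ^ a' := by
    refine le_trans ?_ hs3
    calc (N:ℝ) ^ (β + 2 * ζ) ≤ (2304 * (s:ℝ) ^ (l * (1 + ζ))) ^ (β + 2 * ζ) :=
          Real.rpow_le_rpow hN0.le hNup (by positivity)
      _ = 2304 ^ (β + 2 * ζ) * (s:ℝ) ^ (l * (1 + ζ) * (β + 2 * ζ)) := by
          rw [Real.mul_rpow (by norm_num) (by positivity), ← Real.rpow_mul hs0.le]
      _ ≤ 2304 * (s:ℝ) ^ (l * (1 + ζ) * (β + 2 * ζ)) := by
          refine mul_le_mul_of_nonneg_right ?_ (by positivity)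
          calc (2304:ℝ) ^ (β + 2 * ζ) ≤ 2304 ^ (1:ℝ) :=
                Real.rpow_le_rpow_of_exponent_le (by norm_num) (by linarith)
            _ = 2304 := Real.rpow_one _
  have hsa : (s:ℝ) ^ a' ≤ (s:ℝ) ^ a := Real.rpow_le_rpow_of_exponent_le hs1' haa
  have hsa1 : (s:ℝ) ^ a' ≤ s := by
    calc (s:ℝ) ^ a' ≤ (s:ℝ) ^ (1:ℝ) := Real.rpow_le_rpow_of_exponent_le hs1' haa1
      _ = s := Real.rpow_one _
  obtain ⟨A, hA⟩ : ∃ A : ℝ, A = (N:ℝ) ^ (β + ζ) := ⟨_, rfl⟩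
  rw [← hA] at f6 f7 f8
  have hA0 : 0 < A := by linarith
  obtain ⟨y, hy⟩ : ∃ y : ℝ, y = N * A / (12 * s) := ⟨_, rfl⟩
  have hy2 : 2 ≤ y := by
    rw [hy, le_div_iff₀ (by positivity)]
    nlinarith
  obtain ⟨L, hLd⟩ : ∃ L : ℕ, L = ⌊y⌋₊ := ⟨_, rfl⟩
  have hL1 : (L:ℝ) ≤ y := by rw [hLd]; exact Nat.floor_le (by linarith)
  have hL2 : y / 2 ≤ L := by
    have : y < L + 1 := by rw [hLd]; exact Nat.lt_floor_add_one _
    linarith
  have hLN : L ≤ N := by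
    have e1 : (L:ℝ) ≤ N := by
      refine hL1.trans ?_
      rw [hy, div_le_iff₀ (by positivity)]
      have : A ≤ 12 * s := by linarith
      gcongr
    exact_mod_cast e1
  have hD : 6 * (s * (L + 2 : ℝ)) / N ≤ A := by
    rw [div_le_iff₀ hN0]
    have e1 : (L:ℝ) + 2 ≤ 2 * y := by linarith
    have e2 : 6 * (s * (2 * y)) = A * N := by rw [hy]; field_simp; ring
    calc 6 * (s * (L + 2 : ℝ)) ≤ 6 * (s * (2 * y)) := by gcongr
      _ = A * N := e2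
  -- the numbers of the deterministic lemma
  obtain ⟨E, hE⟩ : ∃ E : ℝ, E = ((2 * (3100 * N) : ℕ) : ℝ) ^ (β + ζ) := ⟨_, rfl⟩
  rw [← hE] at f1
  have hE1 : E ≤ 6200 * A := by
    rw [hE, hA, show ((2 * (3100 * N) : ℕ) : ℝ) = 6200 * (N:ℝ) by push_cast; ring,
      Real.mul_rpow (by norm_num) hN0.le]
    refine mul_le_mul_of_nonneg_right ?_ (by positivity)
    calc (6200:ℝ) ^ (β + ζ) ≤ 6200 ^ (1:ℝ) :=
          Real.rpow_le_rpow_of_exponent_le (by norm_num) (by linarith)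
      _ = 6200 := Real.rpow_one _
  obtain ⟨S, hS⟩ : ∃ S : ℝ, S = t + t ^ (β + ζ') := ⟨_, rfl⟩
  rw [← hS] at f5
  have hS1 : t ^ (β + ζ') ≤ 48 * A := by
    calc t ^ (β + ζ') ≤ t ^ (β + ζ) :=
          Real.rpow_le_rpow_of_exponent_le ht1' (by linarith)
      _ ≤ (48 * (N:ℝ)) ^ (β + ζ) := Real.rpow_le_rpow ht0.le ht48 (by linarith)
      _ = 48 ^ (β + ζ) * A := by rw [hA, Real.mul_rpow (by norm_num) hN0.le]
      _ ≤ 48 * A := by
          refine mul_le_mul_of_nonneg_right ?_ hA0.le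
          calc (48:ℝ) ^ (β + ζ) ≤ 48 ^ (1:ℝ) :=
                Real.rpow_le_rpow_of_exponent_le (by norm_num) (by linarith)
            _ = 48 := Real.rpow_one _
  have hS3 : (0:ℝ) ≤ t ^ (β + ζ') := by positivity
  obtain ⟨g, hg⟩ : ∃ g : ℝ, g = (s:ℝ) ^ a := ⟨_, rfl⟩
  rw [← hg]
  have hg1 : 30 + A + 2 * E + (S - t) ≤ g := by
    rw [hg]
    refine le_trans ?_ (hNpow.trans hsa)
    refine le_trans ?_ f7
    rw [hS]
    linarith
  have hg0 : 0 ≤ g := by rw [hg]; positivity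
  -- the probabilities
  set Gc : Set (Ed → ℝ) := {w | ∃ x ∈ ball (3100 * N) 0, ∃ y ∈ ball (3100 * N) 0,
      mz μ (y - x) + E < TT (pw w) x y} with hGc
  set Dc : Set (Ed → ℝ) := {w | Dx μ (pw w) 0 t S} with hDc
  set Hc : Set (Ed → ℝ) := {w | ∀ c ∈ ball (8 * N) 0, ¬ Hb μ (pw w) s N L g c 0} with hHc
  have hsub : Dcᶜ ⊆ Hc ∪ Gc := by
    intro w hw
    by_cases hgw : w ∈ Gc
    · exact Or.inr hgw
    · left
      simp only [hGc, Set.mem_ofPred_eq, not_exists, not_and, not_lt] at hgw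
      intro c _ hH
      exact hw (leaves_one h (pw_nonneg w) f4 (by omega) hLN hg0 hD hg1 (by linarith)
        (by linarith) hgw hH)
  have hcompl := measureReal_compl (μ := nu) (measurable_Dx (μ := μ) 0 t S)
  rw [probReal_univ] at hcompl
  have hle := (measureReal_mono (μ := nu) hsub (measure_ne_top _ _)).trans (measureReal_union_le _ _)
  obtain ⟨x, hx⟩ : ∃ x : ℝ, x = t ^ (ζ' - η) := ⟨_, rfl⟩
  rw [← hx] at f5
  have hx0 : 0 < x := by rw [hx]; positivity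
  obtain ⟨p, hp⟩ : ∃ p : ℝ, p = nu.real {w | Q69.FM.Fb (mz μ) (pw w) s g 0} := ⟨_, rfl⟩
  have hno := no_Hb h (s := s) (N := N) (L := L) hs1 hsN hLN hg0
  rw [← hp] at hno ⊢
  have hp0 : 0 ≤ p := by rw [hp]; exact measureReal_nonneg
  -- the comparison
  have hx1 : x ≤ 49 * (N:ℝ) ^ (ζ' + (β - b)) := by
    calc x ≤ t ^ (ζ' + (β - b)) := by
          rw [hx]
          exact Real.rpow_le_rpow_of_exponent_le ht1' (by linarith)
      _ ≤ (48 * (N:ℝ)) ^ (ζ' + (β - b)) := Real.rpow_le_rpow ht0.le ht48 (by linarith)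
      _ = 48 ^ (ζ' + (β - b)) * (N:ℝ) ^ (ζ' + (β - b)) := by
          rw [Real.mul_rpow (by norm_num) hN0.le]
      _ ≤ 49 * (N:ℝ) ^ (ζ' + (β - b)) := by
          refine mul_le_mul_of_nonneg_right ?_ (by positivity)
          calc (48:ℝ) ^ (ζ' + (β - b)) ≤ 48 ^ (1:ℝ) :=
                Real.rpow_le_rpow_of_exponent_le (by norm_num) (by linarith)
            _ ≤ 49 := by rw [Real.rpow_one]; norm_num
  have hx2 : 1 ≤ 48 * N * x := by
    have e1 : t ^ (-1:ℝ) ≤ x := by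
      rw [hx]
      exact Real.rpow_le_rpow_of_exponent_le ht1' (by linarith)
    rw [Real.rpow_neg_one, inv_le_iff_one_le_mul₀ ht0] at e1
    have e2 : x * t ≤ x * (48 * N) := mul_le_mul_of_nonneg_left ht48 hx0.le
    linarith
  have hx3 : 1 / (49 * (N:ℝ)) ≤ x / (1 + x) := by
    rw [div_le_div_iff₀ (by positivity) (by positivity)]
    nlinarith
  have hgcx : Real.exp (-((N:ℝ) ^ κ)) ≤ Real.exp (-x) * (x / (1 + x)) := by
    have e1 : 49 * (N:ℝ) * Real.exp (-((N:ℝ) ^ κ)) ≤ Real.exp (-x) := by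
      calc 49 * (N:ℝ) * Real.exp (-((N:ℝ) ^ κ)) ≤
            49 * (N:ℝ) ^ 4 * Real.exp (-(1 * (N:ℝ) ^ κ)) := by
            rw [one_mul]
            have : (N:ℝ) ≤ (N:ℝ) ^ 4 := le_self_pow₀ hN1 (by norm_num)
            gcongr
        _ ≤ Real.exp (-((N:ℝ) ^ κ2)) := f2
        _ ≤ Real.exp (-x) := by
            rw [Real.exp_le_exp, neg_le_neg_iff]
            exact hx1.trans f3
    calc Real.exp (-((N:ℝ) ^ κ)) = (49 * (N:ℝ) * Real.exp (-((N:ℝ) ^ κ))) * (1 / (49 * (N:ℝ))) := by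
          field_simp
      _ ≤ Real.exp (-x) * (x / (1 + x)) := by gcongr
  have hcmp := cmp_exp hx0 (l := ((N * L : ℕ) : ℝ) * p / (137 * s) ^ 2)
    (p := nu.real Gc) (by linarith) (f1.trans hgcx)
  -- conclusion
  have hx4 : x ≤ 2304 * (N:ℝ) ^ (ζ - η) := by
    have g1 : 1 ≤ t / N := by rw [le_div_iff₀ hN0]; linarith
    have g2 : t / N ≤ 48 := by rw [div_le_iff₀ hN0]; linarith
    calc x ≤ t ^ (ζ - η) := by
          rw [hx]
          exact Real.rpow_le_rpow_of_exponent_le ht1' (by linarith)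
      _ = ((t / N) * N) ^ (ζ - η) := by rw [div_mul_cancel₀ _ hN0.ne']
      _ = (t / N) ^ (ζ - η) * (N:ℝ) ^ (ζ - η) := Real.mul_rpow (by linarith) hN0.le
      _ ≤ 2304 * (N:ℝ) ^ (ζ - η) := by
          refine mul_le_mul_of_nonneg_right ?_ (by positivity)
          calc (t / N) ^ (ζ - η) ≤ (t / N) ^ (2:ℝ) :=
                Real.rpow_le_rpow_of_exponent_le g1 (by linarith)
            _ ≤ 48 ^ (2:ℝ) := Real.rpow_le_rpow (by linarith) g2 (by norm_num)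
            _ = 2304 := by rw [Real.rpow_two]; norm_num
  rw [div_le_iff₀ (by positivity)] at hcmp
  have hNL : (N:ℝ) * (N * A / (24 * s)) ≤ ((N * L : ℕ) : ℝ) := by
    push_cast
    have e1 : N * A / (24 * s) = y / 2 := by rw [hy]; field_simp; ring
    rw [e1]
    gcongr
  have h1 : (N:ℝ) * (N * A / (24 * s)) * p ≤ 2 * (2304 * (N:ℝ) ^ (ζ - η)) * (137 * s) ^ 2 := by
    calc (N:ℝ) * (N * A / (24 * s)) * p ≤ ((N * L : ℕ) : ℝ) * p := by gcongr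
      _ ≤ 2 * x * (137 * s) ^ 2 := hcmp
      _ ≤ _ := by gcongr
  have hNpw : (N:ℝ) ^ (2 + β + η) * (N:ℝ) ^ (ζ - η) = N * (N * A) := by
    rw [hA, ← Real.rpow_add hN0, ← Real.rpow_one_add' hN0.le (by linarith),
      ← Real.rpow_one_add' hN0.le (by linarith)]
    congr 1
    ring
  have hspw : (s:ℝ) ^ 3 * (s:ℝ) ^ (κ0 * (2 + β + η)) ≤ (N:ℝ) ^ (2 + β + η) := by
    calc (s:ℝ) ^ 3 * (s:ℝ) ^ (κ0 * (2 + β + η)) = ((s:ℝ) ^ l) ^ (2 + β + η) := by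
          rw [← Real.rpow_natCast (s:ℝ) 3, ← Real.rpow_add hs0, ← Real.rpow_mul hs0.le]
          congr 1
          rw [hl, add_mul, hl0d]
          norm_num
      _ ≤ _ := Real.rpow_le_rpow (by positivity) hNlo hden.le
  rw [Real.rpow_neg hs0.le, ← div_eq_mul_inv, le_div_iff₀ (by positivity)]
  have hX : 0 < (N:ℝ) ^ (ζ - η) * (s:ℝ) ^ 2 := by positivity
  refine le_of_mul_le_mul_right ?_ hX
  calc p * (s:ℝ) ^ (κ0 * (2 + β + η)) * ((N:ℝ) ^ (ζ - η) * (s:ℝ) ^ 2)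
      = p * ((s:ℝ) ^ 3 * (s:ℝ) ^ (κ0 * (2 + β + η))) * (N:ℝ) ^ (ζ - η) / s := by
        field_simp
    _ ≤ p * (N:ℝ) ^ (2 + β + η) * (N:ℝ) ^ (ζ - η) / s := by gcongr
    _ = 24 * ((N:ℝ) * (N * A / (24 * s)) * p) := by
        rw [mul_assoc p, hNpw]
        field_simp
    _ ≤ 24 * (2 * (2304 * (N:ℝ) ^ (ζ - η)) * (137 * s) ^ 2) := by gcongr
    _ = 48 * 2304 * 137 ^ 2 * ((N:ℝ) ^ (ζ - η) * (s:ℝ) ^ 2) := by ring

end Pool.Agent.H69.FP
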